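import Pool.Agent.J6H71.Mu.Bnd

/-!
# Necessity and sufficiency for abelian extensions
-/

set_option autoImplicit false

namespace Pool.Agent.J6H71.Mu

open IntermediateField Module Pool.Agent.Q60.MU Pool.Agent.W5h77.MB Pool.Agent.W5h33.DF
  Pool.Agent.J6H14.DMu Pool.Agent.J6H71.MuS NumberField
open scoped Pointwise commutatorElement ComplexConjugate

theorem GoodAt.mono {p : ℕ} {s : Bool} {k K C R₀ R₀' : Fl} (h : GoodAt p s k K C R₀)
    (hR : R₀ ≤ R₀') : GoodAt p s k K C R₀' := by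
  rcases h with ⟨t, ht, m, R, h1, h2, h3⟩ | ⟨m₁, R₁, m, R, h1, h2, h3, h4, h5⟩
  · exact Or.inl ⟨t, ht, m, R, h1, h2.trans hR, h3⟩
  · exact Or.inr ⟨m₁, R₁, m, R, h1, h2, h3, h4.trans hR, h5⟩

section
variable {p : ℕ} [hp : Fact p.Prime] {s : Bool} {k K : Fl} [FiniteDimensional ℚ K]

omit [FiniteDimensional ℚ K] in
/-- A common layer. -/
theorem common_layer (𝒞 : Finset Fl) (Q : Fl → Fl → Prop)
    (hmono : ∀ C R R', Q C R → R ≤ R' → Q C R')
    (h : ∀ C ∈ 𝒞, ∃ m R, Layer p m R ∧ Q C R) : ∃ m R, Layer p m R ∧ ∀ C ∈ 𝒞, Q C R := by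
  classical
  induction 𝒞 using Finset.induction_on with
  | empty => exact ⟨0, ⊥, layer_zero, by simp⟩
  | insert C 𝒞 _ ih =>
    obtain ⟨m, R, hR, h1⟩ := ih fun C' hC' => h C' (Finset.mem_insert_of_mem hC')
    obtain ⟨m', R', hR', h2⟩ := h C (Finset.mem_insert_self _ _)
    obtain ⟨m'', hR''⟩ := hR.sup hR'
    refine ⟨m'', R ⊔ R', hR'', fun C' hC' => ?_⟩
    rcases Finset.mem_insert.1 hC' with rfl | hC'
    · exact hmono _ _ _ h2 le_sup_right
    · exact hmono _ _ _ (h1 C' hC') le_sup_left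

/-- Sufficiency, for degree prime to `p`. -/
theorem suff (h1 : OnePrimeT) (h2 : InertiaT) (h6 : AbelianSimpleT)
    (hab : IsAbelianOver k K) (hpK : ¬ p ∣ rdeg k K) (T : Finset Fl) (hne : T.Nonempty)
    (hT : ∀ E ∈ T, k ≤ E ∧ E ≤ K ∧ MuVanishes p s E)
    (hcrit : ∀ C, CyclicIn p k K C → (∀ E ∈ T, ¬ C ≤ E) →
      ∃ m₀ R₀, Layer p m₀ R₀ ∧ GoodAt p s k K C R₀) : MuVanishes p s K := by
  classical
  have hfk : FiniteDimensional ℚ k := fd_of_le hab.1
  have hfin := finite_fields hab.1 hab.2.1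
  obtain ⟨m₀, R₀, hR₀, hcr⟩ := common_layer (p := p) hfin.toFinset
    (fun C R => CyclicIn p k K C → (∀ E ∈ T, ¬ C ≤ E) → GoodAt p s k K C R)
    (fun C R R' h hRR h3 h4 => (h h3 h4).mono hRR) (by
      intro C _
      by_cases h3 : CyclicIn p k K C
      · by_cases h4 : ∀ E ∈ T, ¬ C ≤ E
        · obtain ⟨m, R, hR, h5⟩ := hcrit C h3 h4
          exact ⟨m, R, hR, fun _ _ => h5⟩
        · exact ⟨0, ⊥, layer_zero, fun _ h5 => absurd h5 h4⟩
      · exact ⟨0, ⊥, layer_zero, fun h5 => absurd h5 h3⟩)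
  have hfR₀ := layer_fd hp.out hR₀.1
  obtain ⟨C₀, hC₀⟩ := rank_finite (p := p) s (K ⊔ R₀)
  choose! c hc using fun E (hE : E ∈ T) => (hT E hE).2.2
  refine mu_above hR₀ ⟨C₀ * p ^ deg K * ∏ E ∈ T, c E ^ rdeg k E, fun m' R' hR' hRR => ?_⟩
  exact core_bound h1 h2 h6 hab hpK T hne (fun E hE => ⟨(hT E hE).1, (hT E hE).2.1⟩) hR₀ hR' hRR
    (fun C hC hCE => hcr C (hfin.mem_toFinset.2 ⟨hC.1, hC.2.1⟩) hC hCE) hC₀ c
    (fun E hE => hc E hE m' R' hR')

/-- `p` has positive order. -/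
theorem ordMod_pos {C : Fl} (hp' : ¬ p ∣ rdeg k C) : 0 < ordMod p k C := by
  unfold ordMod
  have h1 : Nat.Coprime p (rdeg k C) := (Nat.Prime.coprime_iff_not_dvd hp.out).2 hp'
  have hne : NeZero (rdeg k C) := ⟨fun h => hp' (by rw [h]; exact dvd_zero p)⟩
  rw [← ZMod.coe_unitOfCoprime p h1, orderOf_units]
  exact orderOf_pos _

/-- Necessity. -/
theorem nec (h1 : OnePrimeT) (hab : IsAbelianOver k K) (hpK : ¬ p ∣ rdeg k K)
    (h : MuVanishes p s K) {C : Fl} (hC : CyclicIn p k K C) :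
    ∃ m₀ R₀, Layer p m₀ R₀ ∧ GoodAt p s k K C R₀ := by
  have hfk : FiniteDimensional ℚ k := fd_of_le hab.1
  obtain ⟨B, hB⟩ := h
  obtain ⟨R, hR⟩ := exists_layer hp.out (finrank ℚ k * (B + deg k))
  have hfR := layer_fd hp.out hR.1
  have h3 : B + deg k ≤ lay k R := by
    show B + deg k ≤ finrank ℚ ↥(k ⊔ R) / finrank ℚ k
    rw [Nat.le_div_iff_mul_le finrank_pos]
    have h2 : finrank ℚ R ≤ finrank ℚ ↥(k ⊔ R) :=
      IntermediateField.finrank_le_of_le_right le_sup_right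
    have h0 : finrank ℚ R = p ^ (finrank ℚ k * (B + deg k)) := hR.1.1
    rw [h0] at h2
    have h3 : finrank ℚ k * (B + deg k) < p ^ (finrank ℚ k * (B + deg k)) :=
      Nat.lt_pow_self hp.out.one_lt
    calc (B + deg k) * finrank ℚ k = finrank ℚ k * (B + deg k) := mul_comm _ _
      _ ≤ _ := h3.le.trans h2
  have hcnt1 : ∀ C' : Fl, C' ≤ K → cnt C' (fun _ : Fin 1 => K) = 1 := by
    intro C' hC'
    unfold cnt
    rw [Nat.card_eq_one_iff_unique]
    exact ⟨⟨fun a b => Subtype.ext (Subsingleton.elim _ _)⟩, ⟨⟨0, hC'⟩⟩⟩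
  have hcnt0 : ∀ C' : Fl, cnt C' (Fin.elim0 : Fin 0 → Fl) = 0 := by
    intro C'
    unfold cnt
    exact Nat.card_of_isEmpty
  refine ⟨_, R, hR, Or.inl ⟨deg k, ?_, _, R, hR, le_rfl, 1, 0, fun _ => K, Fin.elim0, fun _ => B,
    Fin.elim0, ⟨fun _ => ⟨hab.1, le_rfl, hpK⟩, fun j => j.elim0, fun C' hC' => ?_⟩,
    fun _ => hB _ R hR, fun j => j.elim0, ?_⟩⟩
  · intro m' R' hR'
    obtain ⟨𝒜, h𝒜⟩ := exists_fam (k := k) h1 hR'
    refine ⟨𝒜, fun A hA _ => ?_⟩
    obtain ⟨i, g, hgk, hgR, hgA⟩ := h𝒜 A hA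
    refine ⟨i, g, ?_, fun x => ?_⟩
    · show g ∈ (k ⊔ R').fixingSubgroup
      rw [fixingSubgroup_sup]
      exact ⟨hgk, hgR⟩
    · rw [← hgA, ValuationSubring.mem_pointwise_smul_iff_inv_smul_mem]
      have h3 : g⁻¹ • im g x = x := by
        show (g⁻¹ * g) x = x
        rw [inv_mul_cancel]
        rfl
      rw [h3]
  · rw [hcnt0]
    exact Nat.zero_le _
  · rw [hcnt1 C hC.2.1, hcnt0]
    simp only [Finset.univ_unique, Finset.prod_const, Finset.card_singleton, pow_one,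
      Finset.univ_eq_empty, Finset.prod_empty, one_mul, Nat.sub_zero, mul_one]
    have h4 := ordMod_pos (p := p) hC.2.2.2.1
    calc B < p ^ B := Nat.lt_pow_self hp.out.one_lt
      _ ≤ p ^ (ordMod p k C * (lay k R - deg k)) := by
        apply Nat.pow_le_pow_right hp.out.pos
        have h5 : B ≤ lay k R - deg k := by omega
        exact h5.trans (Nat.le_mul_of_pos_left _ h4)

omit hp in
/-- Going down. -/
theorem mu_down' [Fact p.Prime] {F : Fl} (hFK : F ≤ K) (h : MuVanishes p s K) :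
    MuVanishes p s F := by
  obtain ⟨C, hC⟩ := h
  have hp : p.Prime := Fact.out
  have hfF : FiniteDimensional ℚ F := fd_of_le hFK
  refine ⟨C * K.fixingSubgroup.index, fun m R hR => ?_⟩
  have hfR := layer_fd hp hR.1
  have h0 := hC m R hR
  rw [← rkLe_iff] at h0 ⊢
  rw [fixingSubgroup_sup] at h0 ⊢
  have h1 : (K.fixingSubgroup ⊓ R.fixingSubgroup).relIndex (F.fixingSubgroup ⊓ R.fixingSubgroup) ≤
      K.fixingSubgroup.index := by
    have h2 : (K.fixingSubgroup ⊓ R.fixingSubgroup).relIndex (F.fixingSubgroup ⊓ R.fixingSubgroup) =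
        K.fixingSubgroup.relIndex (F.fixingSubgroup ⊓ R.fixingSubgroup) := by
      rw [← Subgroup.inf_relIndex_right, ← Subgroup.inf_relIndex_right K.fixingSubgroup]
      congr 1
      ext x
      simp only [Subgroup.mem_inf]
      tauto
    rw [h2, ← Subgroup.relIndex_top_right]
    exact Subgroup.relIndex_le_of_le_right le_top (by
      rw [Subgroup.relIndex_top_right]
      exact index_ne_zero' K)
  have h3 : (K.fixingSubgroup ⊓ R.fixingSubgroup).relIndex
      (F.fixingSubgroup ⊓ R.fixingSubgroup) ≠ 0 := by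
    intro h
    have h4 := Subgroup.relIndex_eq_zero_of_le_right
      (le_top : F.fixingSubgroup ⊓ R.fixingSubgroup ≤ ⊤) h
    rw [Subgroup.relIndex_top_right] at h4
    have h5 : (K ⊔ R).fixingSubgroup.index ≠ 0 := index_ne_zero' (K ⊔ R)
    rw [fixingSubgroup_sup] at h5
    exact h5 h4
  refine (RankLe.of_le (inf_le_inf_right _ (fixingSubgroup_le hFK)) (by
    rw [Subgroup.coe_inf]
    exact K.fixingSubgroup_isOpen.inter R.fixingSubgroup_isOpen) h3 h0).mono ?_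
  exact Nat.mul_le_mul_left _ h1

/-- The largest subextension of degree prime to `p`. -/
theorem exists_prime_part (hab : IsAbelianOver k K) :
    ∃ K₀ : Fl, k ≤ K₀ ∧ K₀ ≤ K ∧ ¬ p ∣ rdeg k K₀ ∧ (∃ n, rdeg K₀ K = p ^ n) ∧
      ∀ C : Fl, k ≤ C → C ≤ K → ¬ p ∣ rdeg k C → C ≤ K₀ := by
  classical
  have hfk : FiniteDimensional ℚ k := fd_of_le hab.1
  have hn : (sb k K).Normal := sb_normal hab.2.1
  have hfi : (sb k K).FiniteIndex := ⟨sb_index_ne hab.1⟩
  have hfin : Finite (k.fixingSubgroup ⧸ sb k K) := inferInstance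
  let P : Sylow p (k.fixingSubgroup ⧸ sb k K) := default
  have hcomm : ∀ x y : k.fixingSubgroup ⧸ sb k K, x * y = y * x := by
    intro x y
    obtain ⟨g, rfl⟩ := QuotientGroup.mk_surjective x
    obtain ⟨h, rfl⟩ := QuotientGroup.mk_surjective y
    have h1 := comm_sb hab g⁻¹ h⁻¹
    show ((g * h : k.fixingSubgroup) : k.fixingSubgroup ⧸ sb k K) = ((h * g : k.fixingSubgroup) : _)
    rw [QuotientGroup.eq]
    have h2 : (g * h)⁻¹ * (h * g) = h⁻¹ * g⁻¹ * h * g := by group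
    have h3 := comm_sb hab h⁻¹ g⁻¹
    rw [commutatorElement_def, inv_inv, inv_inv] at h3
    rw [h2]
    exact h3
  let mk : k.fixingSubgroup →* k.fixingSubgroup ⧸ sb k K := QuotientGroup.mk' (sb k K)
  have hmk : Function.Surjective mk := QuotientGroup.mk'_surjective _
  let H : Subgroup k.fixingSubgroup := P.toSubgroup.comap mk
  have hKH : sb k K ≤ H := by
    intro g hg
    show mk g ∈ P.toSubgroup
    have h1 : mk g = 1 := (QuotientGroup.eq_one_iff g).2 hg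
    rw [h1]
    exact one_mem _
  obtain ⟨K₀, hkK₀, hK₀K, hH⟩ := exists_field hab.1 hKH
  have hfK₀ : FiniteDimensional ℚ K₀ := fd_of_le hK₀K
  have hidxH : H.index = P.toSubgroup.index := Subgroup.index_comap_of_surjective _ hmk
  have hPn : P.toSubgroup.Normal := ⟨fun x hx g => by rwa [hcomm g x, mul_inv_cancel_right]⟩
  refine ⟨K₀, hkK₀, hK₀K, ?_, ?_, ?_⟩
  · rw [← index_sb hkK₀, hH, hidxH]
    exact P.not_dvd_index
  · obtain ⟨n, hn'⟩ := IsPGroup.iff_card.1 P.isPGroup'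
    refine ⟨n, ?_⟩
    rw [← rel_sb hkK₀ hK₀K, hH, ← hn']
    have h1 := Subgroup.relIndex_mul_index hKH
    have h2 := Subgroup.card_mul_index P.toSubgroup
    rw [hidxH] at h1
    have h3 : (sb k K).index = Nat.card (k.fixingSubgroup ⧸ sb k K) := rfl
    rw [h3, ← h2] at h1
    exact Nat.eq_of_mul_eq_mul_right (Nat.pos_of_ne_zero P.toSubgroup.index_ne_zero_of_finite) h1
  · intro C hkC hCK hpC
    rw [← sb_le_iff hkK₀, hH]
    intro g hg
    obtain ⟨n, hn'⟩ := P.isPGroup' ⟨mk g, hg⟩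
    have h1 : g ^ p ^ n ∈ sb k C := by
      have h2 : mk (g ^ p ^ n) = 1 := by
        rw [map_pow]
        exact congrArg Subtype.val hn'
      exact sb_mono hCK ((QuotientGroup.eq_one_iff _).1 h2)
    have hfC : FiniteDimensional ℚ C := fd_of_le hCK
    have hnC : (sb k C).Normal := by
      refine ⟨fun x hx y => ?_⟩
      have h3 : y * x * y⁻¹ = ⁅y, x⁆ * x := by
        rw [commutatorElement_def]
        group
      rw [h3]
      exact mul_mem (sb_mono hCK (comm_sb hab y x)) hx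
    have h2 : g ^ rdeg k C ∈ sb k C := by
      rw [← index_sb hkC]
      exact (sb k C).pow_index_mem g
    exact mem_of_coprime _ (Nat.Coprime.pow_left n
      ((Nat.Prime.coprime_iff_not_dvd hp.out).2 hpC)) h1 h2

end

end Pool.Agent.J6H71.Mu
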