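import Pool.Agent.J6H71.Mu.Ker

/-!
# The explicit bound for extensions of degree prime to `p`
-/

set_option autoImplicit false

namespace Pool.Agent.J6H71.Mu

open IntermediateField Module Pool.Agent.Q60.MU Pool.Agent.W5h77.MB Pool.Agent.W5h33.DF
  Pool.Agent.J6H14.DMu Pool.Agent.J6H71.MuS NumberField
open scoped Pointwise commutatorElement

section
variable {p : ℕ} [hp : Fact p.Prime] {s : Bool} {k K : Fl} [FiniteDimensional ℚ k]
  [FiniteDimensional ℚ K]

omit [FiniteDimensional ℚ k] [FiniteDimensional ℚ K] in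
/-- The number of ramified copies. -/
theorem mlt_of {m' t : ℕ} {R' C : Fl} (hR' : Layer p m' R') {S : Type} [CommGroup S] [Finite S]
    [Nontrivial S] (b : k.fixingSubgroup →* MulAut S) (hE : Nat.card S ≤ Nat.card (En b))
    (h2 : ∀ H : Subgroup k.fixingSubgroup, ¬ H ≤ sb k C → fx b H = ⊥)
    (h : PrimesLe p k C t) : Mlt (lc p s k) (sb k R') b t := by
  obtain ⟨B, hB⟩ := h m' R' hR'
  refine ⟨t, fun i => Sum.inl (B i), ?_, ?_⟩
  · rintro (A | w)
    · by_cases hpA : (p : Qb) ∈ A.nonunits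
      · right
        by_cases hs : SplitsIn k C A
        · right
          obtain ⟨i, g, hg, hgB⟩ := hB A hpA hs
          have hgk : g ∈ k.fixingSubgroup := fixingSubgroup_le le_sup_left hg
          refine ⟨i, ⟨g, hgk⟩, fixingSubgroup_le le_sup_right hg, ?_⟩
          show Sum.inl (g • A) = Sum.inl (B i)
          congr 1
          ext z
          rw [ValuationSubring.mem_pointwise_smul_iff_inv_smul_mem, ← hgB]
          have h3 : im g (g⁻¹ • z) = z := by
            show (g * g⁻¹) z = z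
            rw [mul_inv_cancel]
            rfl
          rw [h3]
        · left
          apply h2
          intro hle
          apply hs
          intro σ hσ hσA x hx
          have h3 : (⟨σ, hσ⟩ : k.fixingSubgroup) ∈ MulAction.stabilizer k.fixingSubgroup
              (Sum.inl A : ValuationSubring Qb ⊕ InfinitePlace Qb) := by
            show Sum.inl (σ • A) = Sum.inl A
            rw [stab_iff.1 hσA]
          exact (IntermediateField.mem_fixingSubgroup_iff _ _).1 (hle h3) x hx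
      · left
        intro g hg
        have h4 : (g : Gal(Qb/ℚ)) ∈ locFin p s A := hg
        unfold locFin at h4
        rw [if_neg (fun h => hpA h.2)] at h4
        exact inertia_le_layer hp.out hR'.1 hpA h4
    · left
      intro g hg
      exact stab_le_layer hR' w hg
  · have h3 : ∀ i : Fin t, Nat.card (fx b (MulAction.stabilizer k.fixingSubgroup
        (Sum.inl (B i) : ValuationSubring Qb ⊕ InfinitePlace Qb))) ≤ Nat.card (En b) := fun i =>
      (Nat.card_le_card_of_injective _ Subtype.val_injective).trans hE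
    refine (Finset.prod_le_prod' fun i _ => h3 i).trans_lt ?_
    rw [Finset.prod_const, Finset.card_univ, Fintype.card_fin]
    exact Nat.pow_lt_pow_right ((Finite.one_lt_card (α := S)).trans_le hE) (Nat.lt_succ_self t)

/-- Total ramification. -/
theorem rm_of (h2 : InertiaT) (hab : IsAbelianOver k K) (hpK : ¬ p ∣ rdeg k K) {m₁ m' : ℕ}
    {R₁ R' : Fl} (hR₁ : Layer p m₁ R₁) (hR' : Layer p m' R') (hRR : R₁ ≤ R')
    (hdeg : deg k < p * deg R₁) : Rm (lc p s k) (sb k K) (sb k R₁) (sb k R') := by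
  have h3 : ∀ A : ValuationSubring Qb, (p : Qb) ∈ A.nonunits →
      ∀ x ∈ sb k K ⊓ sb k R₁, ∃ w ∈ lc p s k (Sum.inl A) ⊓ (sb k K ⊓ sb k R₁),
        x * w⁻¹ ∈ sb k R' := by
    rintro A hA x ⟨hxK, hxR⟩
    obtain ⟨w, hw, hwK, hwR, hxw⟩ := total h2 hab.1 hab.2.1 hpK hR₁ hR' hRR hdeg hA hxR
    exact ⟨⟨w, fixingSubgroup_le hab.1 hwK⟩, ⟨inertia_le_locFin p s A hw, hwK, hwR⟩, hxw⟩
  refine ⟨?_, ?_⟩
  · rintro (A | w)
    · by_cases hpA : (p : Qb) ∈ A.nonunits
      · exact Or.inr (h3 A hpA)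
      · left
        intro g hg
        have h4 : (g : Gal(Qb/ℚ)) ∈ locFin p s A := hg
        unfold locFin at h4
        rw [if_neg (fun h => hpA h.2)] at h4
        exact inertia_le_layer hp.out hR'.1 hpA h4
    · left
      intro g hg
      exact stab_le_layer hR' w hg
  · obtain ⟨A, hA⟩ := exists_above hp.out
    exact ⟨Sum.inl A, h3 A hA⟩

/-- **The explicit bound.** -/
theorem core_bound (h1 : OnePrimeT) (h2 : InertiaT) (h6 : AbelianSimpleT)
    (hab : IsAbelianOver k K) (hpK : ¬ p ∣ rdeg k K) (T : Finset Fl) (hne : T.Nonempty)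
    (hT : ∀ E ∈ T, k ≤ E ∧ E ≤ K) {m₀ m' : ℕ} {R₀ R' : Fl}
    (hR₀ : Layer p m₀ R₀) (hR' : Layer p m' R') (hRR : R₀ ≤ R')
    (hcrit : ∀ C, CyclicIn p k K C → (∀ E ∈ T, ¬ C ≤ E) → GoodAt p s k K C R₀)
    {C₀ : ℕ} (hC₀ : RkLe p s (K ⊔ R₀) C₀) (c : Fl → ℕ)
    (hc : ∀ E ∈ T, RkLe p s (E ⊔ R') (c E)) :
    RkLe p s (K ⊔ R') (C₀ * p ^ deg K * ∏ E ∈ T, c E ^ rdeg k E) := by
  classical
  have hfR₀ := layer_fd hp.out hR₀.1
  have hfR' := layer_fd hp.out hR'.1
  have hkK := hab.1
  have hEf : ∀ E ∈ T, FiniteDimensional ℚ E := fun E hE => fd_of_le (hT E hE).2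
  obtain ⟨a₀, ha₀⟩ := layer_sb_index (k := k) hR₀
  obtain ⟨a', ha'⟩ := layer_sb_index (k := k) hR'
  have hKnor : (sb k K).Normal := sb_normal hab.2.1
  have hinj : ∀ E ∈ T, ∀ E' ∈ T, sb k E = sb k E' → E = E' := fun E hE E' hE' h =>
    sb_inj (hT E hE).1 (hT E' hE').1 h
  let cc : Subgroup k.fixingSubgroup → ℕ := fun H => c (fixedField (H.map k.fixingSubgroup.subtype))
  have hcc : ∀ E ∈ T, cc (sb k E) = c E := by
    intro E hE
    show c (fixedField ((sb k E).map k.fixingSubgroup.subtype)) = c E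
    unfold sb
    rw [Subgroup.subgroupOf_map_subtype, inf_eq_left.2 (fixingSubgroup_le (hT E hE).1),
      InfiniteGalois.fixedField_fixingSubgroup]
  rw [← rk_iff (hkK.trans le_sup_left), ← sb_inf] at hC₀ ⊢
  have hprod : ∏ E ∈ T.image (sb k), cc E ^ E.index = ∏ E ∈ T, c E ^ rdeg k E := by
    rw [Finset.prod_image fun E hE E' hE' h => hinj E hE E' hE' h]
    refine Finset.prod_congr rfl fun E hE => ?_
    have := hEf E hE
    rw [hcc E hE, index_sb (hT E hE).1]
  have hdegK : deg K = deg k * (sb k K).index := by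
    rw [index_sb hkK]
    have h3 := Subgroup.relIndex_mul_index (fixingSubgroup_le hkK)
    rw [← finrank_eq_fixingSubgroup_index Qb K, ← finrank_eq_fixingSubgroup_index Qb k,
      relIndex_fix hkK, mul_comm] at h3
    exact h3.symm
  rw [← hprod, hdegK]
  obtain ⟨𝒜, h𝒜⟩ := exists_fam (k := k) h1 hR'
  refine main' (I := lc p s k) lc_conj hKnor (layer_sb_normal hR₀) (layer_sb_normal hR')
    (sb_mono hRR) (sb_index_ne hkK) sb_open sb_open (not_dvd_rel hab hpK) ha₀ ha'
    (layer_sb_cyc hR') le_rfl (T.image (sb k)) ?_ (fun i => Sum.inl (𝒜 i)) ?_ ?_ hC₀ cc ?_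
  · intro E' hE'
    obtain ⟨E, hE, rfl⟩ := Finset.mem_image.1 hE'
    exact sb_mono (hT E hE).2
  · rintro (A | w)
    · by_cases hpA : (p : Qb) ∈ A.nonunits
      · right
        obtain ⟨i, g, hgk, hgR, hgA⟩ := h𝒜 A hpA
        exact ⟨i, ⟨g, hgk⟩, hgR, congrArg Sum.inl hgA⟩
      · left
        intro g hg
        have h4 : (g : Gal(Qb/ℚ)) ∈ locFin p s A := hg
        unfold locFin at h4
        rw [if_neg (fun h => hpA h.2)] at h4
        exact inertia_le_layer hp.out hR'.1 hpA h4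
    · left
      intro g hg
      exact stab_le_layer hR' w hg
  · intro S _ _ b hb hbE
    have hnt : Nontrivial S := hb.1
    obtain ⟨C, hC, hCb, hEn, hSp, g1, g2⟩ := exists_kernel h6 hab b hb
    have hnt' : (⊤ : Subgroup S) ≠ ⊥ := top_ne_bot
    have hCE : ∀ E ∈ T, ¬ C ≤ E := by
      intro E hE hle
      have h3 := hbE _ (Finset.mem_image_of_mem _ hE)
      rw [g1 _ (sb_mono hle)] at h3
      exact hnt' h3
    refine ⟨?_, fun _ => ?_⟩
    · obtain ⟨E, hE⟩ := hne
      rw [eq_bot_iff, ← hbE _ (Finset.mem_image_of_mem _ hE)]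
      exact fun v hv g _ => hv g trivial
    · rcases hcrit C hC hCE with ⟨t, ht, m, R, hR, hRR₀, hone⟩ |
        ⟨m₁, R₁, m, R, hR₁, hR, hR₁R, hRR₀, hdeg, htwo⟩
      · left
        exact ⟨t, mlt_of hR' b hEn g2 ht, sb k R, layer_sb_normal hR, sb_mono hRR₀,
          layer_sb_index hR, crt_of h6 hab hpK hR b hC hSp g1 g2 hone⟩
      · right
        have hfR₁ := layer_fd hp.out hR₁.1
        exact ⟨sb k R₁, sb k R, layer_sb_normal hR₁, layer_sb_normal hR, sb_open, sb_mono hRR₀,
          sb_mono hR₁R, layer_sb_index hR₁, layer_sb_index hR,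
          rm_of h2 hab hpK hR₁ hR' ((hR₁R.trans hRR₀).trans hRR) hdeg,
          cr2_of h6 hab hpK hR hR₁ b hC hSp g1 g2 htwo⟩
  · intro E' hE'
    obtain ⟨E, hE, rfl⟩ := Finset.mem_image.1 hE'
    have := hEf E hE
    rw [hcc E hE, sb_inf]
    exact (rk_iff ((hT E hE).1.trans le_sup_left) _).2 (hc E hE)

end

end Pool.Agent.J6H71.Mu
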