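import Pool.Agent.J6H71.Mu.Dif

/-!
# Comparison of two layers: the inequality
-/

set_option autoImplicit false

namespace Pool.Agent.J6H71.Mu

open Subgroup Pool.Agent.Q60.MU Pool.Agent.W5h77.MB Pool.Agent.W5h33.DF Pool.Agent.J6H14.DMu
open scoped commutatorElement

variable {𝔾 : Type} [Group 𝔾]

theorem dif_core [TopologicalSpace 𝔾] [ContinuousMul 𝔾] {p : ℕ} [hp : Fact p.Prime]
    {Ω : Type} [MulAction 𝔾 Ω] {I : Ω → Subgroup 𝔾}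
    (hI : ∀ (g : 𝔾) (w : Ω), ∀ x ∈ I w, g * x * g⁻¹ ∈ I (g • w))
    {K D₁ D D' : Subgroup 𝔾} (hKn : K.Normal) (hD₁n : D₁.Normal) (hDn : D.Normal)
    (hD'n : D'.Normal)
    (hDD : D' ≤ D) (hDD₁ : D ≤ D₁) (hK0 : K.index ≠ 0)
    (hKp : ¬ p ∣ K.relIndex ⊤) {m₁ m m' : ℕ} (hD₁i : D₁.index = p ^ m₁) (hDi : D.index = p ^ m)
    (hD'i : D'.index = p ^ m') (hσ : ∃ σ : 𝔾, ∀ τ, ∃ i : ℤ, τ * (σ ^ i)⁻¹ ∈ D') {γ : 𝔾} (hγK : γ ∈ K)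
    (hγ : ∀ τ ∈ K, ∃ i : ℤ, τ * (γ ^ i)⁻¹ ∈ D')
    -- the ramification
    (hram : ∀ A, I A ≤ D' ∨ ∃ w ∈ I A ⊓ (K ⊓ D₁), w * (γ ^ D₁.relIndex K)⁻¹ ∈ D')
    (hex : ∃ A, ∃ w ∈ I A ⊓ (K ⊓ D₁), w * (γ ^ D₁.relIndex K)⁻¹ ∈ D')
    -- the module
    {Q : Subgroup 𝔾} (hQ : Q ≤ K ⊓ D') (hQo : IsOpen (Q : Set 𝔾)) (hQf : Q.relIndex (K ⊓ D') ≠ 0)
    (hgQ : gens p I (K ⊓ D') ⊆ Q) {V : Type} [CommGroup V] [Finite V] (hV : ∀ v : V, v ^ p = 1)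
    (ρ : 𝔾 →* MulAut V) (θ : ↥(K ⊓ D') →* V) (hθ : Function.Surjective θ)
    (hθ1 : ∀ x, θ x = 1 ↔ (x : 𝔾) ∈ Q)
    (hθρ : ∀ (g : 𝔾) (x : ↥(K ⊓ D')) (h : g * x * g⁻¹ ∈ K ⊓ D'), ρ g (θ x) = θ ⟨g * x * g⁻¹, h⟩)
    (htriv : ∀ x ∈ K ⊓ D', ρ x = 1)
    -- the module of the lowest layer
    {R₁ : Subgroup 𝔾} (hgR₁ : gens p I (K ⊓ D₁) ⊆ R₁) (hQR₁ : Q ≤ R₁) {Y₁ : Type} [CommGroup Y₁]
    [Finite Y₁] (hY₁ : ∀ v : Y₁, v ^ p = 1) (σ₁ : 𝔾 →* MulAut Y₁) (ψ₁ : ↥(K ⊓ D₁) →* Y₁)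
    (hψ₁ : Function.Surjective ψ₁) (hψ₁1 : ∀ x, ψ₁ x = 1 ↔ (x : 𝔾) ∈ R₁)
    (hψ₁σ : ∀ (g : 𝔾) (x : ↥(K ⊓ D₁)) (h : g * x * g⁻¹ ∈ K ⊓ D₁), σ₁ g (ψ₁ x) = ψ₁ ⟨g * x * g⁻¹, h⟩)
    (hσ₁ : ∀ x ∈ K ⊓ D₁, σ₁ x = 1)
    -- the submodule
    {U : Subgroup V} (hU : ∀ g, ∀ v ∈ U, ρ g v ∈ U)
    (hT1 : ∀ T : Subgroup V, (∀ g, ∀ v ∈ T, ρ g v ∈ T) → U ≤ T → ∀ v,
      (∀ z ∈ D', ρ z v * v⁻¹ ∈ T) → v ∈ T)
    -- the simple module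
    {S : Type} [CommGroup S] [Finite S] (b : 𝔾 →* MulAut S) (hS : Simp p K b)
    {r s : ℕ} (P : Fin r → Subgroup 𝔾) (N : Fin s → Subgroup 𝔾) (C : Fin r → ℕ) (c : Fin s → ℕ)
    (hP : ∀ i, K ≤ P i ∧ ¬ p ∣ K.relIndex (P i) ∧ RankLe p I (P i ⊓ D) (C i))
    (hNc : ∀ j, K ≤ N j ∧ ¬ p ∣ K.relIndex (N j) ∧ ∀ C', RankLe p I (N j ⊓ D) C' → c j ≤ C')
    (hPN : ∀ (T : Type) [CommGroup T] [Finite T] (a : 𝔾 →* MulAut T), Simp p K a →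
      ∏ j, Nat.card (fx a (N j)) ≤ ∏ i, Nat.card (fx a (P i)))
    {n₀ : ℕ} (hn₀ : D.relIndex K ≤ n₀ + 1) {T₁ T₂ : Subgroup V}
    (h1 : ∀ g, ∀ v ∈ T₁, ρ g v ∈ T₁)
    (h2 : ∀ g, ∀ v ∈ T₂, ρ g v ∈ T₂) (hle : fil U (phi ρ γ) (n₀ + 1) ≤ T₂) (hlt : T₂ ≤ T₁)
    (hle' : T₁ ≤ fil U (phi ρ γ) n₀) (f : T₁ →* S) (hf : Function.Surjective f)
    (hf1 : ∀ v, f v = 1 ↔ (v : V) ∈ T₂)
    (hf2 : ∀ g (v : T₁) (hv : ρ g v ∈ T₁), f ⟨ρ g v, hv⟩ = b g (f v)) :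
    (∏ j, (c j : ℝ)) * (rat σ₁ D₁ P N (⊤ : Subgroup Y₁) *
      (cn b P / cn b N) ^ (D.relIndex K - D₁.relIndex K)) ≤ ∏ i, (C i : ℝ) := by
  classical
  have hcm := comm_mem_of hσ
  have hD0 : D.index ≠ 0 := by
    rw [hDi]
    exact (pow_pos hp.out.pos m).ne'
  have hD'0 : D'.index ≠ 0 := by
    rw [hD'i]
    exact (pow_pos hp.out.pos m').ne'
  obtain ⟨A₁, A₂, f₂, a1, a2, a3, a4, a5, a6, a7, a8⟩ :=
    enlarge hKn hD'n hKp hV ρ htriv b hS h1 h2 hle hlt hle' f hf hf1 hf2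
  have hRs : ∀ g, ∀ v ∈ rad D' ρ b, ρ g v ∈ rad D' ρ b := rad_stable hD'n ρ b
  obtain ⟨W₀, hW₀⟩ : ∃ W₀, W₀ = U ⊔ rad D' ρ b := ⟨_, rfl⟩
  rw [← hW₀] at a3 a5
  have hUW : U ≤ W₀ := by
    rw [hW₀]
    exact le_sup_left
  have hW' : ∀ g, ∀ v ∈ W₀, ρ g v ∈ W₀ := by
    intro g v hv
    rw [hW₀, mem_sup] at hv
    obtain ⟨u, hu, w, hw, rfl⟩ := hv
    rw [hW₀, map_mul]
    exact (U ⊔ rad D' ρ b).mul_mem (mem_sup_left (hU g u hu)) (mem_sup_right (hRs g w hw))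
  set φ := phi ρ γ with hφdef
  have hφc : ∀ (h : 𝔾) (v : V), ρ h (φ v) = φ (ρ h v) := phi_comm hKn hcm htriv hγK
  have hφci : ∀ (j : ℕ) (h : 𝔾) (v : V), ρ h (φ^[j] v) = φ^[j] (ρ h v) := by
    intro j
    induction j with
    | zero => intro h v; rfl
    | succ j ih =>
      intro h v
      rw [Function.iterate_succ_apply, Function.iterate_succ_apply, ih, hφc]
  have hWφ : ∀ u ∈ W₀, φ u ∈ W₀ := fun u hu => W₀.mul_mem (hW' γ u hu) (W₀.inv_mem hu)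
  -- the degrees
  obtain ⟨e₁, -, he₁⟩ : ∃ a ≤ m₁, D₁.relIndex K = p ^ a :=
    (Nat.dvd_prime_pow hp.out).1 (hD₁i ▸ relIndex_dvd_index_of_normal D₁ K)
  obtain ⟨e, -, he⟩ : ∃ a ≤ m, D.relIndex K = p ^ a :=
    (Nat.dvd_prime_pow hp.out).1 (hDi ▸ relIndex_dvd_index_of_normal D K)
  have hDK0 : D.relIndex K ≠ 0 := by
    rw [he]
    exact (pow_pos hp.out.pos e).ne'
  have hqq : D₁.relIndex K ≤ D.relIndex K := relIndex_le_of_le_left hDD₁ hDK0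
  have hee : e₁ ≤ e := by
    rw [he₁, he] at hqq
    exact (Nat.pow_le_pow_iff_right hp.out.one_lt).1 hqq
  set q₁ := D₁.relIndex K with hq₁
  set q := D.relIndex K with hq
  obtain ⟨a, ha⟩ : ∃ a, e = e₁ + a := ⟨e - e₁, by omega⟩
  have hqN : q = q₁ * p ^ a := by rw [he, he₁, ha, pow_add]
  set n := q - q₁ with hn
  have hnN : n = q₁ * (p ^ a - 1) := by rw [hn, hqN, Nat.mul_sub, mul_one]
  have hqn : q = n + q₁ := by omega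
  -- the map to the lowest layer
  have hKK₁ : K ⊓ D' ≤ K ⊓ D₁ := inf_le_inf_left K (hDD.trans hDD₁)
  have hKKD₁ : K ⊓ D ≤ K ⊓ D₁ := inf_le_inf_left K hDD₁
  have hKK : K ⊓ D' ≤ K ⊓ D := inf_le_inf_left K hDD
  have h𝒦n : (K ⊓ D).Normal := normal_inf_normal K D
  have h𝒦'n : (K ⊓ D').Normal := normal_inf_normal K D'
  have h𝒦₁n : (K ⊓ D₁).Normal := normal_inf_normal K D₁
  obtain ⟨κ, hκ⟩ : ∃ κ : V →* Y₁, ∀ x : ↥(K ⊓ D'), κ (θ x) = ψ₁ ⟨x, hKK₁ x.2⟩ := by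
    have hker : θ.ker ≤ (ψ₁.comp (inclusion hKK₁)).ker := by
      intro x hx
      show ψ₁ ⟨x, hKK₁ x.2⟩ = 1
      rw [hψ₁1]
      exact hQR₁ ((hθ1 x).1 hx)
    exact ⟨θ.liftOfSurjective hθ ⟨_, hker⟩, fun x =>
      MonoidHom.liftOfRightInverse_comp_apply θ _ _ ⟨_, hker⟩ x⟩
  have hκe : ∀ g v, κ (ρ g v) = σ₁ g (κ v) := by
    intro g v
    obtain ⟨x, rfl⟩ := hθ v
    rw [hθρ g x (h𝒦'n.conj_mem x x.2 g), hκ, hκ, hψ₁σ g ⟨x, hKK₁ x.2⟩ (h𝒦₁n.conj_mem x (hKK₁ x.2) g)]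
  -- powers of `γ` modulo `D'`
  have hmodD : ∀ x y : 𝔾, x * y⁻¹ ∈ D' ↔ (x : 𝔾 ⧸ D') = (y : 𝔾 ⧸ D') := by
    intro x y
    rw [← QuotientGroup.eq_one_iff, QuotientGroup.mk_mul, QuotientGroup.mk_inv, mul_inv_eq_one]
  have hψram : ∀ A, ∀ w, ∀ hw : w ∈ K ⊓ D₁, w ∈ I A → ψ₁ ⟨w, hw⟩ = 1 := by
    intro A w hw hwA
    rw [hψ₁1]
    exact hgR₁ (Or.inr ⟨hw, A, hwA⟩)
  obtain ⟨A₀, w₀, ⟨hw₀I, hw₀K⟩, hw₀γ⟩ := hex
  have hκs : Function.Surjective κ := by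
    intro y
    obtain ⟨⟨x, hx⟩, rfl⟩ := hψ₁ y
    obtain ⟨j, hj⟩ := mod_gamma (hDD.trans hDD₁) hγK hγ hx.1 hx.2
    rw [← hq₁] at hj
    have h3 : x * (w₀ ^ j)⁻¹ ∈ D' := by
      rw [hmodD] at hj hw₀γ ⊢
      rw [hj, QuotientGroup.mk_zpow, QuotientGroup.mk_zpow, hw₀γ]
    have h4 : x * (w₀ ^ j)⁻¹ ∈ K ⊓ D' :=
      ⟨K.mul_mem hx.1 (K.inv_mem (K.zpow_mem hw₀K.1 j)), h3⟩
    refine ⟨θ ⟨_, h4⟩, ?_⟩
    rw [hκ]
    have h5 : (⟨x, hx⟩ : ↥(K ⊓ D₁)) = ⟨x * (w₀ ^ j)⁻¹, hKK₁ h4⟩ * ⟨w₀, hw₀K⟩ ^ j := by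
      apply Subtype.ext
      show x = x * (w₀ ^ j)⁻¹ * w₀ ^ j
      rw [inv_mul_cancel_right]
    rw [h5, map_mul, map_zpow, hψram A₀ w₀ hw₀K hw₀I, one_zpow, mul_one]
  -- the kernel
  obtain ⟨K₁, hK₁⟩ : ∃ K₁ : Subgroup V, K₁ = κ.ker := ⟨_, rfl⟩
  have hmK₁ : ∀ v, v ∈ K₁ ↔ κ v = 1 := by
    intro v
    rw [hK₁]
    rfl
  have hK₁s : ∀ g, ∀ v ∈ K₁, ρ g v ∈ K₁ := by
    intro g v hv
    rw [hmK₁] at hv ⊢
    rw [hκe, hv, map_one]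
  have hK₁φ : ∀ v ∈ K₁, φ v ∈ K₁ := fun u hu => K₁.mul_mem (hK₁s γ u hu) (K₁.inv_mem hu)
  have hγq₁ : γ ^ q₁ ∈ K ⊓ D₁ := by
    refine ⟨K.pow_mem hγK _, ?_⟩
    exact (D₁.subgroupOf K).pow_index_mem (⟨γ, hγK⟩ : K)
  have hγq : γ ^ q ∈ K ⊓ D := by
    refine ⟨K.pow_mem hγK _, ?_⟩
    exact (D.subgroupOf K).pow_index_mem (⟨γ, hγK⟩ : K)
  have hKq₁ : ∀ v, φ^[q₁] v ∈ K₁ := by
    intro v
    rw [hmK₁, he₁, hφdef, phi_frob hV, ← he₁, map_mul, hκe, hσ₁ _ hγq₁, MulAut.one_apply, map_inv,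
      mul_inv_cancel]
  have hN : ∀ v, φ^[p ^ m'] v = 1 := by
    intro v
    have h1 : γ ^ p ^ m' ∈ K ⊓ D' := by
      refine ⟨K.pow_mem hγK _, ?_⟩
      rw [← hD'i]
      exact D'.pow_index_mem γ
    rw [hφdef, phi_frob hV, htriv _ h1, MulAut.one_apply, mul_inv_cancel]
  -- the filtration
  have hZs : ∀ (j : ℕ) (g : 𝔾), ∀ v ∈ zf W₀ K₁ φ j, ρ g v ∈ zf W₀ K₁ φ j := fun j g =>
    zf_stable (hW' g) (hK₁s g) (hφc g) j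
  have hZKD : ∀ x ∈ K ⊓ D, ∀ v, ρ x v * v⁻¹ ∈ zf W₀ K₁ φ n :=
    act_mem hDn hDD hγK hγ hV ρ htriv he (fun v => by
      rw [← he, hqn, Function.iterate_add_apply]
      exact mem_zf n (hKq₁ v))
  obtain ⟨X, iX, β, fX, F, hX1, hX2, hX3, hX4, hF1, hF2, hF3, hXfix, hunr⟩ :=
    lower0 (I := I) hKn hD'n hDD hcm hKp hgQ hV ρ θ hθ1 hθρ (hZs n) hZKD
      (hT1 _ (hZs n) (hUW.trans (le_zf n)))
  have hXp : ∀ x : X, x ^ p = 1 := by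
    intro s
    obtain ⟨v, rfl⟩ := hX1 s
    rw [← map_pow, hV, map_one]
  have hXfin : Finite X := Finite.of_surjective fX hX1
  -- the function on the lowest layer
  have hch : ∀ x : 𝔾, ∃ v : V, ∀ hx : x ∈ K ⊓ D₁, κ v = ψ₁ ⟨x, hx⟩ := by
    intro x
    by_cases hx : x ∈ K ⊓ D₁
    · obtain ⟨v, hv⟩ := hκs (ψ₁ ⟨x, hx⟩)
      exact ⟨v, fun _ => hv⟩
    · exact ⟨1, fun h => absurd h hx⟩
  choose vv hvv using hch
  have hwd : ∀ v v' : V, κ v = κ v' → fX (φ^[n] v) = fX (φ^[n] v') := by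
    intro v v' h
    have h3 : v * v'⁻¹ ∈ K₁ := by
      rw [hmK₁, map_mul, map_inv, h, mul_inv_cancel]
    have h4 := mem_zf (W := W₀) (φ := φ) n h3
    rw [← hX2, iterate_map_mul, iterate_map_inv, map_mul, map_inv, mul_inv_eq_one] at h4
    exact h4
  have hphi : ∀ (l : ℕ) (v : V), (phi β (γ ^ q₁))^[l] (fX v) = fX (φ^[q₁ * l] v) := by
    intro l
    induction l with
    | zero => intro v; rfl
    | succ l ih =>
      intro v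
      have h3 : phi β (γ ^ q₁) (fX v) = fX (φ^[q₁] v) := by
        rw [phi_apply, ← hX3, ← map_inv, ← map_mul, he₁, hφdef, phi_frob hV]
      rw [Function.iterate_succ_apply, h3, ih, ← Function.iterate_add_apply, Nat.mul_succ]
  have hpow : ∀ x ∈ K ⊓ D₁, x * (γ ^ q₁)⁻¹ ∈ D' → x ^ p ^ a ∈ D := by
    intro x hx hxγ
    have h3 : x ^ p ^ a * (γ ^ q)⁻¹ ∈ D' := by
      rw [hmodD] at hxγ ⊢
      rw [QuotientGroup.mk_pow, hxγ, ← QuotientGroup.mk_pow, ← pow_mul, ← hqN]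
    have h4 : x ^ p ^ a = (x ^ p ^ a * (γ ^ q)⁻¹) * γ ^ q := by rw [inv_mul_cancel_right]
    rw [h4]
    exact D.mul_mem (hDD h3) hγq.2
  have hpv := power_value (D₁ := D₁) hKn hD'n hDD hcm hXp β (fun x hx => hX4 x (hKK hx)) hXfix hF1 hF3
    (γ₁ := γ ^ q₁) hγq₁.1 (a := a) hpow (F₁ := fun x => fX (φ^[n] (vv x)))
    (by
      intro v hv x hx
      show fX (φ^[n] (vv (v * x))) = _
      rw [hF2 v hv, hphi, ← hnN]
      show _ = fX (φ^[n] (θ ⟨v, hv⟩)) * fX (φ^[n] (vv x))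
      rw [← map_mul, ← iterate_map_mul]
      apply hwd
      have hvx : v * x ∈ K ⊓ D₁ := mul_mem (hKK₁ hv) hx
      rw [hvv (v * x) hvx, map_mul, hκ, hvv x hx, ← map_mul]
      rfl)
    (by
      intro g x hx
      show fX (φ^[n] (vv (g * x * g⁻¹))) = β g (fX (φ^[n] (vv x)))
      rw [← hX3, hφci]
      apply hwd
      rw [hvv _ (h𝒦₁n.conj_mem x hx g), hκe, hvv x hx, hψ₁σ g ⟨x, hx⟩ (h𝒦₁n.conj_mem x hx g)])
  have hpv' : ∀ A, ∀ w ∈ K ⊓ D₁, w ∈ I A → w * (γ ^ q₁)⁻¹ ∈ D' → F (w ^ p ^ a) = 1 := by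
    intro A w hw hwA hwγ
    rw [hpv w hw hwγ]
    show fX (φ^[n] (vv w)) = 1
    rw [hwd (vv w) 1 (by rw [hvv w hw, hψram A w hw hwA, map_one]), iterate_map_one, map_one]
  have hF5 : F 1 = 1 := by
    have h1 := hF1 1 (one_mem _) 1 (one_mem _)
    rw [mul_one] at h1
    exact mul_eq_left.1 h1.symm
  let Φ : ↥(K ⊓ D) →* X :=
    { toFun := fun x => F x
      map_one' := hF5
      map_mul' := fun x y => hF1 x x.2 y y.2 }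
  -- the powers of ramified elements
  have hdecomp : ∀ w ∈ K ⊓ D₁, w * (γ ^ q₁)⁻¹ ∈ D' → w ^ p ^ a ∈ K ⊓ D ∧
      ∀ x ∈ K ⊓ D, ∃ j : ℤ, x * ((w ^ p ^ a) ^ j)⁻¹ ∈ K ⊓ D' := by
    intro w hw hwγ
    refine ⟨⟨K.pow_mem hw.1 _, hpow w hw hwγ⟩, fun x hx => ?_⟩
    obtain ⟨j, hj⟩ := mod_gamma hDD hγK hγ hx.1 hx.2
    rw [← hq] at hj
    refine ⟨j, Subgroup.mem_inf.2
      ⟨K.mul_mem hx.1 (K.inv_mem (K.zpow_mem (K.pow_mem hw.1 _) j)), ?_⟩⟩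
    rw [hmodD] at hj hwγ ⊢
    rw [hj, QuotientGroup.mk_zpow, QuotientGroup.mk_zpow, QuotientGroup.mk_pow, QuotientGroup.mk_pow,
      hwγ, hqN, QuotientGroup.mk_pow, pow_mul]
  have hF4 : ∀ A, ∀ x ∈ K ⊓ D, x ∈ I A → F x = 1 := by
    intro A x hx hxA
    rcases hram A with h | ⟨w, ⟨hwA, hwK⟩, hwγ⟩
    · exact hunr A x ⟨hx.1, h hxA⟩ hxA
    · obtain ⟨hwD, hdec⟩ := hdecomp w hwK hwγ
      obtain ⟨j, hj⟩ := hdec x hx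
      have h3 : x * ((w ^ p ^ a) ^ j)⁻¹ ∈ I A :=
        (I A).mul_mem hxA ((I A).inv_mem ((I A).zpow_mem ((I A).pow_mem hwA _) j))
      have h4 : x = (x * ((w ^ p ^ a) ^ j)⁻¹) * (w ^ p ^ a) ^ j := by rw [inv_mul_cancel_right]
      have h5 : F ((w ^ p ^ a) ^ j) = F (w ^ p ^ a) ^ j := map_zpow Φ ⟨w ^ p ^ a, hwD⟩ j
      rw [h4, hF1 _ (hKK hj) _ ((K ⊓ D).zpow_mem hwD j), h5, hpv' A w hwK hwA hwγ, one_zpow,
        mul_one, hunr A _ hj h3]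
  -- the quotient by `K₁ ∩ Z n`
  let Bn : ℕ → Subgroup V := fun j => K₁ ⊓ zf W₀ K₁ φ j
  have hBs : ∀ (j : ℕ) (g : 𝔾), ∀ v ∈ Bn j, ρ g v ∈ Bn j := fun j g v hv =>
    ⟨hK₁s g v hv.1, hZs j g v hv.2⟩
  obtain ⟨Xs, iXs, βs, fs₁, hs1, hs2, hs3⟩ := exists_quo ρ (T := ⊤) (T' := Bn n)
    (fun _ _ _ => mem_top _) (hBs n)
  let fs : V →* Xs := fs₁.comp topEquiv.symm.toMonoidHom
  have hsker : ∀ v, fs v = 1 ↔ v ∈ Bn n := fun v => hs2 ⟨v, mem_top v⟩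
  have hse : ∀ d v, fs (ρ d v) = βs d (fs v) := fun d v => hs3 d ⟨v, mem_top v⟩ (mem_top _)
  have hssurj : Function.Surjective fs := by
    intro s
    obtain ⟨⟨v, hv⟩, hfv⟩ := hs1 s
    exact ⟨v, hfv⟩
  have hXsp : ∀ x : Xs, x ^ p = 1 := by
    intro s
    obtain ⟨v, rfl⟩ := hssurj s
    rw [← map_pow, hV, map_one]
  have hXsfin : Finite Xs := Finite.of_surjective fs hssurj
  have hXs4 : ∀ x ∈ K ⊓ D, βs x = 1 := by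
    intro x hx
    ext s
    obtain ⟨v, rfl⟩ := hssurj s
    rw [MulAut.one_apply, ← hse, ← mul_inv_eq_one, ← map_inv, ← map_mul, hsker]
    refine Subgroup.mem_inf.2 ⟨?_, hZKD x hx v⟩
    rw [hmK₁, map_mul, map_inv, hκe, hσ₁ x (hKKD₁ hx), MulAut.one_apply, mul_inv_cancel]
  -- the lower bounds
  have hM : ∀ j, ∃ M : Subgroup 𝔾, M ≤ N j ⊓ D ∧ IsOpen (M : Set 𝔾) ∧ M.relIndex (N j ⊓ D) ≠ 0 ∧
      gens p I (N j ⊓ D) ⊆ M ∧ c j ≤ M.relIndex (N j ⊓ D) := by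
    intro j
    by_contra hcon2
    rcases Nat.eq_zero_or_pos (c j) with h0 | h0
    · refine hcon2 ⟨N j ⊓ D, le_rfl, Subgroup.isOpen_mono ?_ hQo, ?_, gens_subset, ?_⟩
      · exact hQ.trans (inf_le_inf (hNc j).1 hDD)
      · rw [relIndex_self]
        exact one_ne_zero
      · rw [h0]
        exact Nat.zero_le _
    · have h1 : RankLe p I (N j ⊓ D) (c j - 1) := by
        intro M h1 h2 h3 h4
        by_contra h5
        exact hcon2 ⟨M, h1, h2, h3, h4, by omega⟩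
      have h2 := (hNc j).2.2 _ h1
      omega
  choose M hM1 hM2 hM3 hM4 hM5 using hM
  have hgM : ∀ j, gens p I (K ⊓ D) ⊆ M j := fun j =>
    (gens_mono (inf_le_inf_right D (hNc j).1)).trans (hM4 j)
  let W : Subgroup 𝔾 :=
    { carrier := {x | x ∈ (K ⊓ D) ∧ (F x = 1 ∧ x ∈ R₁) ∧ ∀ j, x ∈ M j}
      mul_mem' := by
        rintro x y ⟨hx1, hx2, hx3⟩ ⟨hy1, hy2, hy3⟩
        refine ⟨mul_mem hx1 hy1, ⟨?_, mul_mem hx2.2 hy2.2⟩, fun j => mul_mem (hx3 j) (hy3 j)⟩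
        rw [hF1 x hx1 y hy1, hx2.1, hy2.1, mul_one]
      one_mem' := ⟨one_mem _, ⟨hF5, one_mem _⟩, fun j => one_mem _⟩
      inv_mem' := by
        rintro x ⟨hx1, hx2, hx3⟩
        refine ⟨inv_mem hx1, ⟨?_, inv_mem hx2.2⟩, fun j => inv_mem (hx3 j)⟩
        have h1 := hF1 x⁻¹ (inv_mem hx1) x hx1
        rw [inv_mul_cancel, hF5, hx2.1, mul_one] at h1
        exact h1.symm }
  have hQW : Q ⊓ ⨅ j, M j ≤ W := by
    rintro x ⟨hxQ, hxM⟩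
    refine ⟨hKK (hQ hxQ), ⟨?_, hQR₁ hxQ⟩, fun j => ?_⟩
    · rw [hF2 x (hQ hxQ), (hθ1 ⟨x, hQ hxQ⟩).2 hxQ, map_one]
    · exact (mem_iInf.1 hxM) j
  have hW0 : W.index ≠ 0 := by
    have h1 : (Q ⊓ ⨅ j, M j).index ≠ 0 := by
      refine index_inf_ne_zero ?_ (index_iInf_ne_zero fun j => ?_)
      · rw [← relIndex_mul_index hQ]
        exact mul_ne_zero hQf (index_inf_ne_zero hK0 hD'0)
      · rw [← relIndex_mul_index (hM1 j)]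
        refine mul_ne_zero (hM3 j) (index_inf_ne_zero ?_ hD0)
        intro h
        have h2 := index_dvd_of_le (hNc j).1
        rw [h] at h2
        exact hK0 (Nat.eq_zero_of_zero_dvd h2)
    intro h
    have h2 := index_dvd_of_le hQW
    rw [h] at h2
    exact h1 (Nat.eq_zero_of_zero_dvd h2)
  have hWo : IsOpen (W : Set 𝔾) := by
    refine Subgroup.isOpen_mono hQW ?_
    rw [coe_inf, coe_iInf]
    exact hQo.inter (isOpen_iInter_of_finite fun j => hM2 j)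
  have hWK : W ≤ (K ⊓ D) := fun x hx => hx.1
  have hWf : W.relIndex (K ⊓ D) ≠ 0 := by
    intro h
    have h1 := relIndex_mul_index hWK
    rw [h, zero_mul] at h1
    exact hW0 h1.symm
  have hWg : gens p I (K ⊓ D) ⊆ W := by
    intro x hx
    refine ⟨gens_subset hx, ⟨?_, hgR₁ (gens_mono hKKD₁ hx)⟩, fun j => hgM j hx⟩
    rcases hx with (⟨a, ha, rfl⟩ | ⟨a, ha, a', ha', rfl⟩) | ⟨hx, A, hA⟩
    · have h1 := map_pow Φ ⟨a, ha⟩ p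
      rw [hXp] at h1
      exact h1
    · have h1 := map_commutatorElement Φ ⟨a, ha⟩ ⟨a', ha'⟩
      rw [commutatorElement_eq_one_iff_mul_comm.2 (mul_comm (Φ ⟨a, ha⟩) (Φ ⟨a', ha'⟩))] at h1
      exact h1
    · exact hF4 A x hx hA
  obtain ⟨R, hRW, hRo, hRf, hgR, hRn⟩ := exists_core hI (K := (K ⊓ D)) (D := ⊤)
    (fun d _ x hx => h𝒦n.conj_mem x hx d)
    (by
      rw [relIndex_top_right]
      exact index_inf_ne_zero hK0 hD0) hWK hWo hWf hWg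
  have hRK := hRW.trans hWK
  have hRnorm : R.Normal := ⟨fun x hx g => hRn g trivial x hx⟩
  obtain ⟨Y, iY, σ, ψ, hYfin, hY, hψ, hψ1, hψσ, hσtriv, -, hup, hlow⟩ :=
    exists_module (I := I) hKn hDn hRnorm hRK hRo hRf hgR
  -- the two homomorphisms on the lower layer
  obtain ⟨g, hg⟩ : ∃ g : Y →* X, ∀ x : ↥(K ⊓ D), g (ψ x) = F x := by
    have hker : ψ.ker ≤ Φ.ker := by
      intro x hx
      have h1 : (x : 𝔾) ∈ R := (hψ1 x).1 hx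
      exact (hRW h1).2.1.1
    exact ⟨ψ.liftOfSurjective hψ ⟨Φ, hker⟩, fun x =>
      MonoidHom.liftOfRightInverse_comp_apply ψ _ _ ⟨Φ, hker⟩ x⟩
  obtain ⟨h, hh⟩ : ∃ h : Y →* Y₁, ∀ x : ↥(K ⊓ D), h (ψ x) = ψ₁ ⟨x, hKKD₁ x.2⟩ := by
    have hker : ψ.ker ≤ (ψ₁.comp (inclusion hKKD₁)).ker := by
      intro x hx
      show ψ₁ ⟨x, hKKD₁ x.2⟩ = 1
      rw [hψ₁1]
      exact (hRW ((hψ1 x).1 hx)).2.1.2
    exact ⟨ψ.liftOfSurjective hψ ⟨_, hker⟩, fun x =>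
      MonoidHom.liftOfRightInverse_comp_apply ψ _ _ ⟨_, hker⟩ x⟩
  have hge : ∀ d u, g (σ d u) = β d (g u) := by
    intro d u
    obtain ⟨x, rfl⟩ := hψ u
    rw [hψσ d x (h𝒦n.conj_mem x x.2 d), hg, hg]
    exact hF3 d x x.2
  have hhe : ∀ d u, h (σ d u) = σ₁ d (h u) := by
    intro d u
    obtain ⟨x, rfl⟩ := hψ u
    rw [hψσ d x (h𝒦n.conj_mem x x.2 d), hh, hh,
      hψ₁σ d ⟨x, hKKD₁ x.2⟩ (h𝒦₁n.conj_mem x (hKKD₁ x.2) d)]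
  have hchoose : ∀ y : Y, ∃ v : V, fX v = g y ∧ κ v = h y := by
    intro y
    obtain ⟨x, rfl⟩ := hψ y
    obtain ⟨hwD, hdec⟩ := hdecomp w₀ hw₀K hw₀γ
    obtain ⟨j, hj⟩ := hdec x x.2
    have h4 : (x : 𝔾) = (x * ((w₀ ^ p ^ a) ^ j)⁻¹) * (w₀ ^ p ^ a) ^ j := by rw [inv_mul_cancel_right]
    have h5 : F ((w₀ ^ p ^ a) ^ j) = F (w₀ ^ p ^ a) ^ j := map_zpow Φ ⟨w₀ ^ p ^ a, hwD⟩ j
    have hwI : w₀ ^ p ^ a ∈ I A₀ := (I A₀).pow_mem hw₀I _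
    refine ⟨θ ⟨_, hj⟩, ?_, ?_⟩
    · rw [hg]
      conv_rhs => rw [h4]
      rw [hF1 _ (hKK hj) _ ((K ⊓ D).zpow_mem hwD j), h5, hF4 A₀ _ hwD hwI, one_zpow, mul_one,
        hF2 _ hj]
    · rw [hh, hκ]
      have h6 : (⟨x, hKKD₁ x.2⟩ : ↥(K ⊓ D₁)) = ⟨x * ((w₀ ^ p ^ a) ^ j)⁻¹, hKK₁ hj⟩ *
          ⟨w₀ ^ p ^ a, hKKD₁ hwD⟩ ^ j := Subtype.ext h4
      rw [h6, map_mul, map_zpow, hψram A₀ _ (hKKD₁ hwD) hwI, one_zpow, mul_one]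
  choose vy hvy1 hvy2 using hchoose
  have hvyu : ∀ y v, fX v = g y → κ v = h y → fs (vy y) = fs v := by
    intro y v hv1 hv2
    rw [← mul_inv_eq_one, ← map_inv, ← map_mul, hsker]
    refine Subgroup.mem_inf.2 ⟨?_, ?_⟩
    · rw [hmK₁, map_mul, map_inv, hvy2, hv2, mul_inv_cancel]
    · rw [← hX2, map_mul, map_inv, hvy1, hv1, mul_inv_cancel]
  let E : Y →* Xs :=
    { toFun := fun y => fs (vy y)
      map_one' := by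
        rw [hvyu 1 1 (by rw [map_one, map_one]) (by rw [map_one, map_one]), map_one]
      map_mul' := by
        intro y y'
        rw [hvyu (y * y') (vy y * vy y') (by rw [map_mul, map_mul, hvy1, hvy1])
          (by rw [map_mul, map_mul, hvy2, hvy2]), map_mul] }
  have hEe : ∀ d u, E (σ d u) = βs d (E u) := by
    intro d u
    show fs (vy (σ d u)) = βs d (fs (vy u))
    rw [← hse]
    exact hvyu _ _ (by rw [hX3, hge, hvy1]) (by rw [hκe, hhe, hvy2])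
  have hEs : Function.Surjective E := by
    intro s
    obtain ⟨v, rfl⟩ := hssurj s
    obtain ⟨x, rfl⟩ := hθ v
    refine ⟨ψ ⟨x, hKK x.2⟩, ?_⟩
    exact hvyu _ _ (by rw [hg, hF2 x x.2]) (by rw [hh, hκ])
  -- the comparison
  have hPg : Good p K P := fun i => (hP i).2.1
  have hNg : Good p K N := fun j => (hNc j).2.1
  have hPN' : ∀ (S : Type) [CommGroup S] [Finite S] (b : 𝔾 →* MulAut S), Simp p K b →
      cn b N ≤ cn b P := by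
    intro S _ _ b hb
    have h1 := hPN S b hb
    unfold cn
    exact_mod_cast h1
  have hr1 : 1 ≤ cn b P / cn b N := (one_le_div (cn_pos b N)).2 (hPN' S b hS)
  have hr0 : 0 < cn b P / cn b N := lt_of_lt_of_le one_pos hr1
  -- the chain in `K₁`
  have hchain : ∀ j < n, ∃ (T₁ T₂ : Subgroup V) (f : T₁ →* S), (∀ g, ∀ v ∈ T₁, ρ g v ∈ T₁) ∧
      (∀ g, ∀ v ∈ T₂, ρ g v ∈ T₂) ∧ Bn (j + 1) ≤ T₂ ∧ T₂ ≤ T₁ ∧ T₁ ≤ Bn j ∧
      Function.Surjective f ∧ (∀ v, f v = 1 ↔ (v : V) ∈ T₂) ∧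
      ∀ g (v : T₁) (hv : ρ g v ∈ T₁), f ⟨ρ g v, hv⟩ = b g (f v) := by
    intro j hj
    have hn0 : 0 < n := by omega
    obtain ⟨T₁, T₂, f, t1, t2, t3, t4, t5, t6, t7, t8⟩ := zf_chain ρ b hS hφc hW' hK₁s hWφ hK₁φ hKq₁ hN
      (n := n) (n₀ := n₀) (by omega) hn0 a1 ((le_fil W₀ φ (n₀ + 1)).trans a3) a5 f₂ a6 a7 a8 j hj
    refine ⟨K₁ ⊓ T₁, K₁ ⊓ T₂, f.comp (inclusion inf_le_right), ?_, ?_, inf_le_inf_left _ t3,
      inf_le_inf_left _ t4, inf_le_inf_left _ t5, ?_, ?_, ?_⟩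
    · exact fun g v hv => ⟨hK₁s g v hv.1, t1 g v hv.2⟩
    · exact fun g v hv => ⟨hK₁s g v hv.1, t2 g v hv.2⟩
    · intro s
      obtain ⟨x, rfl⟩ := t6 s
      obtain ⟨u, hu, y, hy, hxy⟩ := zf_elem hWφ j x (t5 x.2)
      have hu2 : u ∈ T₂ := t3 (le_zf (j + 1) hu)
      have hyK : φ^[j] y ∈ K₁ := by
        rw [hmK₁] at hy ⊢
        clear hxy hu hu2
        have h9 : ∀ l, φ^[l] y ∈ K₁ := by
          intro l
          induction l with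
          | zero =>
            rw [hmK₁]
            exact hy
          | succ l ih =>
            rw [Function.iterate_succ_apply']
            exact hK₁φ _ ih
        rw [← hmK₁]
        exact h9 j
      have hyT : φ^[j] y ∈ T₁ := by
        have h9 : φ^[j] y = u⁻¹ * x := by rw [hxy, inv_mul_cancel_left]
        rw [h9]
        exact T₁.mul_mem (T₁.inv_mem (t4 hu2)) x.2
      refine ⟨⟨φ^[j] y, hyK, hyT⟩, ?_⟩
      show f ⟨φ^[j] y, hyT⟩ = f x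
      have h9 : x = ⟨u, t4 hu2⟩ * ⟨φ^[j] y, hyT⟩ := Subtype.ext hxy
      rw [h9, map_mul, (t7 ⟨u, t4 hu2⟩).2 hu2, one_mul]
    · intro v
      show f (inclusion inf_le_right v) = 1 ↔ _
      rw [t7]
      exact ⟨fun h => ⟨v.2.1, h⟩, fun h => h.2⟩
    · intro g v hv
      exact t8 g (inclusion inf_le_right v) hv.2
  have e2 := rat_chain hp.out hKn hD'n hD'i hV ρ htriv P hPg N hNg hPN' b hS.2.2.1 hS.2.1 Bn hBs n
    hchain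
  have hB0 : Bn 0 = K₁ := inf_eq_left.2 le_sup_right
  rw [hB0] at e2
  have e1 := rat_mul (D' := D') hp.out hKn ρ htriv βs hXsp (T := ⊤) (T' := Bn n)
    (fun _ _ _ => mem_top _) le_top (fs.comp (⊤ : Subgroup V).subtype)
    (fun s => by
      obtain ⟨v, hv⟩ := hssurj s
      exact ⟨⟨v, mem_top v⟩, hv⟩) (fun v => hsker v) (fun g v _ => hse g v) P hPg N hNg
  have e1' := rat_mul (D' := D') hp.out hKn ρ htriv σ₁ hY₁ (T := ⊤) (T' := K₁)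
    (fun _ _ _ => mem_top _) le_top (κ.comp (⊤ : Subgroup V).subtype)
    (fun s => by
      obtain ⟨v, hv⟩ := hκs s
      exact ⟨⟨v, mem_top v⟩, hv⟩) (fun v => (hmK₁ v).symm) (fun g v _ => hκe g v) P hPg N hNg
  have e3 := rat_mul (D' := D) hp.out hKn σ hσtriv βs hXsp (T := ⊤) (T' := E.ker)
    (fun _ _ _ => mem_top _) le_top (E.comp (⊤ : Subgroup Y).subtype)
    (fun s => by
      obtain ⟨v, hv⟩ := hEs s
      exact ⟨⟨v, mem_top v⟩, hv⟩) (fun v => Iff.rfl) (fun d v _ => hEe d v) P hPg N hNg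
  have e4 := rat_mono hp.out hKn hDn hDi hY σ hσtriv P hPg N hNg hPN' E.ker ⊥
    (fun d v hv => by
      rw [MonoidHom.mem_ker] at hv ⊢
      rw [hEe, hv, map_one])
    (fun d v hv => by
      rw [mem_bot] at hv ⊢
      rw [hv, map_one]) bot_le
  have e5 : rat σ D P N (⊥ : Subgroup Y) = 1 := by
    unfold rat
    rw [cnt_bot, cnt_bot, div_one]
  rw [e5] at e4
  have e6 : ∀ {r : ℕ} (P : Fin r → Subgroup 𝔾), Good p K P →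
      cn βs (fun i => P i ⊓ D') = cn βs (fun i => P i ⊓ D) := by
    intro r P hP
    refine Finset.prod_congr rfl fun i _ => ?_
    rw [fx_layer hp.out hKn hD'n hD'i hDD hXs4 (hP i)]
  have e6' : ∀ {r : ℕ} (P : Fin r → Subgroup 𝔾), Good p K P →
      cn σ₁ (fun i => P i ⊓ D') = cn σ₁ (fun i => P i ⊓ D₁) := by
    intro r P hP
    refine Finset.prod_congr rfl fun i _ => ?_
    rw [fx_layer hp.out hKn hD'n hD'i (hDD.trans hDD₁) hσ₁ (hP i)]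
  rw [e6 P hPg, e6 N hNg] at e1
  rw [e6' P hPg, e6' N hNg] at e1'
  have e7 : rat σ₁ D₁ P N (⊤ : Subgroup Y₁) = cn σ₁ (fun i => P i ⊓ D₁) / cn σ₁ (fun j => N j ⊓ D₁) := by
    unfold rat
    rw [cnt_top, cnt_top]
  rw [← e7] at e1'
  have hβ : 0 < cn βs (fun i => P i ⊓ D) / cn βs (fun j => N j ⊓ D) :=
    div_pos (cn_pos _ _) (cn_pos _ _)
  have hrB := rat_pos (D' := D') ρ P N (Bn n)
  have hrK := rat_pos (D' := D') ρ P N K₁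
  have e8 : rat σ₁ D₁ P N (⊤ : Subgroup Y₁) * (cn b P / cn b N) ^ n ≤
      rat σ D P N (⊤ : Subgroup Y) := by
    have e9 : rat σ₁ D₁ P N (⊤ : Subgroup Y₁) * (cn b P / cn b N) ^ n ≤
        cn βs (fun i => P i ⊓ D) / cn βs (fun j => N j ⊓ D) := by
      have h3 : rat ρ D' P N K₁ * rat σ₁ D₁ P N (⊤ : Subgroup Y₁) =
          rat ρ D' P N (Bn n) * (cn βs (fun i => P i ⊓ D) / cn βs (fun j => N j ⊓ D)) := by
        rw [← e1, ← e1']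
      have h4 : rat ρ D' P N (Bn n) * (rat σ₁ D₁ P N (⊤ : Subgroup Y₁) * (cn b P / cn b N) ^ n) ≤
          rat ρ D' P N (Bn n) * (cn βs (fun i => P i ⊓ D) / cn βs (fun j => N j ⊓ D)) := by
        rw [← h3]
        have h5 : 0 ≤ rat σ₁ D₁ P N (⊤ : Subgroup Y₁) := (rat_pos σ₁ P N ⊤).le
        calc rat ρ D' P N (Bn n) * (rat σ₁ D₁ P N (⊤ : Subgroup Y₁) * (cn b P / cn b N) ^ n)
            = (rat ρ D' P N (Bn n) * (cn b P / cn b N) ^ n) * rat σ₁ D₁ P N (⊤ : Subgroup Y₁) := by ring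
          _ ≤ _ := mul_le_mul_of_nonneg_right e2 h5
      exact le_of_mul_le_mul_left h4 hrB
    rw [e3]
    calc rat σ₁ D₁ P N (⊤ : Subgroup Y₁) * (cn b P / cn b N) ^ n
        ≤ cn βs (fun i => P i ⊓ D) / cn βs (fun j => N j ⊓ D) := e9
      _ = 1 * (cn βs (fun i => P i ⊓ D) / cn βs (fun j => N j ⊓ D)) := (one_mul _).symm
      _ ≤ _ := mul_le_mul_of_nonneg_right e4 hβ.le
  have e9 : cnt σ D P (⊤ : Subgroup Y) ≤ ∏ i, (C i : ℝ) := by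
    rw [cnt_top]
    refine Finset.prod_le_prod (fun i _ => Nat.cast_nonneg _) fun i _ => ?_
    exact_mod_cast hup (P i) (hP i).1 (hP i).2.1 (C i) (hP i).2.2
  have e10 : ∏ j, (c j : ℝ) ≤ cnt σ D N (⊤ : Subgroup Y) := by
    rw [cnt_top]
    refine Finset.prod_le_prod (fun i _ => Nat.cast_nonneg _) fun j _ => ?_
    exact_mod_cast (hM5 j).trans (hlow (N j) (hNc j).1 (hNc j).2.1 (M j) (hM1 j) (hM3 j) (hM4 j)
      fun x hx => (hRW hx).2.2 j)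
  have h4 : cnt σ D P (⊤ : Subgroup Y) =
      rat σ D P N (⊤ : Subgroup Y) * cnt σ D N (⊤ : Subgroup Y) := by
    unfold rat
    rw [div_mul_cancel₀ _ (cnt_pos σ N (⊤ : Subgroup Y)).ne']
  have h5 : 0 ≤ rat σ₁ D₁ P N (⊤ : Subgroup Y₁) * (cn b P / cn b N) ^ n :=
    mul_nonneg (rat_pos σ₁ P N ⊤).le (pow_pos hr0 n).le
  have h6 : 0 ≤ cnt σ D N (⊤ : Subgroup Y) := (cnt_pos σ N (⊤ : Subgroup Y)).le
  calc (∏ j, (c j : ℝ)) * (rat σ₁ D₁ P N (⊤ : Subgroup Y₁) * (cn b P / cn b N) ^ n)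
      ≤ cnt σ D N (⊤ : Subgroup Y) * rat σ D P N (⊤ : Subgroup Y) := mul_le_mul e10 e8 h5 h6
    _ = cnt σ D P (⊤ : Subgroup Y) := by rw [h4, mul_comm]
    _ ≤ _ := e9

end Pool.Agent.J6H71.Mu
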