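import Pool.Agent.J6H71.Mu.Abl
import Pool.Agent.J6H52.MuS.Iwa
import Pool.Agent.J6H94.MuS.Iner
import Pool.Agent.J6H40.MuS.OneP

set_option autoImplicit false

namespace Pool.Agent.J6H71.Mu

open IntermediateField Module Pool.Agent.Q60.MU Pool.Agent.W5h77.MB Pool.Agent.W5h33.DF
  Pool.Agent.J6H14.DMu Pool.Agent.J6H71.MuS NumberField
open scoped Pointwise commutatorElement ComplexConjugate

section
variable {p : ℕ} [hp : Fact p.Prime] {s : Bool} {k K K₀ : Fl} [FiniteDimensional ℚ K]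

theorem rdeg_mul {E F G : Fl} [FiniteDimensional ℚ G] (h1 : E ≤ F) (h2 : F ≤ G) :
    rdeg E G = rdeg F G * rdeg E F := by
  have hfF : FiniteDimensional ℚ F := fd_of_le h2
  rw [← relIndex_fix h1, ← relIndex_fix h2, ← relIndex_fix (h1.trans h2)]
  exact (Subgroup.relIndex_mul_relIndex _ _ _ (fixingSubgroup_le h2) (fixingSubgroup_le h1)).symm

omit hp in
theorem sub_normal (hab : IsAbelianOver k K) {C : Fl} (hkC : k ≤ C) (hCK : C ≤ K) :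
    ∀ σ ∈ gal k, ∀ x ∈ C, im σ x ∈ C := by
  intro σ hσ x hx
  have h6 : im σ x ∈ fixedField C.fixingSubgroup := by
    rw [mem_fixedField_iff]
    intro g hg
    have hgk : g ∈ k.fixingSubgroup := fixingSubgroup_le hkC hg
    have h7 := hab.2.2 g hgk σ hσ x (hCK hx)
    show g (σ x) = σ x
    rw [show g (σ x) = im g (im σ x) from rfl, h7]
    show σ (g x) = σ x
    rw [(IntermediateField.mem_fixingSubgroup_iff _ _).1 hg x hx]
  rwa [InfiniteGalois.fixedField_fixingSubgroup] at h6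

omit hp in
theorem abelian_sub (hab : IsAbelianOver k K) {C : Fl} (hkC : k ≤ C) (hCK : C ≤ K) :
    IsAbelianOver k C :=
  ⟨hkC, sub_normal hab hkC hCK, fun σ hσ τ hτ x hx => hab.2.2 σ hσ τ hτ x (hCK hx)⟩

theorem cyclicIn_iff (hK₀K : K₀ ≤ K)
    (hmax : ∀ C : Fl, k ≤ C → C ≤ K → ¬ p ∣ rdeg k C → C ≤ K₀) {C : Fl} :
    CyclicIn p k K₀ C ↔ CyclicIn p k K C :=
  ⟨fun h => ⟨h.1, h.2.1.trans hK₀K, h.2.2⟩, fun h => ⟨h.1, hmax C h.1 h.2.1 h.2.2.2.1, h.2.2⟩⟩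

theorem admissible_iff (hK₀K : K₀ ≤ K)
    (hmax : ∀ C : Fl, k ≤ C → C ≤ K → ¬ p ∣ rdeg k C → C ≤ K₀) {r u : ℕ} {P : Fin r → Fl}
    {N : Fin u → Fl} : Admissible p k K₀ P N ↔ Admissible p k K P N := by
  constructor
  · rintro ⟨h1, h2, h3⟩
    exact ⟨fun i => ⟨(h1 i).1, (h1 i).2.1.trans hK₀K, (h1 i).2.2⟩,
      fun j => ⟨(h2 j).1, (h2 j).2.1.trans hK₀K, (h2 j).2.2⟩,
      fun C hC => h3 C ((cyclicIn_iff hK₀K hmax).2 hC)⟩
  · rintro ⟨h1, h2, h3⟩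
    exact ⟨fun i => ⟨(h1 i).1, hmax _ (h1 i).1 (h1 i).2.1 (h1 i).2.2, (h1 i).2.2⟩,
      fun j => ⟨(h2 j).1, hmax _ (h2 j).1 (h2 j).2.1 (h2 j).2.2, (h2 j).2.2⟩,
      fun C hC => h3 C ((cyclicIn_iff hK₀K hmax).1 hC)⟩

theorem goodAt_iff (hK₀K : K₀ ≤ K)
    (hmax : ∀ C : Fl, k ≤ C → C ≤ K → ¬ p ∣ rdeg k C → C ≤ K₀) {C R₀ : Fl} :
    GoodAt p s k K₀ C R₀ ↔ GoodAt p s k K C R₀ := by
  unfold GoodAt OneLayer TwoLayers
  simp only [admissible_iff hK₀K hmax]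

/-- **The criterion.** -/
theorem criterion (h1 : OnePrimeT) (h2 : InertiaT) (h3 : FinDecT) (h4 : IwasawaT)
    (h6 : AbelianSimpleT) (hab : IsAbelianOver k K)
    (hreal : ¬ p ∣ rdeg k K ∨ p ≠ 2 ∨ ∀ ι : Qb →+* ℂ, ∃ x ∈ k, conj (ι x) ≠ ι x)
    (T : Finset Fl) (hne : T.Nonempty) (hT : ∀ E ∈ T, k ≤ E ∧ E ≤ K ∧ MuVanishes p s E) :
    MuVanishes p s K ↔ ∀ C, CyclicIn p k K C → (∀ E ∈ T, ¬ C ≤ E) →
      ∃ m₀ R₀, Layer p m₀ R₀ ∧ GoodAt p s k K C R₀ := by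
  classical
  obtain ⟨K₀, hkK₀, hK₀K, hpK₀, hdeg, hmax⟩ := exists_prime_part (p := p) hab
  have hfK₀ : FiniteDimensional ℚ K₀ := fd_of_le hK₀K
  have hab₀ := abelian_sub hab hkK₀ hK₀K
  constructor
  · intro h C hC _
    obtain ⟨m₀, R₀, hR₀, hg⟩ := nec (s := s) h1 hab₀ hpK₀ (mu_down' hK₀K h)
      ((cyclicIn_iff hK₀K hmax).2 hC)
    exact ⟨m₀, R₀, hR₀, (goodAt_iff hK₀K hmax).1 hg⟩
  · intro h
    have h5 : MuVanishes p s K₀ := by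
      refine suff h1 h2 h6 hab₀ hpK₀ (T.image fun E => E ⊓ K₀) (hne.image _) ?_ ?_
      · intro E' hE'
        obtain ⟨E, hE, rfl⟩ := Finset.mem_image.1 hE'
        obtain ⟨g1, g2, g3⟩ := hT E hE
        have hfE : FiniteDimensional ℚ E := fd_of_le g2
        exact ⟨le_inf g1 hkK₀, inf_le_right, mu_down' inf_le_left g3⟩
      · intro C hC hCT
        obtain ⟨m₀, R₀, hR₀, hg⟩ := h C ((cyclicIn_iff hK₀K hmax).1 hC) (fun E hE hCE =>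
          hCT _ (Finset.mem_image_of_mem _ hE) (le_inf hCE hC.2.1))
        exact ⟨m₀, R₀, hR₀, (goodAt_iff hK₀K hmax).2 hg⟩
    rcases hreal with hpK | hreal
    · have h6 : K ≤ K₀ := hmax K hab.1 le_rfl hpK
      rwa [le_antisymm h6 hK₀K]
    · exact h4 h1 h3 p s K₀ K inferInstance hK₀K
        (fun σ hσ x hx => hab.2.1 σ (fixingSubgroup_le hkK₀ hσ) x hx) hdeg
        (hreal.imp id fun h7 ι => by
          obtain ⟨x, hx, h8⟩ := h7 ι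
          exact ⟨x, hkK₀ hx, h8⟩) h5

end

end Pool.Agent.J6H71.Mu
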