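import Pool.Agent.J6H14.DMu.Def

/-!
# Definitions for the criterion, Galois extensions
-/

set_option autoImplicit false

namespace Pool.Agent.J6H71.Mu

open IntermediateField Module Pool.Agent.Q60.MU Pool.Agent.J6H14.DMu NumberField

/-- The rank of `E` is at least `c`. -/
def RankGe (p : ℕ) (s : Bool) (E : Fl) (c : ℕ) : Prop := ∀ C, RkLe p s E C → c ≤ C

section
variable {p : ℕ} [Fact p.Prime] {k : Fl} {S : Type} [AddCommGroup S] [Module (ZMod p) S]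

/-- The number of endomorphisms of the representation `τ`. -/
noncomputable def nEnd (τ : Rp p k S) : ℕ :=
  Nat.card {e : S →ₗ[ZMod p] S // ∀ g v, e (ap τ g v) = ap τ g (e v)}

/-- The number of vectors fixed by the decomposition group of the prime `A` over `k`. -/
noncomputable def nAt (τ : Rp p k S) (A : ValuationSubring Qb) : ℕ :=
  Nat.card {v : S // FixedAt τ k A v}

/-- For every layer `R`, the primes `A` above `p` of `k R` whose decomposition group in `Gal(K/k)` has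
nonzero fixed vectors are represented by `B 1, …, B a` with `∏ |S ^ D(B i)| < |End S| ^ (t + 1)`. -/
def SplitLe (τ : Rp p k S) (t : ℕ) : Prop :=
  ∀ (m : ℕ) (R : Fl), Layer p m R → ∃ (a : ℕ) (B : Fin a → ValuationSubring Qb),
    (∀ A : ValuationSubring Qb, (p : Qb) ∈ A.nonunits → nAt τ A ≠ 1 →
      ∃ i, ∃ g ∈ gal (k ⊔ R), ∀ x, im g x ∈ B i ↔ x ∈ A) ∧
    ∏ i, nAt τ (B i) < nEnd τ ^ (t + 1)

/-- The weights of the fields `P i` are at least those of the fields `N j`. -/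
def Weights (p : ℕ) [Fact p.Prime] (k K : Fl) {r u : ℕ} (P : Fin r → Fl) (N : Fin u → Fl) : Prop :=
  (∀ i, k ≤ P i ∧ P i ≤ K) ∧ (∀ j, k ≤ N j ∧ N j ≤ K) ∧
  ∀ (T : Type) [AddCommGroup T] [Module (ZMod p) T] [Module.Finite (ZMod p) T] (σ : Rp p k T),
    SimpleMod K σ → ∏ j, nfix σ (N j) ≤ ∏ i, nfix σ (P i)

/-- The inequality for `τ` at the layer `R`. -/
def AtOne (s : Bool) (K R : Fl) (τ : Rp p k S) (t : ℕ) : Prop :=
  ∃ (r u : ℕ) (P : Fin r → Fl) (N : Fin u → Fl) (a : Fin r → ℕ) (b : Fin u → ℕ),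
    Weights p k K P N ∧ (∀ i, RkLe p s (P i ⊔ R) (a i)) ∧ (∀ j, RankGe p s (N j ⊔ R) (b j)) ∧
    (∏ i, a i) * (∏ j, nfix τ (N j)) ^ (rdeg K (K ⊔ R) - t) <
      (∏ j, b j) * (∏ i, nfix τ (P i)) ^ (rdeg K (K ⊔ R) - t)

/-- The inequality for `τ` at the layers `R₁ ≤ R`. -/
def AtTwo (s : Bool) (K R₁ R : Fl) (τ : Rp p k S) : Prop :=
  ∃ (r u : ℕ) (P : Fin r → Fl) (N : Fin u → Fl) (a a' : Fin r → ℕ) (b b' : Fin u → ℕ),
    Weights p k K P N ∧ (∀ i, RkLe p s (P i ⊔ R) (a i) ∧ RankGe p s (P i ⊔ R₁) (a' i)) ∧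
    (∀ j, RankGe p s (N j ⊔ R) (b j) ∧ RkLe p s (N j ⊔ R₁) (b' j)) ∧
    (∏ i, a i) * (∏ j, b' j) * (∏ j, nfix τ (N j)) ^ (rdeg K (K ⊔ R) - rdeg K (K ⊔ R₁)) <
      (∏ j, b j) * (∏ i, a' i) * (∏ i, nfix τ (P i)) ^ (rdeg K (K ⊔ R) - rdeg K (K ⊔ R₁))

/-- The criterion for `τ`, with layers `R ≤ R₀`. -/
def Good (s : Bool) (K R₀ : Fl) (τ : Rp p k S) : Prop :=
  (∃ t, SplitLe τ t ∧ ∃ m R, Layer p m R ∧ R ≤ R₀ ∧ AtOne s K R τ t) ∨
    ∃ m₁ R₁ m R, Layer p m₁ R₁ ∧ Layer p m R ∧ R₁ ≤ R ∧ R ≤ R₀ ∧ deg k < p * deg R₁ ∧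
      AtTwo s K R₁ R τ

/-- The simple representations of `Gal(K/k)` without nonzero vectors fixed by a field of `𝓔`, but
with nonzero vectors fixed by `F`. -/
def Relevant (F K : Fl) (𝓔 : Finset Fl) (τ : Rp p k S) : Prop :=
  SimpleMod K τ ∧ (∀ E ∈ 𝓔, nfix τ E = 1) ∧ nfix τ F ≠ 1

end

/-- `K` is a Galois extension of `k`. -/
def IsGaloisOver (k K : Fl) : Prop := k ≤ K ∧ ∀ σ ∈ gal k, ∀ x ∈ K, im σ x ∈ K

end Pool.Agent.J6H71.Mu
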