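import Pool.Agent.J6H14.DMu.Def

/-!
# Definitions for the criterion
-/

set_option autoImplicit false

namespace Pool.Agent.J6H71.Mu

open IntermediateField Module Pool.Agent.Q60.MU Pool.Agent.J6H14.DMu NumberField

/-- `K` is a Galois extension of `k` with abelian Galois group. -/
def IsAbelianOver (k K : Fl) : Prop :=
  k ≤ K ∧ (∀ σ ∈ gal k, ∀ x ∈ K, im σ x ∈ K) ∧
    ∀ σ ∈ gal k, ∀ τ ∈ gal k, ∀ x ∈ K, im σ (im τ x) = im τ (im σ x)

/-- `C` is a subfield of `K` which is a cyclic Galois extension of `k` of degree prime to `p`. -/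
def CyclicIn (p : ℕ) (k K C : Fl) : Prop :=
  k ≤ C ∧ C ≤ K ∧ (∀ σ ∈ gal k, ∀ x ∈ C, im σ x ∈ C) ∧ ¬ p ∣ rdeg k C ∧
    ∃ σ ∈ gal k, ∀ τ ∈ gal k, ∃ i : ℤ, ∀ x ∈ C, im τ x = im (σ ^ i) x

/-- The order of `p` modulo the degree of `C` over `k`. -/
noncomputable def ordMod (p : ℕ) (k C : Fl) : ℕ := orderOf ((p : ℕ) : ZMod (rdeg k C))

/-- The number of the fields `P i` which contain `C`. -/
noncomputable def cnt (C : Fl) {r : ℕ} (P : Fin r → Fl) : ℕ := Nat.card {i // C ≤ P i}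

/-- The degree of `k R` over `k`. -/
noncomputable def lay (k R : Fl) : ℕ := rdeg k (k ⊔ R)

/-- The rank of `E` is at least `c`. -/
def RkGe (p : ℕ) (s : Bool) (E : Fl) (c : ℕ) : Prop := ∀ C, RkLe p s E C → c ≤ C

/-- The fields `P i` and `N j` lie between `k` and `K` and have degree prime to `p` over `k`, and
every cyclic extension `C` of `k` in `K` of degree prime to `p` is contained in at least
as many of the fields `P i` as of the fields `N j`. -/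
def Admissible (p : ℕ) (k K : Fl) {r u : ℕ} (P : Fin r → Fl) (N : Fin u → Fl) : Prop :=
  (∀ i, k ≤ P i ∧ P i ≤ K ∧ ¬ p ∣ rdeg k (P i)) ∧ (∀ j, k ≤ N j ∧ N j ≤ K ∧ ¬ p ∣ rdeg k (N j)) ∧
    ∀ C, CyclicIn p k K C → cnt C N ≤ cnt C P

/-- The prime of `k` below the prime `A` of the field of algebraic numbers splits completely in `C`. -/
def SplitsIn (k C : Fl) (A : ValuationSubring Qb) : Prop :=
  ∀ σ ∈ gal k, Stab A σ → ∀ x ∈ C, im σ x = x

/-- For all layers `R`, the field `k R` has at most `t` primes which lie above a prime of `k` above `p`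
which splits completely in `C`. -/
def PrimesLe (p : ℕ) (k C : Fl) (t : ℕ) : Prop :=
  ∀ (m : ℕ) (R : Fl), Layer p m R → ∃ B : Fin t → ValuationSubring Qb,
    ∀ A : ValuationSubring Qb, (p : Qb) ∈ A.nonunits → SplitsIn k C A →
      ∃ i, ∃ g ∈ gal (k ⊔ R), ∀ x, im g x ∈ B i ↔ x ∈ A

/-- The inequality for `C` at the layer `R`. -/
def OneLayer (p : ℕ) (s : Bool) (k K C R : Fl) (t : ℕ) : Prop :=
  ∃ (r u : ℕ) (P : Fin r → Fl) (N : Fin u → Fl) (a : Fin r → ℕ) (b : Fin u → ℕ),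
    Admissible p k K P N ∧ (∀ i, RkLe p s (P i ⊔ R) (a i)) ∧ (∀ j, RkGe p s (N j ⊔ R) (b j)) ∧
    ∏ i, a i < (∏ j, b j) * p ^ (ordMod p k C * (cnt C P - cnt C N) * (lay k R - t))

/-- The inequality for `C` at the layers `R₁ ≤ R`. -/
def TwoLayers (p : ℕ) (s : Bool) (k K C R₁ R : Fl) : Prop :=
  ∃ (r u : ℕ) (P : Fin r → Fl) (N : Fin u → Fl) (a a' : Fin r → ℕ) (b b' : Fin u → ℕ),
    Admissible p k K P N ∧
    (∀ i, RkLe p s (P i ⊔ R) (a i) ∧ RkGe p s (P i ⊔ R₁) (a' i)) ∧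
    (∀ j, RkGe p s (N j ⊔ R) (b j) ∧ RkLe p s (N j ⊔ R₁) (b' j)) ∧
    (∏ i, a i) * (∏ j, b' j) <
      (∏ j, b j) * (∏ i, a' i) * p ^ (ordMod p k C * (cnt C P - cnt C N) * (lay k R - lay k R₁))

/-- The criterion for `C`, with layers `R ≤ R₀`. -/
def GoodAt (p : ℕ) (s : Bool) (k K C R₀ : Fl) : Prop :=
  (∃ t, PrimesLe p k C t ∧ ∃ m R, Layer p m R ∧ R ≤ R₀ ∧ OneLayer p s k K C R t) ∨
    ∃ m₁ R₁ m R, Layer p m₁ R₁ ∧ Layer p m R ∧ R₁ ≤ R ∧ R ≤ R₀ ∧ deg k < p * deg R₁ ∧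
      TwoLayers p s k K C R₁ R

end Pool.Agent.J6H71.Mu
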