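import Pool.Agent.J6H71.Mu.Lo0

/-!
# Comparison of two layers
-/

set_option autoImplicit false

namespace Pool.Agent.J6H71.Mu

open Subgroup Pool.Agent.Q60.MU Pool.Agent.W5h77.MB Pool.Agent.W5h33.DF Pool.Agent.J6H14.DMu
open scoped commutatorElement

variable {𝔾 : Type} [Group 𝔾]

/-- The chain of factors isomorphic to `S` in the filtration which starts at `L`. -/
theorem zf_chain {p : ℕ} {K : Subgroup 𝔾} {V : Type} [CommGroup V]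
    (ρ : 𝔾 →* MulAut V) {S : Type} [CommGroup S] (b : 𝔾 →* MulAut S) (hS : Simp p K b)
    {φ : V →* V} (hφc : ∀ (h : 𝔾) (v : V), ρ h (φ v) = φ (ρ h v))
    {W L : Subgroup V} (hW : ∀ g, ∀ v ∈ W, ρ g v ∈ W) (hL : ∀ g, ∀ v ∈ L, ρ g v ∈ L)
    (hWφ : ∀ v ∈ W, φ v ∈ W) (hLφ : ∀ v ∈ L, φ v ∈ L) {q₁ B : ℕ} (hq₁ : ∀ v, φ^[q₁] v ∈ L)
    (hB : ∀ v, φ^[B] v = 1) {n : ℕ} {n₀ : ℕ} (hn₀ : q₁ + n ≤ n₀ + 1) (hn : 0 < n)
    {A₁ A₂ : Subgroup V} (a1 : ∀ g, ∀ v ∈ A₁, ρ g v ∈ A₁)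
    (a3 : W ≤ A₂) (a5 : A₁ ≤ fil W φ n₀) (f : A₁ →* S)
    (a6 : Function.Surjective f) (a7 : ∀ v, f v = 1 ↔ (v : V) ∈ A₂)
    (a8 : ∀ g (v : A₁) (hv : ρ g v ∈ A₁), f ⟨ρ g v, hv⟩ = b g (f v)) :
    ∀ j < n, ∃ (T₁ T₂ : Subgroup V) (f : T₁ →* S), (∀ g, ∀ v ∈ T₁, ρ g v ∈ T₁) ∧
      (∀ g, ∀ v ∈ T₂, ρ g v ∈ T₂) ∧ zf W L φ (j + 1) ≤ T₂ ∧ T₂ ≤ T₁ ∧ T₁ ≤ zf W L φ j ∧
      Function.Surjective f ∧ (∀ v, f v = 1 ↔ (v : V) ∈ T₂) ∧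
      ∀ g (v : T₁) (hv : ρ g v ∈ T₁), f ⟨ρ g v, hv⟩ = b g (f v) := by
  classical
  set Z := zf W L φ with hZ
  have hZs : ∀ (j : ℕ) (g : 𝔾), ∀ v ∈ Z j, ρ g v ∈ Z j := fun j g =>
    zf_stable (hW g) (hL g) (hφc g) j
  have hWZ : ∀ j, W ≤ Z j := le_zf
  have hanti : ∀ {i j : ℕ}, i ≤ j → Z j ≤ Z i := fun h => zf_anti_le hLφ hWφ h
  have hφci : ∀ (j : ℕ) (h : 𝔾) (v : V), ρ h (φ^[j] v) = φ^[j] (ρ h v) := by
    intro j
    induction j with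
    | zero => intro h v; rfl
    | succ j ih =>
      intro h v
      rw [Function.iterate_succ_apply, Function.iterate_succ_apply, ih, hφc]
  obtain ⟨i₀, hi₀⟩ : ∃ i₀, n₀ = i₀ + q₁ := ⟨n₀ - q₁, by omega⟩
  have hAZ : A₁ ≤ Z i₀ := by
    intro x hx
    obtain ⟨u, hu, v, rfl⟩ := fil_elem hWφ n₀ x (a5 hx)
    rw [hi₀, Function.iterate_add_apply]
    exact (Z i₀).mul_mem (hWZ i₀ hu) (mem_zf i₀ (hq₁ v))
  -- the images in `S`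
  let im' : ℕ → Subgroup S := fun i => ((Z i).comap A₁.subtype).map f
  have him : ∀ i, ∀ g, ∀ s ∈ im' i, b g s ∈ im' i := by
    rintro i g _ ⟨v, hv, rfl⟩
    exact ⟨⟨ρ g v, a1 g v v.2⟩, hZs i g _ hv, a8 g v _⟩
  have hbot : ∃ i, im' i = ⊥ := by
    refine ⟨B, ?_⟩
    rw [eq_bot_iff]
    rintro _ ⟨v, hv, rfl⟩
    obtain ⟨u, hu, y, hy, hxy⟩ := zf_elem hWφ B v hv
    rw [mem_bot, a7]
    apply a3
    rw [show (v : V) = u by rw [show (v : V) = u * φ^[B] y from hxy, hB, mul_one]]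
    exact hu
  obtain ⟨k, hk, hkmin⟩ : ∃ k, im' k = ⊥ ∧ ∀ i < k, im' i ≠ ⊥ :=
    ⟨Nat.find hbot, Nat.find_spec hbot, fun i hi => Nat.find_min hbot hi⟩
  have hki : i₀ < k := by
    by_contra hcon
    push Not at hcon
    have h1 : im' k = ⊤ := by
      rw [eq_top_iff]
      intro s _
      obtain ⟨v, rfl⟩ := a6 s
      exact ⟨v, hanti hcon (hAZ v.2), rfl⟩
    obtain ⟨s, hs⟩ := @exists_ne S hS.1 1
    have h2 : s ∈ im' k := by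
      rw [h1]
      exact mem_top s
    rw [hk, mem_bot] at h2
    exact hs h2
  obtain ⟨i, rfl⟩ : ∃ i, k = i + 1 := ⟨k - 1, by omega⟩
  have htop : im' i = ⊤ := (hS.2.2.2 _ (him i)).resolve_left (hkmin i (Nat.lt_succ_self i))
  intro j hj
  obtain ⟨l, hl⟩ : ∃ l, i = j + l := ⟨i - j, by omega⟩
  -- the elements of `Z j` whose image under `φ ^ l` is in `(A₁ ∩ Z i) Z (i + 1)`
  let T₁ : Subgroup V := Z j ⊓ ((A₁ ⊓ Z i) ⊔ Z (i + 1)).comap (iter φ l)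
  have hex : ∀ v : T₁, ∃ a : A₁, (a : V) ∈ Z i ∧ φ^[l] (v : V) * (a : V)⁻¹ ∈ Z (i + 1) := by
    rintro ⟨v, hv1, hv2⟩
    have hv2' : φ^[l] v ∈ (A₁ ⊓ Z i) ⊔ Z (i + 1) := hv2
    rw [mem_sup] at hv2'
    obtain ⟨a, ha, w, hw, haw⟩ := hv2'
    refine ⟨⟨a, ha.1⟩, ha.2, ?_⟩
    show φ^[l] v * a⁻¹ ∈ Z (i + 1)
    rw [← haw, mul_comm a w, mul_inv_cancel_right]
    exact hw
  choose pr hpr1 hpr2 using hex
  have hfz : ∀ a : A₁, (a : V) ∈ Z (i + 1) → f a = 1 := by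
    intro a ha
    have h1 : f a ∈ im' (i + 1) := ⟨a, ha, rfl⟩
    rw [hk, mem_bot] at h1
    exact h1
  have hind : ∀ (v : T₁) (a : A₁), φ^[l] (v : V) * (a : V)⁻¹ ∈ Z (i + 1) → f (pr v) = f a := by
    intro v a ha
    have h4 := (Z (i + 1)).mul_mem ((Z (i + 1)).inv_mem (hpr2 v)) ha
    have h5 : (φ^[l] (v : V) * (pr v : V)⁻¹)⁻¹ * (φ^[l] (v : V) * (a : V)⁻¹) =
        ((pr v * a⁻¹ : A₁) : V) := by
      show _ = (pr v : V) * (a : V)⁻¹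
      group
    rw [h5] at h4
    have h6 := hfz _ h4
    rw [map_mul, map_inv, mul_inv_eq_one] at h6
    exact h6
  have hmulZ : ∀ x y : T₁, φ^[l] ((x * y : T₁) : V) * ((pr x * pr y : A₁) : V)⁻¹ ∈ Z (i + 1) := by
    intro x y
    have h4 := (Z (i + 1)).mul_mem (hpr2 x) (hpr2 y)
    rw [mul_mul_mul_comm, ← mul_inv, ← iterate_map_mul] at h4
    exact h4
  let F : T₁ →* S :=
    { toFun := fun v => f (pr v)
      map_one' := by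
        show f (pr 1) = 1
        rw [hind 1 1 (by
          show φ^[l] (1 : V) * (1 : V)⁻¹ ∈ Z (i + 1)
          rw [iterate_map_one, inv_one, mul_one]
          exact one_mem _), map_one]
      map_mul' := by
        intro x y
        show f (pr (x * y)) = f (pr x) * f (pr y)
        rw [hind (x * y) (pr x * pr y) (hmulZ x y), map_mul] }
  have hT₁s : ∀ g, ∀ v ∈ T₁, ρ g v ∈ T₁ := by
    rintro g v ⟨hv1, hv2⟩
    refine ⟨hZs j g v hv1, ?_⟩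
    show φ^[l] (ρ g v) ∈ (A₁ ⊓ Z i) ⊔ Z (i + 1)
    have hv2' : φ^[l] v ∈ (A₁ ⊓ Z i) ⊔ Z (i + 1) := hv2
    rw [← hφci]
    rw [mem_sup] at hv2'
    obtain ⟨a, ha, w, hw, haw⟩ := hv2'
    rw [← haw, map_mul]
    exact Subgroup.mul_mem _ (mem_sup_left ⟨a1 g a ha.1, hZs i g a ha.2⟩)
      (mem_sup_right (hZs (i + 1) g w hw))
  have hFe : ∀ g (v : T₁) (hv : ρ g v ∈ T₁), F ⟨ρ g v, hv⟩ = b g (F v) := by
    intro g v hv
    show f (pr ⟨ρ g v, hv⟩) = b g (f (pr v))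
    rw [← a8 g (pr v) (a1 g _ (pr v).2)]
    apply hind
    show φ^[l] (ρ g v) * (ρ g (pr v))⁻¹ ∈ Z (i + 1)
    rw [← hφci, ← map_inv, ← map_mul]
    exact hZs (i + 1) g _ (hpr2 v)
  refine ⟨T₁, F.ker.map T₁.subtype, F, hT₁s, ?_, ?_, ?_, inf_le_left, ?_, ?_, hFe⟩
  · rintro g _ ⟨v, hv, rfl⟩
    refine ⟨⟨ρ g v, hT₁s g v v.2⟩, ?_, rfl⟩
    show F _ = 1
    rw [hFe g v, show F v = 1 from hv, map_one]
  · intro v hv
    have h1 : φ^[l] v ∈ Z (i + 1) := by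
      have h2 := zf_shift (W := W) (L := L) (φ := φ) (j + 1) l hv
      have h3 : j + 1 + l = i + 1 := by omega
      rwa [h3] at h2
    have h2 : v ∈ T₁ := ⟨hanti (Nat.le_succ j) hv, by
      show φ^[l] v ∈ (A₁ ⊓ Z i) ⊔ Z (i + 1)
      exact mem_sup_right h1⟩
    refine ⟨⟨v, h2⟩, ?_, rfl⟩
    show f (pr ⟨v, h2⟩) = 1
    rw [hind ⟨v, h2⟩ 1 (by
      show φ^[l] v * (1 : V)⁻¹ ∈ Z (i + 1)
      rw [inv_one, mul_one]
      exact h1), map_one]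
  · rintro _ ⟨v, -, rfl⟩
    exact v.2
  · intro s
    have h1 : s ∈ im' i := by
      rw [htop]
      exact mem_top s
    obtain ⟨a, ha, rfl⟩ := h1
    have ha' : (a : V) ∈ Z (j + l) := by
      rw [← hl]
      exact ha
    obtain ⟨u, hu, y, hy, hxy⟩ := zf_elem' hWφ j l a ha'
    have h2 : φ^[l] y = u⁻¹ * a := by rw [hxy, inv_mul_cancel_left]
    have h3 : y ∈ T₁ := by
      refine ⟨hy, ?_⟩
      show φ^[l] y ∈ (A₁ ⊓ Z i) ⊔ Z (i + 1)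
      rw [h2, mul_comm]
      exact Subgroup.mul_mem _ (mem_sup_left ⟨a.2, ha⟩)
        (mem_sup_right ((Z (i + 1)).inv_mem (hWZ (i + 1) hu)))
    refine ⟨⟨y, h3⟩, ?_⟩
    show f (pr ⟨y, h3⟩) = f a
    apply hind
    show φ^[l] y * (a : V)⁻¹ ∈ Z (i + 1)
    rw [h2, mul_inv_cancel_right]
    exact (Z (i + 1)).inv_mem (hWZ (i + 1) hu)
  · intro v
    constructor
    · exact fun h => ⟨v, h, rfl⟩
    · rintro ⟨w, hw, hwv⟩
      have h6 : w = v := Subtype.ext hwv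
      rw [← h6]
      exact hw

end Pool.Agent.J6H71.Mu
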