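import Pool.Agent.J6H71.Mu.Kil

/-!
# Enlarging a submodule, and the filtration which starts at a submodule
-/

set_option autoImplicit false

namespace Pool.Agent.J6H71.Mu

open Subgroup Pool.Agent.Q60.MU Pool.Agent.W5h77.MB Pool.Agent.W5h33.DF Pool.Agent.J6H14.DMu
open scoped commutatorElement

variable {𝔾 : Type} [Group 𝔾]

/-- A factor isomorphic to `S` stays one if the radical is added. -/
theorem enlarge {p : ℕ} [hp : Fact p.Prime] {K D' : Subgroup 𝔾} (hKn : K.Normal)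
    (hD'n : D'.Normal) (hKp : ¬ p ∣ K.relIndex ⊤) {γ : 𝔾}
    {V : Type} [CommGroup V] [Finite V] (hV : ∀ v : V, v ^ p = 1)
    (ρ : 𝔾 →* MulAut V) (htriv : ∀ x ∈ K ⊓ D', ρ x = 1) {U : Subgroup V}
    {S : Type} [CommGroup S] [Finite S] (b : 𝔾 →* MulAut S) (hS : Simp p K b)
    {n₀ : ℕ} {T₁ T₂ : Subgroup V}
    (h1 : ∀ g, ∀ v ∈ T₁, ρ g v ∈ T₁)
    (h2 : ∀ g, ∀ v ∈ T₂, ρ g v ∈ T₂) (hle : fil U (phi ρ γ) (n₀ + 1) ≤ T₂) (hlt : T₂ ≤ T₁)
    (hle' : T₁ ≤ fil U (phi ρ γ) n₀) (f : T₁ →* S) (hf : Function.Surjective f)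
    (hf1 : ∀ v, f v = 1 ↔ (v : V) ∈ T₂)
    (hf2 : ∀ g (v : T₁) (hv : ρ g v ∈ T₁), f ⟨ρ g v, hv⟩ = b g (f v)) :
    ∃ (A₁ A₂ : Subgroup V) (f : A₁ →* S),
      (∀ g, ∀ v ∈ A₁, ρ g v ∈ A₁) ∧ (∀ g, ∀ v ∈ A₂, ρ g v ∈ A₂) ∧
      fil (U ⊔ rad D' ρ b) (phi ρ γ) (n₀ + 1) ≤ A₂ ∧ A₂ ≤ A₁ ∧
      A₁ ≤ fil (U ⊔ rad D' ρ b) (phi ρ γ) n₀ ∧
      Function.Surjective f ∧ (∀ v, f v = 1 ↔ (v : V) ∈ A₂) ∧
      ∀ g (v : A₁) (hv : ρ g v ∈ A₁), f ⟨ρ g v, hv⟩ = b g (f v) := by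
  classical
  set R₀ := rad D' ρ b with hR₀
  have hR₀s : ∀ g, ∀ v ∈ R₀, ρ g v ∈ R₀ := rad_stable hD'n ρ b
  set φ := phi ρ γ with hφdef
  have hRφ : ∀ u ∈ R₀, φ u ∈ R₀ := fun u hu => R₀.mul_mem (hR₀s γ u hu) (R₀.inv_mem hu)
  have hUT₂' : U ≤ T₂ := (le_fil U φ (n₀ + 1)).trans hle
  -- the factor for the larger submodule
  have hkey : ∀ v : T₁, (v : V) ∈ U ⊔ R₀ → f v = 1 := by
    intro v hv
    rw [mem_sup] at hv
    obtain ⟨u, hu, w, hw, huw⟩ := hv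
    have hu1 : u ∈ T₁ := hlt (hUT₂' hu)
    have hw1 : w ∈ T₁ := by
      have h3 : w = u⁻¹ * v := by rw [← huw, inv_mul_cancel_left]
      rw [h3]
      exact T₁.mul_mem (T₁.inv_mem hu1) v.2
    have h3 : v = ⟨u, hu1⟩ * ⟨w, hw1⟩ := Subtype.ext huw.symm
    rw [h3, map_mul, (hf1 ⟨u, hu1⟩).2 (hUT₂' hu), one_mul]
    exact rad_no hKn hKp hV ρ b htriv hS h1 f hf2 ⟨w, hw1⟩ hw
  have hex : ∀ v : ↥(T₁ ⊔ R₀), ∃ a : T₁, (v : V) * (a : V)⁻¹ ∈ R₀ := by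
    rintro ⟨v, hv⟩
    rw [mem_sup] at hv
    obtain ⟨a, ha, w, hw, rfl⟩ := hv
    refine ⟨⟨a, ha⟩, ?_⟩
    show a * w * a⁻¹ ∈ R₀
    rwa [mul_comm a w, mul_inv_cancel_right]
  choose pr hpr using hex
  have hind : ∀ (v : ↥(T₁ ⊔ R₀)) (a : T₁), (v : V) * (a : V)⁻¹ ∈ R₀ → f (pr v) = f a := by
    intro v a ha
    have h3 : ((pr v * a⁻¹ : T₁) : V) ∈ U ⊔ R₀ := by
      refine mem_sup_right ?_
      have h4 := R₀.mul_mem (R₀.inv_mem (hpr v)) ha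
      have h5 : ((v : V) * (pr v : V)⁻¹)⁻¹ * ((v : V) * (a : V)⁻¹) = (pr v : V) * (a : V)⁻¹ := by
        group
      rw [h5] at h4
      exact h4
    have h4 := hkey _ h3
    rw [map_mul, map_inv, mul_inv_eq_one] at h4
    exact h4
  let f₂ : ↥(T₁ ⊔ R₀) →* S :=
    { toFun := fun v => f (pr v)
      map_one' := by
        show f (pr 1) = 1
        rw [hind 1 1 (by
          show (1 : V) * 1⁻¹ ∈ R₀
          rw [inv_one, mul_one]
          exact R₀.one_mem), map_one]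
      map_mul' := by
        intro x y
        show f (pr (x * y)) = f (pr x) * f (pr y)
        rw [hind (x * y) (pr x * pr y) (by
          have h4 := R₀.mul_mem (hpr x) (hpr y)
          rw [mul_mul_mul_comm, ← mul_inv] at h4
          exact h4), map_mul] }
  refine ⟨T₁ ⊔ R₀, T₂ ⊔ R₀, f₂, ?_, ?_, ?_, sup_le_sup_right hlt _, ?_, ?_, ?_, ?_⟩
  · intro g v hv
    rw [mem_sup] at hv
    obtain ⟨u, hu, w, hw, rfl⟩ := hv
    rw [map_mul]
    exact (T₁ ⊔ R₀).mul_mem (mem_sup_left (h1 g u hu)) (mem_sup_right (hR₀s g w hw))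
  · intro g v hv
    rw [mem_sup] at hv
    obtain ⟨u, hu, w, hw, rfl⟩ := hv
    rw [map_mul]
    exact (T₂ ⊔ R₀).mul_mem (mem_sup_left (h2 g u hu)) (mem_sup_right (hR₀s g w hw))
  · refine (fil_sup hRφ (n₀ + 1)).trans ?_
    rw [sup_comm]
    exact sup_le_sup_right hle _
  · refine sup_le (hle'.trans (fil_mono le_sup_left φ n₀)) ?_
    exact le_sup_right.trans (le_fil (U ⊔ R₀) φ n₀)
  · intro s
    obtain ⟨v, rfl⟩ := hf s
    refine ⟨⟨v, mem_sup_left v.2⟩, ?_⟩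
    exact hind _ v (by
      show (v : V) * (v : V)⁻¹ ∈ R₀
      rw [mul_inv_cancel]
      exact R₀.one_mem)
  · intro v
    show f (pr v) = 1 ↔ _
    rw [hf1]
    constructor
    · intro h
      have h3 : (v : V) = (pr v : V) * ((v : V) * (pr v : V)⁻¹) := by
        rw [mul_comm (v : V), mul_inv_cancel_left]
      rw [h3]
      exact (T₂ ⊔ R₀).mul_mem (mem_sup_left h) (mem_sup_right (hpr v))
    · intro h
      rw [mem_sup] at h
      obtain ⟨u, hu, w, hw, huw⟩ := h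
      rw [← hf1, hind v ⟨u, hlt hu⟩ (by
        show (v : V) * u⁻¹ ∈ R₀
        rw [← huw, mul_comm u w, mul_inv_cancel_right]
        exact hw), hf1]
      exact hu
  · intro g v hv
    show f (pr ⟨ρ g v, hv⟩) = b g (f (pr v))
    rw [← hf2 g (pr v) (h1 g _ (pr v).2)]
    apply hind
    show ρ g v * (ρ g (pr v))⁻¹ ∈ R₀
    rw [← map_inv, ← map_mul]
    exact hR₀s g _ (hpr v)

/-- The filtration by the images of the powers of `φ` on the submodule `L`. -/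
def zf {V : Type} [CommGroup V] (W L : Subgroup V) (φ : V →* V) : ℕ → Subgroup V
  | 0 => W ⊔ L
  | j + 1 => W ⊔ (zf W L φ j).map φ

section zf
variable {V : Type} [CommGroup V] {W L : Subgroup V} {φ : V →* V}

theorem zf_succ (j : ℕ) : zf W L φ (j + 1) = W ⊔ (zf W L φ j).map φ := rfl

theorem le_zf (j : ℕ) : W ≤ zf W L φ j := by
  cases j with
  | zero => exact le_sup_left
  | succ j => exact le_sup_left

theorem zf_anti (hL : ∀ v ∈ L, φ v ∈ L) (j : ℕ) (hW : ∀ v ∈ W, φ v ∈ W) :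
    zf W L φ (j + 1) ≤ zf W L φ j := by
  induction j with
  | zero =>
    refine sup_le le_sup_left ?_
    show (W ⊔ L).map φ ≤ W ⊔ L
    rw [Subgroup.map_sup]
    refine sup_le_sup ?_ ?_
    · rintro _ ⟨v, hv, rfl⟩
      exact hW v hv
    · rintro _ ⟨v, hv, rfl⟩
      exact hL v hv
  | succ j ih => exact sup_le_sup_left (map_mono ih) _

theorem zf_anti_le (hL : ∀ v ∈ L, φ v ∈ L) (hW : ∀ v ∈ W, φ v ∈ W) {i j : ℕ} (h : i ≤ j) :
    zf W L φ j ≤ zf W L φ i := by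
  induction j, h using Nat.le_induction with
  | base => exact le_rfl
  | succ j _ ih => exact (zf_anti hL j hW).trans ih

theorem zf_stable {h : MulAut V} (hW : ∀ u ∈ W, h u ∈ W) (hL : ∀ u ∈ L, h u ∈ L)
    (hc : ∀ v, h (φ v) = φ (h v)) (j : ℕ) : ∀ x ∈ zf W L φ j, h x ∈ zf W L φ j := by
  induction j with
  | zero =>
    intro x hx
    have hx' : x ∈ W ⊔ L := hx
    rw [mem_sup] at hx'
    obtain ⟨u, hu, w, hw, rfl⟩ := hx'
    rw [map_mul]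
    exact (W ⊔ L).mul_mem (mem_sup_left (hW u hu)) (mem_sup_right (hL w hw))
  | succ j ih =>
    intro x hx
    rw [zf_succ, mem_sup] at hx
    obtain ⟨u, hu, _, ⟨w, hw, rfl⟩, rfl⟩ := hx
    rw [map_mul, hc]
    exact (zf W L φ (j + 1)).mul_mem (mem_sup_left (hW u hu))
      (mem_sup_right (mem_map_of_mem φ (ih w hw)))

theorem zf_shift (j n : ℕ) {v : V} (hv : v ∈ zf W L φ j) : φ^[n] v ∈ zf W L φ (j + n) := by
  induction n with
  | zero => exact hv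
  | succ n ih =>
    rw [Function.iterate_succ_apply']
    exact mem_sup_right (mem_map_of_mem φ ih)

theorem zf_elem' (hW : ∀ u ∈ W, φ u ∈ W) (j n : ℕ) :
    ∀ x ∈ zf W L φ (j + n), ∃ u ∈ W, ∃ y ∈ zf W L φ j, x = u * φ^[n] y := by
  induction n with
  | zero => exact fun x hx => ⟨1, W.one_mem, x, hx, by simp⟩
  | succ n ih =>
    intro x hx
    rw [← add_assoc, zf_succ, mem_sup] at hx
    obtain ⟨u, hu, _, ⟨y, hy, rfl⟩, rfl⟩ := hx
    obtain ⟨u', hu', z, hz, rfl⟩ := ih y hy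
    refine ⟨u * φ u', W.mul_mem hu (hW _ hu'), z, hz, ?_⟩
    rw [map_mul, Function.iterate_succ_apply', mul_assoc]

theorem iter_W (hW : ∀ u ∈ W, φ u ∈ W) (n : ℕ) : ∀ u ∈ W, φ^[n] u ∈ W := by
  induction n with
  | zero => exact fun u hu => hu
  | succ n ih =>
    intro u hu
    rw [Function.iterate_succ_apply']
    exact hW _ (ih u hu)

theorem zf_elem (hW : ∀ u ∈ W, φ u ∈ W) (j : ℕ) :
    ∀ x ∈ zf W L φ j, ∃ u ∈ W, ∃ y ∈ L, x = u * φ^[j] y := by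
  intro x hx
  have hx' : x ∈ zf W L φ (0 + j) := by rwa [zero_add]
  obtain ⟨u, hu, y, hy, rfl⟩ := zf_elem' hW 0 j x hx'
  have hy' : y ∈ W ⊔ L := hy
  rw [mem_sup] at hy'
  obtain ⟨u', hu', z, hz, rfl⟩ := hy'
  refine ⟨u * φ^[j] u', W.mul_mem hu (iter_W hW j u' hu'), z, hz, ?_⟩
  rw [iterate_map_mul, mul_assoc]

theorem mem_zf (j : ℕ) {y : V} (hy : y ∈ L) : φ^[j] y ∈ zf W L φ j := by
  have h := zf_shift (W := W) (L := L) (φ := φ) 0 j (v := y) (mem_sup_right hy)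
  rwa [zero_add] at h

end zf

end Pool.Agent.J6H71.Mu
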