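import Pool.Agent.J6H71.Mu.Grp
import Pool.Agent.J6H71.MuS.StmB
import Pool.Agent.J6H71.MuS.StmC

/-!
# Translation to fields: fields and subgroups, the primes above `p`
-/

set_option autoImplicit false

namespace Pool.Agent.J6H71.Mu

open IntermediateField Module Pool.Agent.Q60.MU Pool.Agent.W5h77.MB Pool.Agent.W5h33.DF
  Pool.Agent.J6H14.DMu Pool.Agent.J6H71.MuS NumberField
open scoped Pointwise commutatorElement

theorem mem_of_coprime {G : Type} [Group G] (S : Subgroup G) {a b : ℕ} (hc : Nat.Coprime a b)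
    {u : G} (h1 : u ^ a ∈ S) (h2 : u ^ b ∈ S) : u ∈ S := by
  have h3 := Nat.gcd_eq_gcd_ab a b
  rw [Nat.Coprime.gcd_eq_one hc] at h3
  have h4 : u = (u ^ a) ^ (Nat.gcdA a b) * (u ^ b) ^ (Nat.gcdB a b) := by
    rw [← zpow_natCast u a, ← zpow_natCast u b, ← zpow_mul, ← zpow_mul, ← zpow_add, ← h3,
      Nat.cast_one, zpow_one]
  rw [h4]
  exact mul_mem (zpow_mem h1 _) (zpow_mem h2 _)

/-- Subgroups come from fields. -/
theorem exists_field {k K : Fl} [FiniteDimensional ℚ K] (hkK : k ≤ K)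
    {H : Subgroup k.fixingSubgroup} (hH : sb k K ≤ H) : ∃ E : Fl, k ≤ E ∧ E ≤ K ∧ sb k E = H := by
  have hle : K.fixingSubgroup ≤ H.map k.fixingSubgroup.subtype := fun g hg =>
    ⟨⟨g, fixingSubgroup_le hkK hg⟩, hH hg, rfl⟩
  have hHo : IsOpen ((H.map k.fixingSubgroup.subtype : Subgroup Gal(Qb/ℚ)) : Set Gal(Qb/ℚ)) :=
    Subgroup.isOpen_mono hle K.fixingSubgroup_isOpen
  have hfix := fix_fixed hHo
  refine ⟨fixedField (H.map k.fixingSubgroup.subtype), ?_, ?_, ?_⟩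
  · rw [le_iff_le]
    rintro _ ⟨x, -, rfl⟩
    exact x.2
  · have h1 := fixedField_antitone hle
    rwa [InfiniteGalois.fixedField_fixingSubgroup] at h1
  · unfold sb
    rw [hfix]
    exact Subgroup.comap_map_eq_self_of_injective k.fixingSubgroup.subtype_injective H

theorem sb_le_iff {k E F : Fl} (hF : k ≤ F) : sb k F ≤ sb k E ↔ E ≤ F := by
  refine ⟨fun h => ?_, sb_mono⟩
  have h1 : F.fixingSubgroup ≤ E.fixingSubgroup := fun g hg => by
    have h2 : (⟨g, fixingSubgroup_le hF hg⟩ : k.fixingSubgroup) ∈ sb k F := hg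
    exact h h2
  rw [← InfiniteGalois.fixedField_fixingSubgroup E, ← InfiniteGalois.fixedField_fixingSubgroup F]
  exact fixedField_antitone h1

theorem sb_self (k : Fl) : sb k k = ⊤ := by
  rw [eq_top_iff]
  exact fun g _ => g.2

theorem sb_sup_self (k R : Fl) : sb k (k ⊔ R) = sb k R := by
  rw [← sb_inf, sb_self, top_inf_eq]

/-- The finitely many intermediate fields. -/
theorem finite_fields {k K : Fl} [FiniteDimensional ℚ K] (hkK : k ≤ K)
    (hKn : ∀ σ ∈ k.fixingSubgroup, ∀ x ∈ K, σ x ∈ K) : {E : Fl | k ≤ E ∧ E ≤ K}.Finite := by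
  have hfk : FiniteDimensional ℚ k := fd_of_le hkK
  have h1 : {L : Subgroup k.fixingSubgroup | sb k K ≤ L}.Finite := by
    refine finite_ge (sb_normal hKn) ?_
    rw [index_sb hkK, ← relIndex_fix hkK]
    exact fun h => index_ne_zero' K (by
      have h1 := Subgroup.relIndex_mul_index (fixingSubgroup_le hkK)
      rw [h, zero_mul] at h1
      exact h1.symm)
  refine Set.Finite.of_finite_image (h1.subset ?_) (f := sb k) ?_
  · rintro _ ⟨E, hE, rfl⟩
    exact sb_mono hE.2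
  · intro E hE F hF h
    exact sb_inj hE.1 hF.1 h

section
variable {p : ℕ} [hp : Fact p.Prime] {s : Bool} {k : Fl} [FiniteDimensional ℚ k]

omit [FiniteDimensional ℚ k] in
theorem sb_index_ne {K : Fl} [FiniteDimensional ℚ K] (hkK : k ≤ K) : (sb k K).index ≠ 0 := by
  rw [index_sb hkK, ← relIndex_fix hkK]
  exact fun h => index_ne_zero' K (by
    have h1 := Subgroup.relIndex_mul_index (fixingSubgroup_le hkK)
    rw [h, zero_mul] at h1
    exact h1.symm)

/-- The degree of a layer over `K` and over `k`. -/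
theorem rel_layer' {K R : Fl} [FiniteDimensional ℚ K] (hkK : k ≤ K)
    (hKn : ∀ σ ∈ k.fixingSubgroup, ∀ x ∈ K, σ x ∈ K) (hpK : ¬ p ∣ rdeg k K) {m : ℕ}
    (hR : Layer p m R) : (sb k R).relIndex (sb k K) = rdeg k (k ⊔ R) := by
  have hfR := layer_fd hp.out hR.1
  have hKnor : (sb k K).Normal := sb_normal hKn
  have hRnor : (sb k R).Normal := layer_sb_normal hR
  have h1 : sb k K ⊔ sb k R = ⊤ := by
    rw [← Subgroup.index_eq_one]
    have h2 : (sb k K ⊔ sb k R).index ∣ rdeg k K := by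
      rw [← index_sb hkK]
      exact Subgroup.index_dvd_of_le le_sup_left
    obtain ⟨m', hm'⟩ := layer_sb_index (k := k) hR
    have h3 : (sb k K ⊔ sb k R).index ∣ p ^ m' := by
      rw [← hm']
      exact Subgroup.index_dvd_of_le le_sup_right
    have h4 : Nat.Coprime (rdeg k K) (p ^ m') :=
      Nat.Coprime.pow_right m' ((Nat.Prime.coprime_iff_not_dvd hp.out).2 hpK).symm
    exact Nat.eq_one_of_dvd_coprimes h4 h2 h3
  have h2 : (sb k R).relIndex (sb k K) = (sb k R).index := by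
    rw [← Subgroup.relIndex_top_right, ← h1, Subgroup.relIndex_sup_right]
  rw [h2, ← sb_sup_self, index_sb le_sup_left]

/-- The primes above `p` are conjugate over the layers. -/
theorem trans_above (h1 : OnePrimeT) {m : ℕ} {R : Fl} (hR : Layer p m R)
    {A B : ValuationSubring Qb} (hA : (p : Qb) ∈ A.nonunits) (hB : (p : Qb) ∈ B.nonunits) :
    ∃ g ∈ R.fixingSubgroup, A = g • B := by
  classical
  obtain ⟨N, hN⟩ := hR.1.2
  have hfd : FiniteDimensional ℚ (cyc p N) := by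
    have h2 : p ^ N ≠ 0 := (pow_pos hp.out.pos N).ne'
    have : Finite {z : Qb | z ^ p ^ N = 1} := by
      have h3 : ({z : Qb | z ^ p ^ N = 1} : Set Qb) ⊆
          ((Polynomial.nthRoots (p ^ N) (1 : Qb)).toFinset : Set Qb) := by
        intro z hz
        rw [Finset.mem_coe, Multiset.mem_toFinset, Polynomial.mem_nthRoots (pow_pos hp.out.pos N)]
        exact hz
      exact (Set.Finite.subset (Finset.finite_toSet _) h3).to_subtype
    exact finiteDimensional_adjoin fun z _ => (isAlg_Qb.isAlgebraic z).isIntegral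
  obtain ⟨g, hg, h⟩ := conj_of_one hp.out (cyc p N) (h1 p hp.out N) hA hB
  exact ⟨g, fixingSubgroup_le hN hg, h⟩

/-- Representatives of the primes above `p`. -/
theorem exists_fam (h1 : OnePrimeT) {m : ℕ} {R : Fl} (hR : Layer p m R) :
    ∃ 𝒜 : Fin (deg k) → ValuationSubring Qb, ∀ A : ValuationSubring Qb, (p : Qb) ∈ A.nonunits →
      ∃ i, ∃ g, g ∈ gal k ∧ g ∈ gal R ∧ g • A = 𝒜 i := by
  classical
  obtain ⟨A₀, hA₀⟩ := exists_above hp.out
  have hk0 : (gal k).index ≠ 0 := index_ne_zero' k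
  have hfi : (gal k).FiniteIndex := ⟨hk0⟩
  have hrel : (gal k).relIndex (gal R) ≤ deg k := by
    have h2 : deg k = (gal k).index := finrank_eq_fixingSubgroup_index Qb k
    rw [h2, ← Subgroup.relIndex_top_right]
    exact Subgroup.relIndex_le_of_le_right le_top (by rwa [Subgroup.relIndex_top_right])
  have hrel0 : (gal k).relIndex (gal R) ≠ 0 := fun h => hk0 (by
    have h3 := Subgroup.relIndex_eq_zero_of_le_right (le_top : gal R ≤ ⊤) h
    rwa [Subgroup.relIndex_top_right] at h3)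
  have hfin : Finite (gal R ⧸ (gal k).subgroupOf (gal R)) := by
    have : ((gal k).subgroupOf (gal R)).FiniteIndex := ⟨hrel0⟩
    infer_instance
  let e : Fin ((gal k).relIndex (gal R)) ≃ gal R ⧸ (gal k).subgroupOf (gal R) :=
    (Finite.equivFinOfCardEq rfl).symm
  let F : gal R ⧸ (gal k).subgroupOf (gal R) → ValuationSubring Qb := fun q =>
    ((q.out : gal R) : Gal(Qb/ℚ))⁻¹ • A₀
  refine ⟨fun i => if h : (i : ℕ) < (gal k).relIndex (gal R) then F (e ⟨i, h⟩) else A₀, ?_⟩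
  intro A hA
  obtain ⟨h, hh, rfl⟩ := trans_above h1 hR hA hA₀
  set q : gal R ⧸ (gal k).subgroupOf (gal R) := QuotientGroup.mk (⟨h, hh⟩⁻¹ : gal R) with hq
  obtain ⟨l, hl⟩ := QuotientGroup.mk_out_eq_mul ((gal k).subgroupOf (gal R)) (⟨h, hh⟩⁻¹ : gal R)
  have hi : ((e.symm q : Fin _) : ℕ) < (gal k).relIndex (gal R) := (e.symm q).2
  refine ⟨⟨(e.symm q : Fin _), hi.trans_le hrel⟩, ((l : gal R) : Gal(Qb/ℚ))⁻¹, inv_mem l.2,
    inv_mem (l : gal R).2, ?_⟩
  have h5 : (if h : ((e.symm q : Fin _) : ℕ) < (gal k).relIndex (gal R) then F (e ⟨_, h⟩) else A₀) =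
      F q := by
    rw [dif_pos hi]
    congr 1
    exact e.apply_symm_apply q
  show _ = (if h : ((e.symm q : Fin _) : ℕ) < (gal k).relIndex (gal R) then F (e ⟨_, h⟩) else A₀)
  rw [h5]
  show _ = ((q.out : gal R) : Gal(Qb/ℚ))⁻¹ • A₀
  rw [hq, hl, smul_smul]
  congr 1

/-- Total ramification above a layer of large degree. -/
theorem total (h2 : InertiaT) {K : Fl} [FiniteDimensional ℚ K] (hkK : k ≤ K)
    (hKn : ∀ σ ∈ k.fixingSubgroup, ∀ x ∈ K, σ x ∈ K) (hpK : ¬ p ∣ rdeg k K) {m₁ m' : ℕ}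
    {R₁ R' : Fl} (hR₁ : Layer p m₁ R₁) (hR' : Layer p m' R') (hRR : R₁ ≤ R')
    (hdeg : deg k < p * deg R₁) {A : ValuationSubring Qb} (hA : (p : Qb) ∈ A.nonunits)
    {x : Gal(Qb/ℚ)} (hx : x ∈ R₁.fixingSubgroup) :
    ∃ w ∈ inertia A, w ∈ K.fixingSubgroup ∧ w ∈ R₁.fixingSubgroup ∧
      x * w⁻¹ ∈ R'.fixingSubgroup := by
  classical
  have hfR' := layer_fd hp.out hR'.1
  have hfR₁ := layer_fd hp.out hR₁.1
  have hn' : R'.fixingSubgroup.Normal := layer_normal hp.out hR'.1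
  have hn₁ : R₁.fixingSubgroup.Normal := layer_normal hp.out hR₁.1
  have hle : R'.fixingSubgroup ≤ R₁.fixingSubgroup := fixingSubgroup_le hRR
  have hidx' : R'.fixingSubgroup.index = p ^ m' := by
    have h0 : finrank ℚ R' = p ^ m' := hR'.1.1
    rw [← h0, finrank_eq_fixingSubgroup_index Qb R']
  have hidx₁ : R₁.fixingSubgroup.index = p ^ m₁ := by
    have h0 : finrank ℚ R₁ = p ^ m₁ := hR₁.1.1
    rw [← h0, finrank_eq_fixingSubgroup_index Qb R₁]
  set W₀ : Subgroup Gal(Qb/ℚ) := inertia A ⊓ k.fixingSubgroup with hW₀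
  set W : Subgroup Gal(Qb/ℚ) := inertia A ⊓ K.fixingSubgroup with hW
  have hk0 : k.fixingSubgroup.index ≠ 0 := index_ne_zero' k
  -- the inertia group generates
  have hall : inertia A ⊔ R'.fixingSubgroup = ⊤ := by
    rw [eq_top_iff]
    intro y _
    obtain ⟨N, hN⟩ := hR'.1.2
    obtain ⟨w, hw, hyw⟩ := h2 p hp.out N A hA y
    have h3 : y = (y * w⁻¹) * w := by group
    rw [h3]
    exact mul_mem (Subgroup.mem_sup_right (fixingSubgroup_le hN hyw)) (Subgroup.mem_sup_left hw)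
  -- the index of `W₀`
  have hW₀I : W₀.relIndex (inertia A) ≤ deg k := by
    have h3 : deg k = k.fixingSubgroup.index := finrank_eq_fixingSubgroup_index Qb k
    rw [hW₀, Subgroup.inf_relIndex_left, h3, ← Subgroup.relIndex_top_right]
    exact Subgroup.relIndex_le_of_le_right le_top (by rwa [Subgroup.relIndex_top_right])
  have hW₀I0 : W₀.relIndex (inertia A) ≠ 0 := by
    rw [hW₀, Subgroup.inf_relIndex_left]
    intro h
    have h3 := Subgroup.relIndex_eq_zero_of_le_right (le_top : inertia A ≤ ⊤) h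
    rw [Subgroup.relIndex_top_right] at h3
    exact hk0 h3
  have hM0 : (W₀ ⊔ R'.fixingSubgroup).relIndex (inertia A) ≠ 0 := fun h =>
    hW₀I0 (Subgroup.relIndex_eq_zero_of_le_left le_sup_left h)
  have hW₀R : (W₀ ⊔ R'.fixingSubgroup).index ≤ deg k := by
    rw [← Subgroup.relIndex_top_right]
    refine (relIndex_le_of_mul (W := inertia A) le_top hM0 ?_).trans
      ((Subgroup.relIndex_le_of_le_left le_sup_left hW₀I0).trans hW₀I)
    intro l _
    have h3 : l ∈ inertia A ⊔ R'.fixingSubgroup := by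
      rw [hall]
      trivial
    rw [← SetLike.mem_coe, Subgroup.mul_normal] at h3
    obtain ⟨w, hw, m, hm, rfl⟩ := h3
    exact ⟨w, hw, m, Subgroup.mem_sup_right hm, rfl⟩
  obtain ⟨j, hj, hWj⟩ : ∃ j ≤ m', (W₀ ⊔ R'.fixingSubgroup).index = p ^ j := by
    refine (Nat.dvd_prime_pow hp.out).1 ?_
    rw [← hidx']
    exact Subgroup.index_dvd_of_le le_sup_right
  have hjm : j ≤ m₁ := by
    have h0 : deg R₁ = p ^ m₁ := hR₁.1.1
    rw [h0, ← pow_succ'] at hdeg
    rw [hWj] at hW₀R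
    have := (Nat.pow_lt_pow_iff_right hp.out.one_lt).1 (hW₀R.trans_lt hdeg)
    omega
  -- `W` and `W₀`
  have hWW : W₀ ≤ W ⊔ R'.fixingSubgroup := by
    intro w hw
    have hKnor : (sb k K).Normal := sb_normal hKn
    refine mem_of_coprime (W ⊔ R'.fixingSubgroup) (a := rdeg k K) (b := p ^ m')
      (Nat.Coprime.pow_right m' ((Nat.Prime.coprime_iff_not_dvd hp.out).2 hpK).symm) ?_ ?_
    · apply Subgroup.mem_sup_left
      refine ⟨(inertia A).pow_mem hw.1 _, ?_⟩
      have h3 := (sb k K).pow_index_mem (⟨w, hw.2⟩ : k.fixingSubgroup)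
      rw [index_sb hkK] at h3
      exact h3
    · apply Subgroup.mem_sup_right
      rw [← hidx']
      exact R'.fixingSubgroup.pow_index_mem w
  -- conclusion
  have hσ' := layer_cyc hp.out hR'
  have hcm := comm_mem_of (D := R'.fixingSubgroup) hσ'
  obtain ⟨σ, hσ⟩ := hσ'
  have hLn : (W₀ ⊔ R'.fixingSubgroup).Normal := by
    refine ⟨fun l hl g => ?_⟩
    have h3 : g * l * g⁻¹ = ⁅g, l⁆ * l := by
      rw [commutatorElement_def]
      group
    rw [h3]
    exact mul_mem (Subgroup.mem_sup_right (hcm g l)) hl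
  have hσL : σ ^ p ^ m₁ ∈ W₀ ⊔ R'.fixingSubgroup := by
    have h3 := (W₀ ⊔ R'.fixingSubgroup).pow_index_mem σ
    rw [hWj] at h3
    have h4 : p ^ m₁ = p ^ j * p ^ (m₁ - j) := by
      rw [← pow_add]
      congr 1
      omega
    rw [h4, pow_mul]
    exact pow_mem h3 _
  obtain ⟨i, hi⟩ := hσ x
  have hσi : σ ^ i ∈ R₁.fixingSubgroup := by
    have h3 : σ ^ i = (x * (σ ^ i)⁻¹)⁻¹ * x := by group
    rw [h3]
    exact mul_mem (inv_mem (hle hi)) hx
  have hord : (p ^ m₁ : ℤ) ∣ i := by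
    have h3 : ∀ y : Gal(Qb/ℚ) ⧸ R₁.fixingSubgroup, y ∈ Subgroup.zpowers
        ((σ : Gal(Qb/ℚ)) : Gal(Qb/ℚ) ⧸ R₁.fixingSubgroup) := by
      intro y
      obtain ⟨z, rfl⟩ := QuotientGroup.mk_surjective y
      obtain ⟨l, hl⟩ := hσ z
      refine ⟨l, ?_⟩
      show ((σ ^ l : Gal(Qb/ℚ)) : Gal(Qb/ℚ) ⧸ R₁.fixingSubgroup) = z
      rw [QuotientGroup.eq]
      have h4 : (σ ^ l)⁻¹ * z = (σ ^ l)⁻¹ * (z * (σ ^ l)⁻¹) * ((σ ^ l)⁻¹)⁻¹ := by group
      rw [h4]
      exact hn₁.conj_mem _ (hle hl) _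
    have h4 := orderOf_eq_card_of_forall_mem_zpowers h3
    have h5 : Nat.card (Gal(Qb/ℚ) ⧸ R₁.fixingSubgroup) = p ^ m₁ := hidx₁
    rw [h5] at h4
    have h6 : (((σ : Gal(Qb/ℚ)) : Gal(Qb/ℚ) ⧸ R₁.fixingSubgroup)) ^ i = 1 := by
      show ((σ ^ i : Gal(Qb/ℚ)) : Gal(Qb/ℚ) ⧸ R₁.fixingSubgroup) = 1
      rwa [QuotientGroup.eq_one_iff]
    have h7 := orderOf_dvd_iff_zpow_eq_one.2 h6
    rw [h4] at h7
    exact_mod_cast h7
  have hxL : x ∈ W ⊔ R'.fixingSubgroup := by
    have h3 : W₀ ⊔ R'.fixingSubgroup ≤ W ⊔ R'.fixingSubgroup := sup_le hWW le_sup_right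
    apply h3
    have h4 : x = (x * (σ ^ i)⁻¹) * σ ^ i := by group
    rw [h4]
    refine mul_mem (Subgroup.mem_sup_right hi) ?_
    obtain ⟨l, rfl⟩ := hord
    rw [zpow_mul]
    refine zpow_mem ?_ l
    exact_mod_cast hσL
  rw [← SetLike.mem_coe, Subgroup.mul_normal] at hxL
  obtain ⟨w, hw, h, hh, rfl⟩ := hxL
  refine ⟨w, hw.1, hw.2, ?_, ?_⟩
  · have h3 : w = (w * h) * h⁻¹ := by group
    rw [h3]
    exact mul_mem hx (inv_mem (hle hh))
  · exact hn'.conj_mem h hh w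

end

end Pool.Agent.J6H71.Mu
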