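import Pool.Agent.J6H71.Mu.Lvl
import Pool.Agent.J6H71.Mu.Dfg

/-!
# Galois extensions of degree prime to `p`
-/

set_option autoImplicit false

namespace Pool.Agent.J6H71.Mu

open IntermediateField Module Pool.Agent.Q60.MU Pool.Agent.W5h77.MB Pool.Agent.W5h33.DF
  Pool.Agent.J6H14.DMu Pool.Agent.J6H71.MuS NumberField
open scoped Pointwise commutatorElement

section
variable {p : ℕ} [hp : Fact p.Prime] {s : Bool} {k K : Fl} [FiniteDimensional ℚ k]
  [FiniteDimensional ℚ K]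

omit hp [FiniteDimensional ℚ k] [FiniteDimensional ℚ K] in
theorem not_dvd_rel' (hG : IsGaloisOver k K) [FiniteDimensional ℚ K] (hpK : ¬ p ∣ rdeg k K)
    {L : Subgroup k.fixingSubgroup} : ¬ p ∣ (sb k K).relIndex L := by
  have hn : (sb k K).Normal := sb_normal hG.2
  intro h
  apply hpK
  rw [← index_sb hG.1, ← Subgroup.relIndex_top_right]
  exact h.trans (rel_dvd hn le_top)

omit [FiniteDimensional ℚ k] [FiniteDimensional ℚ K] in
/-- the numbers of fixed vectors at primes, and of endomorphisms -/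
theorem transl {S : Type} [CommGroup S] [Finite S] (b : k.fixingSubgroup →* MulAut S)
    [Module (ZMod p) (Additive S)] (τ : Rp p k (Additive S))
    (h : ∀ g (v : S), τ g (Additive.ofMul v) = Additive.ofMul (b g v)) :
    (∀ A : ValuationSubring Qb, nAt τ A = Nat.card (fx b (MulAction.stabilizer k.fixingSubgroup
      (Sum.inl A : ValuationSubring Qb ⊕ InfinitePlace Qb)))) ∧ nEnd τ = Nat.card (En b) := by
  constructor
  · intro A
    refine Nat.card_congr (Equiv.subtypeEquiv Additive.toMul fun v => ?_)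
    constructor
    · intro hv g hg
      have h1 : Stab A (g : Gal(Qb/ℚ)) := by
        rw [stab_iff]
        exact Sum.inl_injective hg
      have h2 := hv g g.2 h1
      have h3 := h g v.toMul
      exact Additive.ofMul.injective (h3.symm.trans h2)
    · intro hv g _ hg
      have h1 : g ∈ MulAction.stabilizer k.fixingSubgroup
          (Sum.inl A : ValuationSubring Qb ⊕ InfinitePlace Qb) := by
        show Sum.inl ((g : Gal(Qb/ℚ)) • A) = Sum.inl A
        rw [stab_iff.1 hg]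
      have h3 := h g v.toMul
      rw [hv g h1] at h3
      exact h3
  · refine Nat.card_congr
      { toFun := fun e => ⟨{ toFun := fun x => (e.1 (Additive.ofMul x)).toMul
                             map_one' := by
                               show (e.1 0).toMul = 1
                               rw [map_zero]
                               rfl
                             map_mul' := fun x y => by
                               show (e.1 (Additive.ofMul x + Additive.ofMul y)).toMul = _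
                               rw [map_add]
                               rfl }, fun g v => ?_⟩
        invFun := fun e => ⟨(MonoidHom.toAdditive e.1).toZModLinearMap p, fun g v => ?_⟩
        left_inv := fun e => ?_
        right_inv := fun e => ?_ }
    · show (e.1 (Additive.ofMul (b g v))).toMul = b g (e.1 (Additive.ofMul v)).toMul
      rw [← h]
      have h1 := e.2 g (Additive.ofMul v)
      have h2 := h g (e.1 (Additive.ofMul v)).toMul
      exact congrArg Additive.toMul (h1.trans h2)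
    · show Additive.ofMul (e.1 (τ g v).toMul) = τ g (Additive.ofMul (e.1 v.toMul))
      have h1 : τ g v = Additive.ofMul (b g v.toMul) := h g v.toMul
      rw [h1, h g (e.1 v.toMul)]
      exact congrArg Additive.ofMul (e.2 g v.toMul)
    · apply Subtype.ext
      apply LinearMap.ext
      intro x
      rfl
    · apply Subtype.ext
      ext x
      rfl

/-- The conditions on the fields `P i`, `N j`. -/
theorem wts (hG : IsGaloisOver k K) {r u : ℕ} {P : Fin r → Fl}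
    {N : Fin u → Fl} (h : Weights p k K P N) (T : Type) [CommGroup T] [Finite T]
    (a : k.fixingSubgroup →* MulAut T) (hT : Simp p (sb k K) a) :
    ∏ j, Nat.card (fx a (sb k (N j))) ≤ ∏ i, Nat.card (fx a (sb k (P i))) := by
  obtain ⟨i1, i2, σ, h1, h2, h3⟩ := exists_rep_add a hT
  have h4 := h.2.2 (Additive T) σ h1
  simp only [h3] at h4
  exact h4

theorem rel_dg {R : Fl} (hG : IsGaloisOver k K) {m : ℕ} (hR : Layer p m R) :
    (sb k R).relIndex (sb k K) = rdeg K (K ⊔ R) := by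
  have hfR := layer_fd hp.out hR.1
  exact rel_layer hG.1

theorem crt_of' (hG : IsGaloisOver k K) (hpK : ¬ p ∣ rdeg k K) {m t : ℕ}
    {R : Fl} (hR : Layer p m R) {S : Type} [CommGroup S] [Finite S]
    (b : k.fixingSubgroup →* MulAut S) [Module (ZMod p) (Additive S)] (τ : Rp p k (Additive S))
    (hτ : ∀ E, nfix τ E = Nat.card (fx b (sb k E)))
    (h : AtOne s K R τ t) : Crt p (lc p s k) (sb k K) (sb k R) b t := by
  have hfR := layer_fd hp.out hR.1
  obtain ⟨r, u, P, N, A, B, hadm, hP, hN, hlt⟩ := h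
  have hPf : ∀ i, FiniteDimensional ℚ (P i) := fun i => fd_of_le (hadm.1 i).2
  have hNf : ∀ j, FiniteDimensional ℚ (N j) := fun j => fd_of_le (hadm.2.1 j).2
  refine ⟨r, u, fun i => sb k (P i), fun j => sb k (N j), A, B, ?_, ?_, fun T _ _ a ha =>
    wts hG hadm T a ha, ?_⟩
  · intro i
    have := hPf i
    refine ⟨sb_mono (hadm.1 i).2, not_dvd_rel' hG hpK, ?_⟩
    rw [sb_inf]
    exact (rk_iff ((hadm.1 i).1.trans le_sup_left) _).2 (hP i)
  · intro j
    have := hNf j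
    refine ⟨sb_mono (hadm.2.1 j).2, not_dvd_rel' hG hpK, fun C' hC' => ?_⟩
    rw [sb_inf] at hC'
    exact hN j C' ((rk_iff ((hadm.2.1 j).1.trans le_sup_left) _).1 hC')
  · simp only [hτ] at hlt
    rw [rel_dg hG hR]
    exact hlt

theorem cr2_of' (hG : IsGaloisOver k K) (hpK : ¬ p ∣ rdeg k K) {m m₁ : ℕ}
    {R R₁ : Fl} (hR : Layer p m R) (hR₁ : Layer p m₁ R₁) {S : Type} [CommGroup S] [Finite S]
    (b : k.fixingSubgroup →* MulAut S) [Module (ZMod p) (Additive S)] (τ : Rp p k (Additive S))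
    (hτ : ∀ E, nfix τ E = Nat.card (fx b (sb k E)))
    (h : AtTwo s K R₁ R τ) : Cr2 p (lc p s k) (sb k K) (sb k R₁) (sb k R) b := by
  have hfR := layer_fd hp.out hR.1
  have hfR₁ := layer_fd hp.out hR₁.1
  obtain ⟨r, u, P, N, A, A', B, B', hadm, hP, hN, hlt⟩ := h
  have hPf : ∀ i, FiniteDimensional ℚ (P i) := fun i => fd_of_le (hadm.1 i).2
  have hNf : ∀ j, FiniteDimensional ℚ (N j) := fun j => fd_of_le (hadm.2.1 j).2
  refine ⟨r, u, fun i => sb k (P i), fun j => sb k (N j), A, A', B, B', ?_, ?_,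
    fun T _ _ a ha => wts hG hadm T a ha, ?_⟩
  · intro i
    have := hPf i
    refine ⟨sb_mono (hadm.1 i).2, not_dvd_rel' hG hpK, ?_, fun C' hC' => ?_⟩
    · rw [sb_inf]
      exact (rk_iff ((hadm.1 i).1.trans le_sup_left) _).2 (hP i).1
    · rw [sb_inf] at hC'
      exact (hP i).2 C' ((rk_iff ((hadm.1 i).1.trans le_sup_left) _).1 hC')
  · intro j
    have := hNf j
    refine ⟨sb_mono (hadm.2.1 j).2, not_dvd_rel' hG hpK, fun C' hC' => ?_, ?_⟩
    · rw [sb_inf] at hC'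
      exact (hN j).1 C' ((rk_iff ((hadm.2.1 j).1.trans le_sup_left) _).1 hC')
    · rw [sb_inf]
      exact (rk_iff ((hadm.2.1 j).1.trans le_sup_left) _).2 (hN j).2
  · simp only [hτ] at hlt
    rw [rel_dg hG hR, rel_dg hG hR₁]
    exact hlt

omit [FiniteDimensional ℚ k] [FiniteDimensional ℚ K] in
/-- The number of ramified copies. -/
theorem mlt_of' {m' t : ℕ} {R' : Fl} (hR' : Layer p m' R') {S : Type} [CommGroup S] [Finite S]
    (b : k.fixingSubgroup →* MulAut S) [Module (ZMod p) (Additive S)] (τ : Rp p k (Additive S))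
    (hτ : ∀ g (v : S), τ g (Additive.ofMul v) = Additive.ofMul (b g v))
    (h : SplitLe τ t) : Mlt (lc p s k) (sb k R') b t := by
  obtain ⟨g1, g2⟩ := transl b τ hτ
  obtain ⟨a, B, hB, hlt⟩ := h m' R' hR'
  refine ⟨a, fun i => Sum.inl (B i), ?_, ?_⟩
  · rintro (A | w)
    · by_cases hpA : (p : Qb) ∈ A.nonunits
      · right
        by_cases hs : nAt τ A = 1
        · left
          rw [g1] at hs
          exact fx_eq_bot.2 hs
        · right
          obtain ⟨i, g, hg, hgB⟩ := hB A hpA hs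
          have hgk : g ∈ k.fixingSubgroup := fixingSubgroup_le le_sup_left hg
          refine ⟨i, ⟨g, hgk⟩, fixingSubgroup_le le_sup_right hg, ?_⟩
          show Sum.inl (g • A) = Sum.inl (B i)
          congr 1
          ext z
          rw [ValuationSubring.mem_pointwise_smul_iff_inv_smul_mem, ← hgB]
          have h3 : im g (g⁻¹ • z) = z := by
            show (g * g⁻¹) z = z
            rw [mul_inv_cancel]
            rfl
          rw [h3]
      · left
        intro g hg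
        have h4 : (g : Gal(Qb/ℚ)) ∈ locFin p s A := hg
        unfold locFin at h4
        rw [if_neg (fun h => hpA h.2)] at h4
        exact inertia_le_layer hp.out hR'.1 hpA h4
    · left
      intro g hg
      exact stab_le_layer hR' w hg
  · simp only [g1, g2] at hlt
    exact hlt

/-- Total ramification. -/
theorem rm_of' (h2 : InertiaT) (hG : IsGaloisOver k K) (hpK : ¬ p ∣ rdeg k K) {m₁ m' : ℕ}
    {R₁ R' : Fl} (hR₁ : Layer p m₁ R₁) (hR' : Layer p m' R') (hRR : R₁ ≤ R')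
    (hdeg : deg k < p * deg R₁) : Rm (lc p s k) (sb k K) (sb k R₁) (sb k R') := by
  have h3 : ∀ A : ValuationSubring Qb, (p : Qb) ∈ A.nonunits →
      ∀ x ∈ sb k K ⊓ sb k R₁, ∃ w ∈ lc p s k (Sum.inl A) ⊓ (sb k K ⊓ sb k R₁),
        x * w⁻¹ ∈ sb k R' := by
    rintro A hA x ⟨hxK, hxR⟩
    obtain ⟨w, hw, hwK, hwR, hxw⟩ := total h2 hG.1 hG.2 hpK hR₁ hR' hRR hdeg hA hxR
    exact ⟨⟨w, fixingSubgroup_le hG.1 hwK⟩, ⟨inertia_le_locFin p s A hw, hwK, hwR⟩, hxw⟩
  refine ⟨?_, ?_⟩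
  · rintro (A | w)
    · by_cases hpA : (p : Qb) ∈ A.nonunits
      · exact Or.inr (h3 A hpA)
      · left
        intro g hg
        have h4 : (g : Gal(Qb/ℚ)) ∈ locFin p s A := hg
        unfold locFin at h4
        rw [if_neg (fun h => hpA h.2)] at h4
        exact inertia_le_layer hp.out hR'.1 hpA h4
    · left
      intro g hg
      exact stab_le_layer hR' w hg
  · obtain ⟨A, hA⟩ := exists_above hp.out
    exact ⟨Sum.inl A, h3 A hA⟩

/-- The criterion for a module, in terms of groups. -/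
def Gq (p : ℕ) (s : Bool) (k K : Fl) {S : Type} [CommGroup S] (b : k.fixingSubgroup →* MulAut S)
    (D : Subgroup k.fixingSubgroup) : Prop :=
  (∃ t, (∀ m' R', Layer p m' R' → Mlt (lc p s k) (sb k R') b t) ∧
    Crt p (lc p s k) (sb k K) D b t) ∨
  ∃ m₁ R₁, Layer p m₁ R₁ ∧ deg k < p * deg R₁ ∧ D ≤ sb k R₁ ∧
    Cr2 p (lc p s k) (sb k K) (sb k R₁) D b

/-- The general bound in terms of groups. -/
theorem gen_bound (h1 : OnePrimeT) (h2 : InertiaT) (hG : IsGaloisOver k K)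
    (hpK : ¬ p ∣ rdeg k K) {F : Fl} (hkF : k ≤ F) (hFK : F ≤ K) (T : Finset Fl) (hne : T.Nonempty)
    (hT : ∀ E ∈ T, k ≤ E ∧ E ≤ K) {m₀ m' : ℕ} {R₀ R' : Fl}
    (hR₀ : Layer p m₀ R₀) (hR' : Layer p m' R') (hRR : R₀ ≤ R')
    (hcrit : ∀ (S : Type) [CommGroup S] [Finite S] (b : k.fixingSubgroup →* MulAut S),
      Simp p (sb k K) b → (∀ E ∈ T, fx b (sb k E) = ⊥) → fx b (sb k F) ≠ ⊥ →
      ∃ m R, Layer p m R ∧ sb k R₀ ≤ sb k R ∧ Gq p s k K b (sb k R))
    {C₀ : ℕ} (hC₀ : RkLe p s (F ⊔ R₀) C₀) (c : Fl → ℕ)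
    (hc : ∀ E ∈ T, RkLe p s (E ⊔ R') (c E)) :
    RkLe p s (F ⊔ R') (C₀ * p ^ deg K * ∏ E ∈ T, c E ^ rdeg k E) := by
  classical
  have hfR₀ := layer_fd hp.out hR₀.1
  have hfR' := layer_fd hp.out hR'.1
  have hfF : FiniteDimensional ℚ F := fd_of_le hFK
  have hkK := hG.1
  have hEf : ∀ E ∈ T, FiniteDimensional ℚ E := fun E hE => fd_of_le (hT E hE).2
  obtain ⟨a₀, ha₀⟩ := layer_sb_index (k := k) hR₀
  obtain ⟨a', ha'⟩ := layer_sb_index (k := k) hR'
  have hKnor : (sb k K).Normal := sb_normal hG.2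
  have hinj : ∀ E ∈ T, ∀ E' ∈ T, sb k E = sb k E' → E = E' := fun E hE E' hE' h =>
    sb_inj (hT E hE).1 (hT E' hE').1 h
  let cc : Subgroup k.fixingSubgroup → ℕ := fun H => c (fixedField (H.map k.fixingSubgroup.subtype))
  have hcc : ∀ E ∈ T, cc (sb k E) = c E := by
    intro E hE
    show c (fixedField ((sb k E).map k.fixingSubgroup.subtype)) = c E
    unfold sb
    rw [Subgroup.subgroupOf_map_subtype, inf_eq_left.2 (fixingSubgroup_le (hT E hE).1),
      InfiniteGalois.fixedField_fixingSubgroup]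
  rw [← rk_iff (hkF.trans le_sup_left), ← sb_inf] at hC₀ ⊢
  have hprod : ∏ E ∈ T.image (sb k), cc E ^ E.index = ∏ E ∈ T, c E ^ rdeg k E := by
    rw [Finset.prod_image fun E hE E' hE' h => hinj E hE E' hE' h]
    refine Finset.prod_congr rfl fun E hE => ?_
    have := hEf E hE
    rw [hcc E hE, index_sb (hT E hE).1]
  have hdegK : deg K = deg k * (sb k K).index := by
    rw [index_sb hkK]
    have h3 := Subgroup.relIndex_mul_index (fixingSubgroup_le hkK)
    rw [← finrank_eq_fixingSubgroup_index Qb K, ← finrank_eq_fixingSubgroup_index Qb k,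
      relIndex_fix hkK, mul_comm] at h3
    exact h3.symm
  rw [← hprod, hdegK]
  obtain ⟨𝒜, h𝒜⟩ := exists_fam (k := k) h1 hR'
  refine main' (I := lc p s k) lc_conj hKnor (layer_sb_normal hR₀) (layer_sb_normal hR')
    (sb_mono hRR) (sb_index_ne hkK) sb_open sb_open (not_dvd_rel' hG hpK) ha₀ ha'
    (layer_sb_cyc hR') (sb_mono hFK) (T.image (sb k)) ?_ (fun i => Sum.inl (𝒜 i)) ?_ ?_ hC₀ cc ?_
  · intro E' hE'
    obtain ⟨E, hE, rfl⟩ := Finset.mem_image.1 hE'
    exact sb_mono (hT E hE).2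
  · rintro (A | w)
    · by_cases hpA : (p : Qb) ∈ A.nonunits
      · right
        obtain ⟨i, g, hgk, hgR, hgA⟩ := h𝒜 A hpA
        exact ⟨i, ⟨g, hgk⟩, hgR, congrArg Sum.inl hgA⟩
      · left
        intro g hg
        have h4 : (g : Gal(Qb/ℚ)) ∈ locFin p s A := hg
        unfold locFin at h4
        rw [if_neg (fun h => hpA h.2)] at h4
        exact inertia_le_layer hp.out hR'.1 hpA h4
    · left
      intro g hg
      exact stab_le_layer hR' w hg
  · intro S _ _ b hb hbE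
    have hbE' : ∀ E ∈ T, fx b (sb k E) = ⊥ := fun E hE => hbE _ (Finset.mem_image_of_mem _ hE)
    refine ⟨?_, fun hF => ?_⟩
    · obtain ⟨E, hE⟩ := hne
      rw [eq_bot_iff, ← hbE' E hE]
      exact fun v hv g _ => hv g trivial
    · obtain ⟨m, R, hR, hle, ⟨t, ht, hcr⟩ | ⟨m₁, R₁, hR₁, hdeg, hDD, hcr⟩⟩ := hcrit S b hb hbE' hF
      · left
        exact ⟨t, ht m' R' hR', sb k R, layer_sb_normal hR, hle, layer_sb_index hR, hcr⟩
      · right
        have hfR := layer_fd hp.out hR.1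
        have hfR₁ := layer_fd hp.out hR₁.1
        refine ⟨sb k R₁, sb k R, layer_sb_normal hR₁, layer_sb_normal hR, sb_open, hle,
          hDD, layer_sb_index hR₁, layer_sb_index hR, ?_, hcr⟩
        obtain ⟨m'', hR''⟩ := hR₁.sup hR'
        have h5 := rm_of' (s := s) h2 hG hpK hR₁ hR'' le_sup_left hdeg
        have h6 : sb k (R₁ ⊔ R') = sb k R' := by
          rw [← sb_inf]
          exact inf_eq_right.2 (((sb_mono hRR).trans hle).trans hDD)
        rwa [h6] at h5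
  · intro E' hE'
    obtain ⟨E, hE, rfl⟩ := Finset.mem_image.1 hE'
    have := hEf E hE
    rw [hcc E hE, sb_inf]
    exact (rk_iff ((hT E hE).1.trans le_sup_left) _).2 (hc E hE)

theorem Gq.congr {S S' : Type} [CommGroup S] [CommGroup S'] [Finite S] [Finite S']
    (b : k.fixingSubgroup →* MulAut S) (b' : k.fixingSubgroup →* MulAut S')
    (h : Same (sb k K) b b') (D : Subgroup k.fixingSubgroup) (hg : Gq p s k K b D) :
    Gq p s k K b' D := by
  rcases hg with ⟨t, ht, hcr⟩ | ⟨m₁, R₁, hR₁, hdeg, hD, hcr⟩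
  · exact Or.inl ⟨t, fun m' R' hR' => (ht m' R' hR').congr h, hcr.congr h⟩
  · exact Or.inr ⟨m₁, R₁, hR₁, hdeg, hD, hcr.congr h⟩

/-- From fields to groups. -/
theorem gq_of (hG : IsGaloisOver k K) (hpK : ¬ p ∣ rdeg k K) {R₀ : Fl} {S : Type} [CommGroup S]
    [Finite S] (b : k.fixingSubgroup →* MulAut S) [Module (ZMod p) (Additive S)]
    (τ : Rp p k (Additive S))
    (hτ : ∀ g (v : S), τ g (Additive.ofMul v) = Additive.ofMul (b g v))
    (hfix : ∀ E, nfix τ E = Nat.card (fx b (sb k E))) (h : Good s K R₀ τ) :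
    ∃ m R, Layer p m R ∧ R ≤ R₀ ∧ Gq p s k K b (sb k R) := by
  rcases h with ⟨t, ht, m, R, hR, hRR₀, hone⟩ | ⟨m₁, R₁, m, R, hR₁, hR, hR₁R, hRR₀, hdeg, htwo⟩
  · exact ⟨m, R, hR, hRR₀, Or.inl ⟨t, fun m' R' hR' => mlt_of' hR' b τ hτ ht,
      crt_of' hG hpK hR b τ hfix hone⟩⟩
  · exact ⟨m, R, hR, hRR₀, Or.inr ⟨m₁, R₁, hR₁, hdeg, sb_mono hR₁R,
      cr2_of' hG hpK hR hR₁ b τ hfix htwo⟩⟩

/-- **The bound.** -/
theorem bound_gen (h1 : OnePrimeT) (h2 : InertiaT) (hG : IsGaloisOver k K)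
    (hpK : ¬ p ∣ rdeg k K) {F : Fl} (hkF : k ≤ F) (hFK : F ≤ K) (T : Finset Fl) (hne : T.Nonempty)
    (hT : ∀ E ∈ T, k ≤ E ∧ E ≤ K) {m₀ m' : ℕ} {R₀ R' : Fl}
    (hR₀ : Layer p m₀ R₀) (hR' : Layer p m' R') (hRR : R₀ ≤ R')
    (hcrit : ∀ (S : Type) [AddCommGroup S] [Module (ZMod p) S] [Module.Finite (ZMod p) S]
      (τ : Rp p k S), Relevant F K T τ → Good s K R₀ τ)
    {C₀ : ℕ} (hC₀ : RkLe p s (F ⊔ R₀) C₀) (c : Fl → ℕ)
    (hc : ∀ E ∈ T, RkLe p s (E ⊔ R') (c E)) :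
    RkLe p s (F ⊔ R') (C₀ * p ^ deg K * ∏ E ∈ T, c E ^ rdeg k E) := by
  refine gen_bound h1 h2 hG hpK hkF hFK T hne hT hR₀ hR' hRR ?_ hC₀ c hc
  intro S _ _ b hb hbE hbF
  obtain ⟨i1, i2, τ, g1, g2, g3⟩ := exists_rep_add b hb
  obtain ⟨m, R, hR, hle, hg⟩ := gq_of hG hpK b τ g2 g3 (hcrit (Additive S) τ ⟨g1, fun E hE => by
    rw [g3, ← fx_eq_bot]
    exact hbE E hE, by
    rw [g3, Ne, ← fx_eq_bot]
    exact hbF⟩)
  exact ⟨m, R, hR, sb_mono hle, hg⟩

/-- **Sufficiency.** -/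
theorem suff_gen (h1 : OnePrimeT) (h2 : InertiaT) (hG : IsGaloisOver k K)
    (hpK : ¬ p ∣ rdeg k K) {F : Fl} (hkF : k ≤ F) (hFK : F ≤ K) (T : Finset Fl) (hne : T.Nonempty)
    (hT : ∀ E ∈ T, k ≤ E ∧ E ≤ K) (hmu : ∀ E ∈ T, MuVanishes p s E)
    (hcrit : ∀ (S : Type) [AddCommGroup S] [Module (ZMod p) S] [Module.Finite (ZMod p) S]
      (τ : Rp p k S), Relevant F K T τ → ∃ m₀ R₀, Layer p m₀ R₀ ∧ Good s K R₀ τ) :
    MuVanishes p s F := by
  classical
  have hfF : FiniteDimensional ℚ F := fd_of_le hFK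
  have hKnor : (sb k K).Normal := sb_normal hG.2
  obtain ⟨D₀, ⟨m₀, R₀, hR₀, rfl⟩, hD₀⟩ := exists_level' hp.out hKnor (sb_index_ne hG.1)
    (fun S _ b => (∀ E ∈ T, fx b (sb k E) = ⊥) ∧ fx b (sb k F) ≠ ⊥)
    (fun S _ b D => Gq p s k K b D)
    (fun S S' _ _ _ _ b b' h D hg => Gq.congr b b' h D hg)
    {D | ∃ m R, Layer p m R ∧ D = sb k R} ⟨_, 0, ⊥, layer_zero, rfl⟩
    (by
      rintro _ ⟨m, R, hR, rfl⟩ _ ⟨m', R', hR', rfl⟩
      obtain ⟨m'', hR''⟩ := hR.sup hR'
      exact ⟨m'', R ⊔ R', hR'', sb_inf k R R'⟩)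
    (by
      rintro S _ _ b hb ⟨hE', hF'⟩
      obtain ⟨i1, i2, τ, g1, g2, g3⟩ := exists_rep_add b hb
      obtain ⟨m₀, R₀, hR₀, hgood⟩ := hcrit (Additive S) τ ⟨g1, fun E hE => by
        rw [g3, ← fx_eq_bot]
        exact hE' E hE, by
        rw [g3, Ne, ← fx_eq_bot]
        exact hF'⟩
      obtain ⟨m, R, hR, hle, hg⟩ := gq_of hG hpK b τ g2 g3 hgood
      exact ⟨sb k R, ⟨m, R, hR, rfl⟩, hg⟩)
  have hfR₀ := layer_fd hp.out hR₀.1
  obtain ⟨C₀, hC₀⟩ := rank_finite (p := p) s (F ⊔ R₀)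
  choose! c hc using hmu
  refine mu_above hR₀ ⟨C₀ * p ^ deg K * ∏ E ∈ T, c E ^ rdeg k E, fun m' R' hR' hRR => ?_⟩
  refine gen_bound h1 h2 hG hpK hkF hFK T hne hT hR₀ hR' hRR ?_ hC₀ c
    (fun E hE => hc E hE m' R' hR')
  intro S _ _ b hb hE' hF'
  obtain ⟨_, ⟨m, R, hR, rfl⟩, hle, hcr⟩ := hD₀ S b hb ⟨hE', hF'⟩
  exact ⟨m, R, hR, hle, hcr⟩

omit [FiniteDimensional ℚ k] in
/-- **Necessity.** -/
theorem nec_gen (hG : IsGaloisOver k K) {F : Fl} (hkF : k ≤ F) (hFK : F ≤ K)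
    (h : MuVanishes p s F) {S : Type} [AddCommGroup S] [Module (ZMod p) S]
    [Module.Finite (ZMod p) S] (τ : Rp p k S) (hF : nfix τ F ≠ 1) :
    ∃ m₀ R₀, Layer p m₀ R₀ ∧ Good s K R₀ τ := by
  have hfk : FiniteDimensional ℚ k := fd_of_le hG.1
  have hfF : FiniteDimensional ℚ F := fd_of_le hFK
  obtain ⟨B, hB⟩ := h
  obtain ⟨R₁, hR₁⟩ := exists_layer hp.out (deg k)
  have hfR₁ := layer_fd hp.out hR₁.1
  obtain ⟨R₂, hR₂⟩ := exists_layer hp.out (finrank ℚ K * (B + rdeg K (K ⊔ R₁)))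
  obtain ⟨m, hR⟩ := hR₁.sup hR₂
  set R := R₁ ⊔ R₂ with hRdef
  have hfR := layer_fd hp.out hR.1
  have h3 : B + rdeg K (K ⊔ R₁) ≤ rdeg K (K ⊔ R) := by
    show B + rdeg K (K ⊔ R₁) ≤ finrank ℚ ↥(K ⊔ R) / finrank ℚ K
    rw [Nat.le_div_iff_mul_le finrank_pos]
    have h2 : finrank ℚ R₂ ≤ finrank ℚ ↥(K ⊔ R) :=
      IntermediateField.finrank_le_of_le_right (le_sup_right.trans le_sup_right)
    have h0 : finrank ℚ R₂ = p ^ (finrank ℚ K * (B + rdeg K (K ⊔ R₁))) := hR₂.1.1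
    rw [h0] at h2
    have h3 : finrank ℚ K * (B + rdeg K (K ⊔ R₁)) <
        p ^ (finrank ℚ K * (B + rdeg K (K ⊔ R₁))) := Nat.lt_pow_self hp.out.one_lt
    calc (B + rdeg K (K ⊔ R₁)) * finrank ℚ K = finrank ℚ K * (B + rdeg K (K ⊔ R₁)) := mul_comm _ _
      _ ≤ _ := h3.le.trans h2
  have hpos := nfix_pos τ F
  refine ⟨m, R, hR, Or.inr ⟨_, R₁, m, R, hR₁, hR, le_sup_left, le_rfl, ?_, 1, 0, fun _ => F,
    Fin.elim0, fun _ => B, fun _ => 1, Fin.elim0, Fin.elim0,
    ⟨fun _ => ⟨hkF, hFK⟩, fun j => j.elim0, ?_⟩, fun _ => ⟨hB _ R hR, fun C hC => ?_⟩,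
    fun j => j.elim0, ?_⟩⟩
  · have h0 : deg R₁ = p ^ deg k := hR₁.1.1
    rw [h0]
    calc deg k < p ^ deg k := Nat.lt_pow_self hp.out.one_lt
      _ ≤ p * p ^ deg k := Nat.le_mul_of_pos_left _ hp.out.pos
  · intro T _ _ _ σ _
    simp only [Finset.univ_unique, Finset.prod_const, Finset.card_singleton, pow_one,
      Finset.univ_eq_empty, Finset.prod_empty]
    exact nfix_pos σ F
  · rcases Nat.eq_zero_or_pos C with h0 | h0
    · exfalso
      subst h0
      have h4 := (rkLe_iff (F ⊔ R₁) 0).2 hC (F ⊔ R₁).fixingSubgroup le_rfl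
        (F ⊔ R₁).fixingSubgroup_isOpen (by
          rw [Subgroup.relIndex_self]
          exact one_ne_zero) gens_subset
      rw [Subgroup.relIndex_self] at h4
      omega
    · exact h0
  · simp only [Finset.univ_unique, Finset.prod_const, Finset.card_singleton, pow_one,
      Finset.univ_eq_empty, Finset.prod_empty, one_pow, mul_one, one_mul]
    have h4 : B ≤ rdeg K (K ⊔ R) - rdeg K (K ⊔ R₁) := by omega
    calc B < 2 ^ B := Nat.lt_pow_self (by norm_num)
      _ ≤ 2 ^ (rdeg K (K ⊔ R) - rdeg K (K ⊔ R₁)) := Nat.pow_le_pow_right (by norm_num) h4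
      _ ≤ _ := Nat.pow_le_pow_left (by omega) _

end

end Pool.Agent.J6H71.Mu
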