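import Pool.Agent.J6H71.Mu.Cor

/-!
# The criterion with two layers
-/

set_option autoImplicit false

namespace Pool.Agent.J6H71.Mu

open Subgroup Pool.Agent.Q60.MU Pool.Agent.W5h77.MB Pool.Agent.W5h33.DF Pool.Agent.J6H14.DMu
open scoped commutatorElement

variable {𝔾 : Type} [Group 𝔾]

/-- the criterion for the module `b` at the layers `D` and `D₁` -/
def Cr2 [TopologicalSpace 𝔾] (p : ℕ) {Ω : Type} (I : Ω → Subgroup 𝔾) (K D₁ D : Subgroup 𝔾) {S : Type}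
    [CommGroup S] (b : 𝔾 →* MulAut S) : Prop :=
  ∃ (r s : ℕ) (P : Fin r → Subgroup 𝔾) (N : Fin s → Subgroup 𝔾) (C C' : Fin r → ℕ)
    (c c' : Fin s → ℕ),
    (∀ i, K ≤ P i ∧ ¬ p ∣ K.relIndex (P i) ∧ RankLe p I (P i ⊓ D) (C i) ∧
      ∀ B, RankLe p I (P i ⊓ D₁) B → C' i ≤ B) ∧
    (∀ j, K ≤ N j ∧ ¬ p ∣ K.relIndex (N j) ∧ (∀ B, RankLe p I (N j ⊓ D) B → c j ≤ B) ∧
      RankLe p I (N j ⊓ D₁) (c' j)) ∧
    (∀ (T : Type) [CommGroup T] [Finite T] (a : 𝔾 →* MulAut T), Simp p K a →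
      ∏ j, Nat.card (fx a (N j)) ≤ ∏ i, Nat.card (fx a (P i))) ∧
    (∏ i, C i) * (∏ j, c' j) *
        (∏ j, Nat.card (fx b (N j))) ^ (D.relIndex K - D₁.relIndex K) <
      (∏ j, c j) * (∏ i, C' i) *
        (∏ i, Nat.card (fx b (P i))) ^ (D.relIndex K - D₁.relIndex K)

theorem fil_comap {V V' : Type} [CommGroup V] [CommGroup V'] (π : V' →* V)
    (hπ : Function.Surjective π) {φ : V →* V} {φ' : V' →* V'} (h : ∀ v, π (φ' v) = φ (π v))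
    (U : Subgroup V) (n : ℕ) : fil (U.comap π) φ' n = (fil U φ n).comap π := by
  induction n with
  | zero => rfl
  | succ n ih =>
    apply le_antisymm
    · rw [fil_succ, fil_succ, ih]
      refine sup_le (comap_mono le_sup_left) ?_
      rintro _ ⟨v, hv, rfl⟩
      show π (φ' v) ∈ U ⊔ (fil U φ n).map φ
      rw [h]
      exact mem_sup_right ⟨π v, hv, rfl⟩
    · intro x hx
      have hx' : π x ∈ U ⊔ (fil U φ n).map φ := hx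
      rw [mem_sup] at hx'
      obtain ⟨u, hu, _, ⟨w, hw, rfl⟩, huw⟩ := hx'
      obtain ⟨w', rfl⟩ := hπ w
      have h1 : x = (x * (φ' w')⁻¹) * φ' w' := by rw [inv_mul_cancel_right]
      rw [h1, fil_succ, ih]
      refine Subgroup.mul_mem _ (mem_sup_left ?_) (mem_sup_right ⟨w', hw, rfl⟩)
      show π (x * (φ' w')⁻¹) ∈ U
      rw [map_mul, map_inv, h, ← huw, mul_inv_cancel_right]
      exact hu

theorem kills2 [TopologicalSpace 𝔾] [ContinuousMul 𝔾] {p : ℕ} [hp : Fact p.Prime]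
    {Ω : Type} [MulAction 𝔾 Ω] {I : Ω → Subgroup 𝔾}
    (hI : ∀ (g : 𝔾) (w : Ω), ∀ x ∈ I w, g * x * g⁻¹ ∈ I (g • w))
    {K D₁ D D' : Subgroup 𝔾} (hKn : K.Normal) (hD₁n : D₁.Normal) (hDn : D.Normal)
    (hD'n : D'.Normal) (hKo : IsOpen (K : Set 𝔾)) (hD₁o : IsOpen (D₁ : Set 𝔾))
    (hDD : D' ≤ D) (hDD₁ : D ≤ D₁) (hK0 : K.index ≠ 0)
    (hKp : ¬ p ∣ K.relIndex ⊤) {m₁ m m' : ℕ} (hD₁i : D₁.index = p ^ m₁) (hDi : D.index = p ^ m)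
    (hD'i : D'.index = p ^ m') (hσ : ∃ σ : 𝔾, ∀ τ, ∃ i : ℤ, τ * (σ ^ i)⁻¹ ∈ D') {γ : 𝔾} (hγK : γ ∈ K)
    (hγ : ∀ τ ∈ K, ∃ i : ℤ, τ * (γ ^ i)⁻¹ ∈ D')
    -- the ramification
    (hram : ∀ A, I A ≤ D' ∨ ∃ w ∈ I A ⊓ (K ⊓ D₁), w * (γ ^ D₁.relIndex K)⁻¹ ∈ D')
    (hex : ∃ A, ∃ w ∈ I A ⊓ (K ⊓ D₁), w * (γ ^ D₁.relIndex K)⁻¹ ∈ D')
    -- the module
    {Q : Subgroup 𝔾} (hQn : Q.Normal) (hQ : Q ≤ K ⊓ D') (hQo : IsOpen (Q : Set 𝔾))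
    (hQf : Q.relIndex (K ⊓ D') ≠ 0)
    (hgQ : gens p I (K ⊓ D') ⊆ Q) {V : Type} [CommGroup V] [Finite V]
    (ρ : 𝔾 →* MulAut V) (θ : ↥(K ⊓ D') →* V) (hθ : Function.Surjective θ)
    (hθ1 : ∀ x, θ x = 1 ↔ (x : 𝔾) ∈ Q)
    (hθρ : ∀ (g : 𝔾) (x : ↥(K ⊓ D')) (h : g * x * g⁻¹ ∈ K ⊓ D'), ρ g (θ x) = θ ⟨g * x * g⁻¹, h⟩)
    {U : Subgroup V} (hU : ∀ g, ∀ v ∈ U, ρ g v ∈ U)
    (hT1 : ∀ T : Subgroup V, (∀ g, ∀ v ∈ T, ρ g v ∈ T) → U ≤ T → ∀ v,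
      (∀ z ∈ D', ρ z v * v⁻¹ ∈ T) → v ∈ T)
    -- the simple module
    {S : Type} [CommGroup S] [Finite S] (b : 𝔾 →* MulAut S) (hS : Simp p K b)
    (hcrit : Cr2 p I K D₁ D b) {n₀ : ℕ} (hn₀ : D.relIndex K ≤ n₀ + 1) {T₁ T₂ : Subgroup V}
    (h1 : ∀ g, ∀ v ∈ T₁, ρ g v ∈ T₁)
    (h2 : ∀ g, ∀ v ∈ T₂, ρ g v ∈ T₂) (hle : fil U (phi ρ γ) (n₀ + 1) ≤ T₂) (hlt : T₂ ≤ T₁)
    (hle' : T₁ ≤ fil U (phi ρ γ) n₀) (f : T₁ →* S) (hf : Function.Surjective f)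
    (hf1 : ∀ v, f v = 1 ↔ (v : V) ∈ T₂)
    (hf2 : ∀ g (v : T₁) (hv : ρ g v ∈ T₁), f ⟨ρ g v, hv⟩ = b g (f v)) : False := by
  classical
  have hD0 : D.index ≠ 0 := by
    rw [hDi]
    exact (pow_pos hp.out.pos m).ne'
  have hD₁0 : D₁.index ≠ 0 := by
    rw [hD₁i]
    exact (pow_pos hp.out.pos m₁).ne'
  have hD'0 : D'.index ≠ 0 := by
    rw [hD'i]
    exact (pow_pos hp.out.pos m').ne'
  have h𝒦'n : (K ⊓ D').Normal := normal_inf_normal K D'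
  have h𝒦₁n : (K ⊓ D₁).Normal := normal_inf_normal K D₁
  have hKK₁ : K ⊓ D' ≤ K ⊓ D₁ := inf_le_inf_left K (hDD.trans hDD₁)
  obtain ⟨r, s, P, N, C, C', c, c', hP, hNc, hPN, hlt'⟩ := hcrit
  -- the module of the lowest layer
  have hM : ∀ i, ∃ M : Subgroup 𝔾, M ≤ P i ⊓ D₁ ∧ IsOpen (M : Set 𝔾) ∧ M.relIndex (P i ⊓ D₁) ≠ 0 ∧
      gens p I (P i ⊓ D₁) ⊆ M ∧ C' i ≤ M.relIndex (P i ⊓ D₁) := by
    intro i
    by_contra hcon2
    rcases Nat.eq_zero_or_pos (C' i) with h0 | h0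
    · refine hcon2 ⟨P i ⊓ D₁, le_rfl, Subgroup.isOpen_mono ?_ hQo, ?_, gens_subset, ?_⟩
      · exact hQ.trans (inf_le_inf (hP i).1 (hDD.trans hDD₁))
      · rw [relIndex_self]
        exact one_ne_zero
      · rw [h0]
        exact Nat.zero_le _
    · have h1 : RankLe p I (P i ⊓ D₁) (C' i - 1) := by
        intro M h1 h2 h3 h4
        by_contra h5
        exact hcon2 ⟨M, h1, h2, h3, h4, by omega⟩
      have h2 := (hP i).2.2.2 _ h1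
      omega
  choose M hM1 hM2 hM3 hM4 hM5 using hM
  have hPi0 : ∀ i, (P i).index ≠ 0 := by
    intro i h
    have h2 := index_dvd_of_le (hP i).1
    rw [h] at h2
    exact hK0 (Nat.eq_zero_of_zero_dvd h2)
  have hMi0 : (⨅ i, M i).index ≠ 0 := index_iInf_ne_zero fun i => by
    rw [← relIndex_mul_index (hM1 i)]
    exact mul_ne_zero (hM3 i) (index_inf_ne_zero (hPi0 i) hD₁0)
  have hW₁0 : ((K ⊓ D₁) ⊓ ⨅ i, M i).index ≠ 0 :=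
    index_inf_ne_zero (index_inf_ne_zero hK0 hD₁0) hMi0
  obtain ⟨R₁, hR₁W, hR₁o, hR₁f, hgR₁, hR₁n'⟩ := exists_core hI (K := K ⊓ D₁) (D := ⊤)
    (W := (K ⊓ D₁) ⊓ ⨅ i, M i)
    (fun d _ x hx => h𝒦₁n.conj_mem x hx d)
    (by
      rw [relIndex_top_right]
      exact index_inf_ne_zero hK0 hD₁0) inf_le_left (by
      rw [coe_inf, coe_inf, coe_iInf]
      exact (hKo.inter hD₁o).inter (isOpen_iInter_of_finite fun i => hM2 i)) (by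
      intro h
      have h1 := relIndex_mul_index (inf_le_left : (K ⊓ D₁) ⊓ ⨅ i, M i ≤ K ⊓ D₁)
      rw [h, zero_mul] at h1
      exact hW₁0 h1.symm) (by
      intro x hx
      exact ⟨gens_subset hx,
        mem_iInf.2 fun i => hM4 i (gens_mono (inf_le_inf_right D₁ (hP i).1) hx)⟩)
  have hR₁K : R₁ ≤ K ⊓ D₁ := hR₁W.trans inf_le_left
  have hR₁n : R₁.Normal := ⟨fun x hx g => hR₁n' g trivial x hx⟩
  obtain ⟨Y₁, iY₁, σ₁, ψ₁, hY₁fin, hY₁, hψ₁, hψ₁1, hψ₁σ, hσ₁, -, hup₁, hlow₁⟩ :=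
    exists_module (I := I) hKn hD₁n hR₁n hR₁K hR₁o hR₁f hgR₁
  have hR₁0 : R₁.index ≠ 0 := by
    rw [← relIndex_mul_index hR₁K]
    exact mul_ne_zero hR₁f (index_inf_ne_zero hK0 hD₁0)
  -- the larger module of the layer `D'`
  have hQ0 : Q.index ≠ 0 := by
    rw [← relIndex_mul_index hQ]
    exact mul_ne_zero hQf (index_inf_ne_zero hK0 hD'0)
  have hQ'n : (Q ⊓ R₁).Normal := normal_inf_normal Q R₁
  have hQ'o : IsOpen ((Q ⊓ R₁ : Subgroup 𝔾) : Set 𝔾) := by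
    rw [coe_inf]
    exact hQo.inter hR₁o
  have hQ'K : Q ⊓ R₁ ≤ K ⊓ D' := inf_le_left.trans hQ
  have hQ'f : (Q ⊓ R₁).relIndex (K ⊓ D') ≠ 0 := by
    intro h
    have h1 := relIndex_mul_index hQ'K
    rw [h, zero_mul] at h1
    exact index_inf_ne_zero hQ0 hR₁0 h1.symm
  have hgQ' : gens p I (K ⊓ D') ⊆ (Q ⊓ R₁ : Subgroup 𝔾) := fun x hx =>
    ⟨hgQ hx, hgR₁ (gens_mono hKK₁ hx)⟩
  obtain ⟨V', iV', ρ', θ', hV'fin, hV', hθ', hθ'1, hθ'ρ, htriv', -, -, -⟩ :=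
    exists_module (I := I) hKn hD'n hQ'n hQ'K hQ'o hQ'f hgQ'
  obtain ⟨π, hπ⟩ : ∃ π : V' →* V, ∀ x, π (θ' x) = θ x := by
    have hker : θ'.ker ≤ θ.ker := by
      intro x hx
      show θ x = 1
      rw [hθ1]
      exact ((hθ'1 x).1 hx).1
    exact ⟨θ'.liftOfSurjective hθ' ⟨θ, hker⟩, fun x =>
      MonoidHom.liftOfRightInverse_comp_apply θ' _ _ ⟨θ, hker⟩ x⟩
  have hπs : Function.Surjective π := by
    intro v
    obtain ⟨x, rfl⟩ := hθ v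
    exact ⟨θ' x, hπ x⟩
  have hπe : ∀ g v, π (ρ' g v) = ρ g (π v) := by
    intro g v
    obtain ⟨x, rfl⟩ := hθ' v
    rw [hθ'ρ g x (h𝒦'n.conj_mem x x.2 g), hπ, hπ, hθρ g x (h𝒦'n.conj_mem x x.2 g)]
  have hπφ : ∀ v, π (phi ρ' γ v) = phi ρ γ (π v) := by
    intro v
    rw [phi_apply, phi_apply, map_mul, map_inv, hπe]
  have hcs : ∀ T : Subgroup V, (∀ g, ∀ v ∈ T, ρ g v ∈ T) → ∀ g, ∀ v ∈ T.comap π, ρ' g v ∈ T.comap π := by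
    intro T hT g v hv
    show π (ρ' g v) ∈ T
    rw [hπe]
    exact hT g _ hv
  have hT1' : ∀ T : Subgroup V', (∀ g, ∀ v ∈ T, ρ' g v ∈ T) → U.comap π ≤ T → ∀ v,
      (∀ z ∈ D', ρ' z v * v⁻¹ ∈ T) → v ∈ T := by
    intro T hT hUT v hv
    have hkT : π.ker ≤ T := by
      intro x hx
      apply hUT
      show π x ∈ U
      rw [show π x = 1 from hx]
      exact U.one_mem
    have h3 := hT1 (T.map π) (by
      rintro g _ ⟨w, hw, rfl⟩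
      rw [← hπe]
      exact ⟨_, hT g w hw, rfl⟩) (by
      rw [← Subgroup.map_comap_eq_self_of_surjective hπs U]
      exact map_mono hUT) (π v) (by
      intro z hz
      rw [← hπe, ← map_inv, ← map_mul]
      exact ⟨_, hv z hz, rfl⟩)
    obtain ⟨w, hw, hwv⟩ := h3
    have h4 : w⁻¹ * v ∈ π.ker := by
      rw [MonoidHom.mem_ker, map_mul, map_inv, hwv, inv_mul_cancel]
    have h5 := T.mul_mem hw (hkT h4)
    rwa [mul_inv_cancel_left] at h5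
  let f' : (T₁.comap π) →* S :=
    { toFun := fun v => f ⟨π v, v.2⟩
      map_one' := by
        have h3 : (⟨π ((1 : T₁.comap π) : V'), (1 : T₁.comap π).2⟩ : T₁) = 1 := Subtype.ext (map_one π)
        rw [h3, map_one]
      map_mul' := by
        intro x y
        rw [← map_mul]
        congr 1
        exact Subtype.ext (map_mul π (x : V') y) }
  have hcore := dif_core hI hKn hD₁n hDn hD'n hDD hDD₁ hK0 hKp hD₁i hDi hD'i hσ hγK hγ hram hex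
    hQ'K hQ'o hQ'f hgQ' hV' ρ' θ' hθ' hθ'1 hθ'ρ htriv' hgR₁ inf_le_right hY₁ σ₁ ψ₁ hψ₁ hψ₁1
    hψ₁σ hσ₁ (hcs U hU) hT1' b hS P N C c (fun i => ⟨(hP i).1, (hP i).2.1, (hP i).2.2.1⟩)
    (fun j => ⟨(hNc j).1, (hNc j).2.1, (hNc j).2.2.1⟩) hPN hn₀ (hcs T₁ h1) (hcs T₂ h2) (by
      rw [fil_comap π hπs hπφ]
      exact comap_mono hle) (comap_mono hlt) (by
      rw [fil_comap π hπs hπφ]
      exact comap_mono hle') f' (by
      intro s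
      obtain ⟨⟨v, hv⟩, rfl⟩ := hf s
      obtain ⟨w, rfl⟩ := hπs v
      exact ⟨⟨w, hv⟩, rfl⟩) (fun v => hf1 ⟨π v, v.2⟩) (by
      intro g v hv
      have h3 : ρ g (π v) ∈ T₁ := h1 g _ v.2
      have h4 := hf2 g ⟨π v, v.2⟩ h3
      show f ⟨π (ρ' g v), hv⟩ = b g (f ⟨π v, v.2⟩)
      rw [← h4]
      congr 1
      exact Subtype.ext (hπe g v))
  -- the final inequality
  have hbP := cn_pos b P
  have hbN := cn_pos b N
  have e9 : ∏ i, (C' i : ℝ) ≤ cnt σ₁ D₁ P (⊤ : Subgroup Y₁) := by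
    rw [cnt_top]
    refine Finset.prod_le_prod (fun i _ => Nat.cast_nonneg _) fun i _ => ?_
    exact_mod_cast (hM5 i).trans (hlow₁ (P i) (hP i).1 (hP i).2.1 (M i) (hM1 i) (hM3 i) (hM4 i)
      fun x hx => (mem_iInf.1 (hR₁W hx).2) i)
  have e10 : cnt σ₁ D₁ N (⊤ : Subgroup Y₁) ≤ ∏ j, (c' j : ℝ) := by
    rw [cnt_top]
    refine Finset.prod_le_prod (fun j _ => Nat.cast_nonneg _) fun j _ => ?_
    exact_mod_cast hup₁ (N j) (hNc j).1 (hNc j).2.1 (c' j) (hNc j).2.2.2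
  have hcN := cnt_pos (D' := D₁) σ₁ N (⊤ : Subgroup Y₁)
  have hcP := cnt_pos (D' := D₁) σ₁ P (⊤ : Subgroup Y₁)
  set n := D.relIndex K - D₁.relIndex K with hn
  have h4 : cnt σ₁ D₁ P (⊤ : Subgroup Y₁) =
      rat σ₁ D₁ P N (⊤ : Subgroup Y₁) * cnt σ₁ D₁ N (⊤ : Subgroup Y₁) := by
    unfold rat
    rw [div_mul_cancel₀ _ hcN.ne']
  have hrat := rat_pos (D' := D₁) σ₁ P N (⊤ : Subgroup Y₁)
  have hC0 : (0 : ℝ) ≤ ∏ i, (C i : ℝ) := Finset.prod_nonneg fun i _ => Nat.cast_nonneg _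
  have hc0 : (0 : ℝ) ≤ ∏ j, (c j : ℝ) := Finset.prod_nonneg fun i _ => Nat.cast_nonneg _
  have h3 : cn b P ^ n = (cn b P / cn b N) ^ n * cn b N ^ n := by
    rw [div_pow, div_mul_cancel₀ _ (pow_pos hbN n).ne']
  have e11 : (∏ j, (c j : ℝ)) * (∏ i, (C' i : ℝ)) * cn b P ^ n ≤
      (∏ i, (C i : ℝ)) * (∏ j, (c' j : ℝ)) * cn b N ^ n := by
    calc (∏ j, (c j : ℝ)) * (∏ i, (C' i : ℝ)) * cn b P ^ n
        ≤ (∏ j, (c j : ℝ)) * cnt σ₁ D₁ P (⊤ : Subgroup Y₁) * cn b P ^ n :=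
          mul_le_mul_of_nonneg_right (mul_le_mul_of_nonneg_left e9 hc0) (pow_pos hbP n).le
      _ = ((∏ j, (c j : ℝ)) * (rat σ₁ D₁ P N (⊤ : Subgroup Y₁) * (cn b P / cn b N) ^ n)) *
          cnt σ₁ D₁ N (⊤ : Subgroup Y₁) * cn b N ^ n := by
          rw [h4, h3]
          ring
      _ ≤ (∏ i, (C i : ℝ)) * cnt σ₁ D₁ N (⊤ : Subgroup Y₁) * cn b N ^ n :=
          mul_le_mul_of_nonneg_right (mul_le_mul_of_nonneg_right hcore hcN.le) (pow_pos hbN n).le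
      _ ≤ _ := mul_le_mul_of_nonneg_right (mul_le_mul_of_nonneg_left e10 hC0) (pow_pos hbN n).le
  have e12 : (∏ i, (C i : ℝ)) * (∏ j, (c' j : ℝ)) * cn b N ^ n <
      (∏ j, (c j : ℝ)) * (∏ i, (C' i : ℝ)) * cn b P ^ n := by
    unfold cn
    exact_mod_cast hlt'
  exact absurd e12 (not_lt.2 e11)

end Pool.Agent.J6H71.Mu
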