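import Pool.Agent.J6H71.Mu.Kls
import Pool.Agent.J6H71.Mu.Kl2

/-!
# The group-theoretical theorem, with ramification
-/

set_option autoImplicit false

namespace Pool.Agent.J6H71.Mu

open Subgroup Pool.Agent.Q60.MU Pool.Agent.W5h77.MB Pool.Agent.W5h33.DF Pool.Agent.J6H14.DMu
open scoped commutatorElement

variable {𝔾 : Type} [Group 𝔾]

/-- the layer `D'` is totally ramified over the layer `D₁` -/
def Rm {Ω : Type} (I : Ω → Subgroup 𝔾) (K D₁ D' : Subgroup 𝔾) : Prop :=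
  (∀ A, I A ≤ D' ∨ ∀ x ∈ K ⊓ D₁, ∃ w ∈ I A ⊓ (K ⊓ D₁), x * w⁻¹ ∈ D') ∧
    ∃ A, ∀ x ∈ K ⊓ D₁, ∃ w ∈ I A ⊓ (K ⊓ D₁), x * w⁻¹ ∈ D'

/-- the conditions for a simple module -/
def Gd [TopologicalSpace 𝔾] (p : ℕ) {Ω : Type} [MulAction 𝔾 Ω] (I : Ω → Subgroup 𝔾)
    (K D₀ D' : Subgroup 𝔾) {S : Type} [CommGroup S] (b : 𝔾 →* MulAut S) : Prop :=
  (∃ t, Mlt I D' b t ∧
    ∃ D : Subgroup 𝔾, D.Normal ∧ D₀ ≤ D ∧ (∃ m, D.index = p ^ m) ∧ Crt p I K D b t) ∨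
  ∃ D₁ D : Subgroup 𝔾, D₁.Normal ∧ D.Normal ∧ IsOpen (D₁ : Set 𝔾) ∧ D₀ ≤ D ∧ D ≤ D₁ ∧
    (∃ m, D₁.index = p ^ m) ∧ (∃ m, D.index = p ^ m) ∧ Rm I K D₁ D' ∧ Cr2 p I K D₁ D b

/-- **The main theorem** (for profinite groups): `F` is an intermediate group. -/
theorem main' [TopologicalSpace 𝔾] [ContinuousMul 𝔾] {p : ℕ} [hp : Fact p.Prime]
    {Ω : Type} [MulAction 𝔾 Ω] {I : Ω → Subgroup 𝔾}
    (hI : ∀ (g : 𝔾) (w : Ω), ∀ x ∈ I w, g * x * g⁻¹ ∈ I (g • w))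
    {K D₀ D' : Subgroup 𝔾} (hKn : K.Normal) (hD₀n : D₀.Normal)
    (hD'n : D'.Normal) (hDD : D' ≤ D₀) (hK0 : K.index ≠ 0) (hKo : IsOpen (K : Set 𝔾))
    (hD'o : IsOpen (D' : Set 𝔾))
    (hKp : ¬ p ∣ K.relIndex ⊤) {m₀ m' : ℕ} (hD₀i : D₀.index = p ^ m₀)
    (hD'i : D'.index = p ^ m') (hσ : ∃ σ : 𝔾, ∀ τ, ∃ i : ℤ, τ * (σ ^ i)⁻¹ ∈ D')
    {F : Subgroup 𝔾} (hKF : K ≤ F)
    (𝓔 : Finset (Subgroup 𝔾)) (h𝓔 : ∀ E ∈ 𝓔, K ≤ E)
    {a : ℕ} (𝒜 : Fin a → Ω) (h𝒜 : ∀ A, I A ≤ D' ∨ ∃ i, ∃ g ∈ D', g • A = 𝒜 i)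
    (hcrit : ∀ (S : Type) [CommGroup S] [Finite S] (b : 𝔾 →* MulAut S), Simp p K b →
      (∀ E ∈ 𝓔, fx b E = ⊥) → fx b ⊤ = ⊥ ∧ (fx b F ≠ ⊥ → Gd p I K D₀ D' b))
    {C₀ : ℕ} (hC₀ : RankLe p I (F ⊓ D₀) C₀) (c : Subgroup 𝔾 → ℕ)
    (hc : ∀ E ∈ 𝓔, RankLe p I (E ⊓ D') (c E)) :
    RankLe p I (F ⊓ D') (C₀ * p ^ (a * K.index) * ∏ E ∈ 𝓔, c E ^ E.index) := by
  classical
  intro Y hYH hYo hYf hgY
  have hpL : ∀ L : Subgroup 𝔾, ¬ p ∣ K.relIndex L := fun L h => hKp (h.trans (rel_dvd hKn le_top))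
  have hD₀0 : D₀.index ≠ 0 := by
    rw [hD₀i]
    exact (pow_pos hp.out.pos m₀).ne'
  have hD'0 : D'.index ≠ 0 := by
    rw [hD'i]
    exact (pow_pos hp.out.pos m').ne'
  have hcm := comm_mem_of hσ
  obtain ⟨γ, hγK, hγ⟩ := exists_gamma (K := K) hσ
  have h𝒦'n : (K ⊓ D').Normal := normal_inf_normal K D'
  have h𝒦'0 : (K ⊓ D').index ≠ 0 := index_inf_ne_zero hK0 hD'0
  have hKF' : K ⊓ D' ≤ F ⊓ D' := inf_le_inf_right D' hKF
  obtain ⟨Q, hQY', hQo, hQf, hgQ, hQn⟩ := exists_core hI (K := K ⊓ D') (D := ⊤)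
    (W := Y ⊓ (K ⊓ D'))
    (fun d _ x hx => h𝒦'n.conj_mem x hx d) (by rwa [relIndex_top_right]) inf_le_right (by
      rw [coe_inf, coe_inf]
      exact hYo.inter (hKo.inter hD'o)) (by
      rw [inf_relIndex_right]
      exact fun h => hYf (relIndex_eq_zero_of_le_right hKF' h))
      (fun x hx => ⟨hgY (gens_mono hKF' hx), gens_subset hx⟩)
  have hQY : Q ≤ Y := hQY'.trans inf_le_left
  have hQK : Q ≤ K ⊓ D' := hQY'.trans inf_le_right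
  have hQnorm : Q.Normal := ⟨fun x hx g => hQn g trivial x hx⟩
  have hQ0 : Q.index ≠ 0 := by
    rw [← relIndex_mul_index hQK]
    exact mul_ne_zero hQf h𝒦'0
  obtain ⟨V, iV, ρ, θ, hVfin, hV, hθ, hθ1, hθρ, htriv, hVcard, hup, hlow⟩ :=
    exists_module (I := I) hKn hD'n hQnorm hQK hQo hQf hgQ
  refine (hlow F hKF (hpL F) Y hYH hYf hgY hQY).trans ?_
  -- the detected part
  have hUE : ∀ E : Subgroup 𝔾, E ∈ 𝓔 → ∃ U : Subgroup V, (∀ g, ∀ v ∈ U, ρ g v ∈ U) ∧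
      fx ρ (E ⊓ D') ≤ U ∧ Nat.card U ≤ c E ^ E.index := fun E hE =>
    exists_conj_span hD'n (h𝓔 E hE) hK0 ρ (hup E (h𝓔 E hE) (hpL E) (c E) (hc E hE))
  choose! J hJ1 hJ2 hJ3 using hUE
  set U : Subgroup V := 𝓔.sup J with hUdef
  have hJU : ∀ E ∈ 𝓔, J E ≤ U := fun E hE => Finset.le_sup (f := J) hE
  have hcardU : Nat.card U ≤ ∏ E ∈ 𝓔, c E ^ E.index := card_sup_prod J _ 𝓔 hJ3
  have hUstab : ∀ g : 𝔾, ∀ v ∈ U, ρ g v ∈ U := by
    intro g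
    have h1 : U ≤ U.comap (ρ g).toMonoidHom := by
      refine Finset.sup_le fun E hE => ?_
      intro v hv
      exact hJU E hE (hJ1 E hE g v hv)
    exact fun v hv => h1 hv
  -- the factors above `U` are undetected
  have hund : ∀ (T₁ T₂ : Subgroup V) (S : Type) [CommGroup S] (b : 𝔾 →* MulAut S) (f : T₁ →* S),
      U ≤ T₂ → (∀ g, ∀ v ∈ T₁, ρ g v ∈ T₁) → Simp p K b → Function.Surjective f →
      (∀ v, f v = 1 ↔ (v : V) ∈ T₂) → (∀ g (v : T₁) (hv : ρ g v ∈ T₁), f ⟨ρ g v, hv⟩ = b g (f v)) →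
      ∀ E ∈ 𝓔, fx b E = ⊥ := by
    intro T₁ T₂ S _ b f hU2 hT₁ hsimp hsurj hker hf E hE
    rw [eq_bot_iff]
    intro s hs
    have hs' : s ∈ fx b (E ⊓ D') := fun g hg => hs g hg.1
    obtain ⟨⟨v, hv⟩, hfv⟩ := hsurj s
    obtain ⟨u, hu, hu1, hu2⟩ := lift_fix hp.out ρ b (E ⊓ D')
      (card_map_cop hKn (hpL E) ρ htriv inf_le_left inf_le_right) (T := T₁)
      (fun h _ v hv => hT₁ h v hv) f
      (fun h _ v hv => hf h v hv) hsimp.2.1 hs' hv hfv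
    rw [mem_bot, ← hu2, hker]
    exact hU2 (hJU E hE (hJ2 E hE hu1))
  have hT1 : ∀ T : Subgroup V, (∀ g, ∀ v ∈ T, ρ g v ∈ T) → U ≤ T → ∀ v,
      (∀ z ∈ D', ρ z v * v⁻¹ ∈ T) → v ∈ T := by
    intro T hT hUT v hv
    refine nofix hp.out (D'.map ρ) (card_map_cop (D' := D') hKn hKp ρ htriv le_top
      le_rfl) T ?_ (hV v) ?_
    · intro x hx
      by_contra hxT
      obtain ⟨T₁, T₂, h1, h2, h3, h4, h5, h6, h7⟩ := exists_factor ρ hT hxT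
      obtain ⟨S, iS, b, f, hSfin, hsimp, hsurj, hker, hf⟩ := exists_simple hp.out hKn hD'n hD'i hV ρ
        htriv h1 h2 h4 h7
      have h8 := hund T₁ T₂ S b f (hUT.trans h3) h1 hsimp hsurj hker hf
      have h9 : f ⟨x, h5⟩ ∈ fx b (⊤ ⊓ D') := by
        intro z hz
        have h10 : ρ z x = x := hx _ ⟨z, hz.2, rfl⟩
        rw [← hf z ⟨x, h5⟩ (by rw [h10]; exact h5)]
        congr 1
        exact Subtype.ext h10
      rw [fx_sub hp.out hKn hD'n hD'i hKp hsimp.2.2.1 le_rfl, (hcrit S b hsimp h8).1, mem_bot,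
        hker] at h9
      exact h6 h9
    · rintro _ ⟨z, hz, rfl⟩
      exact hv z hz
  -- the images of the powers of `φ`
  set φ := phi ρ γ with hφdef
  set q₀ := D₀.relIndex K with hq₀
  have hq₀0 : q₀ ≠ 0 := fun h => hD₀0 (by
    have h1 := relIndex_dvd_index_of_normal D₀ K
    rw [← hq₀, h] at h1
    exact Nat.eq_zero_of_zero_dvd h1)
  have hφc : ∀ (h : 𝔾) (v : V), ρ h (φ v) = φ (ρ h v) := phi_comm hKn hcm htriv hγK
  have hUφ : ∀ u ∈ U, φ u ∈ U := fun u hu => U.mul_mem (hUstab γ u hu) (U.inv_mem hu)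
  have hfs : ∀ (j : ℕ) (g : 𝔾), ∀ v ∈ fil U φ j, ρ g v ∈ fil U φ j := fun j g =>
    fil_stable (hUstab g) (hφc g) j
  have hN : ∀ v, φ^[p ^ m'] v = 1 := by
    intro v
    have h1 : γ ^ p ^ m' ∈ K ⊓ D' := by
      refine ⟨K.pow_mem hγK _, ?_⟩
      rw [← hD'i]
      exact D'.pow_index_mem γ
    rw [hφdef, phi_frob hV, htriv _ h1, MulAut.one_apply, mul_inv_cancel]
  have hstat : ∀ n, q₀ ≤ n + 1 → fil U φ n ⊓ fx ρ (F ⊓ D') ≤ fil U φ (n + 1) := by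
    rintro n hn x ⟨hx, hxF⟩
    by_contra hxT
    obtain ⟨T₁, T₂, h1, h2, h3, h4, h5, h6, h7⟩ := exists_factor ρ (hfs (n + 1)) hxT
    obtain ⟨S, iS, b, f, hSfin, hsimp, hsurj, hker, hf⟩ := exists_simple hp.out hKn hD'n hD'i hV ρ
      htriv h1 h2 h4 h7
    have h8 := hund T₁ T₂ S b f ((le_fil U φ (n + 1)).trans h3) h1 hsimp hsurj hker hf
    have hbF : fx b F ≠ ⊥ := by
      intro hbot
      have h9 : f ⟨x, h5⟩ ∈ fx b (F ⊓ D') := by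
        intro z hz
        have h10 : ρ z x = x := hxF z hz
        rw [← hf z ⟨x, h5⟩ (by rw [h10]; exact h5)]
        congr 1
        exact Subtype.ext h10
      rw [fx_sub hp.out hKn hD'n hD'i (hpL F) hsimp.2.2.1 le_rfl, hbot, mem_bot, hker] at h9
      exact h6 h9
    obtain ⟨-, hcr'⟩ := hcrit S b hsimp h8
    -- intersection with `fil n`
    let f' : (T₁ ⊓ fil U φ n : Subgroup V) →* S := f.comp (inclusion inf_le_left)
    have hf' : Function.Surjective f' := by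
      have h9 : f'.range = ⊤ := by
        rcases hsimp.2.2.2 f'.range (by
          rintro g _ ⟨v, rfl⟩
          exact ⟨⟨ρ g v, h1 g v v.2.1, hfs n g v v.2.2⟩, hf g (inclusion inf_le_left v) _⟩) with h | h
        · exfalso
          have h10 : f' ⟨x, h5, hx⟩ ∈ f'.range := ⟨_, rfl⟩
          rw [h, mem_bot] at h10
          exact h6 ((hker ⟨x, h5⟩).1 h10)
        · exact h
      exact MonoidHom.range_eq_top.1 h9
    have g1 : ∀ g, ∀ v ∈ T₁ ⊓ fil U φ n, ρ g v ∈ T₁ ⊓ fil U φ n := fun g v hv =>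
      ⟨h1 g v hv.1, hfs n g v hv.2⟩
    have g2 : ∀ g, ∀ v ∈ T₂ ⊓ fil U φ n, ρ g v ∈ T₂ ⊓ fil U φ n := fun g v hv =>
      ⟨h2 g v hv.1, hfs n g v hv.2⟩
    have g3 : ∀ v, f' v = 1 ↔ (v : V) ∈ T₂ ⊓ fil U φ n := by
      intro v
      show f _ = 1 ↔ _
      rw [hker]
      exact ⟨fun h => ⟨h, v.2.2⟩, fun h => h.1⟩
    have g4 : ∀ g (v : (T₁ ⊓ fil U φ n : Subgroup V)) (hv : ρ g v ∈ T₁ ⊓ fil U φ n),
        f' ⟨ρ g v, hv⟩ = b g (f' v) := fun g v hv => hf g (inclusion inf_le_left v) hv.1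
    rcases hcr' hbF with ⟨t, hmlt, D, hDn, hD₀D, ⟨m, hDi⟩, hcr⟩ |
      ⟨D₁, D, hD₁n, hDn, hD₁o, hD₀D, hDD₁, ⟨m₁, hD₁i⟩, ⟨m, hDi⟩, ⟨hram, hex⟩, hcr⟩
    · have hq : D.relIndex K ≤ n + 1 := (relIndex_le_of_le_left hD₀D hq₀0).trans hn
      exact kills' hI hKn hDn hD'n (hDD.trans hD₀D) hK0 hKp hDi hD'i hσ hγK hγ hQK hQo hQf hgQ hV ρ
        θ hθ hθ1 hθρ htriv hUstab hT1 b hsimp hmlt hcr hq (T₁ := T₁ ⊓ fil U φ n)
        (T₂ := T₂ ⊓ fil U φ n) g1 g2 (le_inf h3 (fil_anti U φ n)) (inf_le_inf_right _ h4.le)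
        inf_le_right f' hf' g3 g4
    · have hq : D.relIndex K ≤ n + 1 := (relIndex_le_of_le_left hD₀D hq₀0).trans hn
      have hγD₁ : γ ^ D₁.relIndex K ∈ K ⊓ D₁ :=
        ⟨K.pow_mem hγK _, (D₁.subgroupOf K).pow_index_mem (⟨γ, hγK⟩ : K)⟩
      have hinv : ∀ w : 𝔾, γ ^ D₁.relIndex K * w⁻¹ ∈ D' → w * (γ ^ D₁.relIndex K)⁻¹ ∈ D' := by
        intro w hw
        have h9 := D'.inv_mem hw
        rwa [mul_inv_rev, inv_inv] at h9
      exact kills2 hI hKn hD₁n hDn hD'n hKo hD₁o (hDD.trans hD₀D) hDD₁ hK0 hKp hD₁i hDi hD'i hσ hγK hγ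
        (fun A => (hram A).imp id fun h => by
          obtain ⟨w, hw, hwD⟩ := h _ hγD₁
          exact ⟨w, hw, hinv w hwD⟩)
        (by
          obtain ⟨A, h⟩ := hex
          obtain ⟨w, hw, hwD⟩ := h _ hγD₁
          exact ⟨A, w, hw, hinv w hwD⟩)
        hQnorm hQK hQo hQf hgQ ρ θ hθ hθ1 hθρ hUstab hT1 b hsimp hcr hq (T₁ := T₁ ⊓ fil U φ n)
        (T₂ := T₂ ⊓ fil U φ n) g1 g2 (le_inf h3 (fil_anti U φ n)) (inf_le_inf_right _ h4.le)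
        inf_le_right f' hf' g3 g4
  have hφU : fil U φ q₀ ⊓ fx ρ (F ⊓ D') ≤ U := by
    have h1 : ∀ i, fil U φ q₀ ⊓ fx ρ (F ⊓ D') ≤ fil U φ (q₀ + i) := by
      intro i
      induction i with
      | zero => exact inf_le_left
      | succ i ih =>
        refine le_trans (le_inf ih inf_le_right) ?_
        rw [← add_assoc]
        exact hstat (q₀ + i) (by omega)
    intro x hx
    obtain ⟨u, hu, v, rfl⟩ := fil_elem hUφ (q₀ + p ^ m') x (h1 (p ^ m') hx)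
    have h3 : φ^[q₀ + p ^ m'] v = 1 := by
      rw [Function.iterate_add_apply, hN]
      exact iterate_map_one φ q₀
    rw [h3, mul_one]
    exact hu
  -- the lower layer
  obtain ⟨e₀, -, he₀⟩ : ∃ a ≤ m₀, D₀.relIndex K = p ^ a :=
    (Nat.dvd_prime_pow hp.out).1 (hD₀i ▸ relIndex_dvd_index_of_normal D₀ K)
  obtain ⟨X, iX, β, f', Fc, x₀, J₀, hsurj', hker', hX3, hX4, hF1, hF2, hF3, hx₀, hJs, hJo, hFJ⟩ :=
    lower' hI hKn hD₀n hD'n hDD hσ hKp hgQ hV ρ θ hθ1 hθρ (hfs q₀)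
      (act_mem hD₀n hDD hγK hγ hV ρ htriv he₀ (fun v => by
        rw [← he₀]
        exact iter_mem U φ q₀ v)) (hT1 _ (hfs q₀) (le_fil U φ q₀)) 𝒜
      (fun A => (h𝒜 A).imp id Or.inr)
  have hXp : ∀ s : X, s ^ p = 1 := by
    intro s
    obtain ⟨v, rfl⟩ := hsurj' s
    rw [← map_pow, hV, map_one]
  have hXfin : Finite X := Finite.of_surjective f' hsurj'
  have hKK : K ⊓ D' ≤ K ⊓ D₀ := inf_le_inf_left K hDD
  have hX4' : ∀ x ∈ K ⊓ D', β x = 1 := fun x hx => hX4 x (hKK hx)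
  -- the unramified quotient
  obtain ⟨X', iX', β', pX₁, hp1, hp2, hp3⟩ := exists_quo β (T := ⊤) (T' := J₀)
    (fun _ _ _ => mem_top _) hJs
  let pX : X →* X' := pX₁.comp topEquiv.symm.toMonoidHom
  have hpker : ∀ v, pX v = 1 ↔ v ∈ J₀ := fun v => hp2 ⟨v, mem_top v⟩
  have hpe : ∀ d v, pX (β d v) = β' d (pX v) := fun d v => hp3 d ⟨v, mem_top v⟩ (mem_top _)
  have hpsurj : Function.Surjective pX := by
    intro s
    obtain ⟨⟨v, hv⟩, hfv⟩ := hp1 s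
    exact ⟨v, hfv⟩
  have hX'p : ∀ x : X', x ^ p = 1 := by
    intro s
    obtain ⟨v, rfl⟩ := hpsurj s
    rw [← map_pow, hXp, map_one]
  have hX'fin : Finite X' := Finite.of_surjective pX hpsurj
  have hX'4 : ∀ x ∈ K ⊓ D₀, β' x = 1 := by
    intro x hx
    ext s
    obtain ⟨v, rfl⟩ := hpsurj s
    rw [← hpe, hX4 x hx, MulAut.one_apply, MulAut.one_apply]
  have e1 : Nat.card (fx β' (F ⊓ D₀)) ≤ C₀ := by
    refine fx_le (F := fun x => pX (Fc x)) hI hKn hD₀n hK0 hD₀0 hQo hQ0 hX'p β' ?_ ?_ ?_ ?_ ?_ hKF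
      (hpL F) hC₀
    · intro x hx y hy
      show pX (Fc (x * y)) = pX (Fc x) * pX (Fc y)
      rw [hF1 x hx y hy, map_mul]
    · intro s
      obtain ⟨w, rfl⟩ := hpsurj s
      obtain ⟨v, rfl⟩ := hsurj' w
      obtain ⟨x, rfl⟩ := hθ v
      exact ⟨x, hKK x.2, congrArg pX (hF2 x x.2)⟩
    · intro x hx
      refine ⟨hKK (hQK hx), ?_⟩
      show pX (Fc x) = 1
      rw [hF2 x (hQK hx), (hθ1 ⟨x, hQK hx⟩).2 hx, map_one, map_one]
    · intro g x hx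
      show pX (Fc (g * x * g⁻¹)) = β' g (pX (Fc x))
      rw [hF3 g x hx, hpe]
    · intro A x hx hxA
      show pX (Fc x) = 1
      rw [hpker]
      exact hFJ A x hx hxA
  rw [← fx_layer hp.out hKn hD'n hD'i hDD hX'4 (hpL F)] at e1
  -- the ramified part
  have e1a := card_fx_mul hp.out β β' (F ⊓ D') (card_map_cop hKn (hpL F) β hX4' inf_le_left inf_le_right)
    (T := ⊤) (T' := J₀) (fun _ _ _ _ => mem_top _) le_top (pX.comp (⊤ : Subgroup X).subtype)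
    (fun h _ v _ => hpe h v) hX'p (fun s => by
      obtain ⟨v, hv⟩ := hpsurj s
      exact ⟨⟨v, mem_top v⟩, hv⟩) (fun v => hpker v)
  rw [top_inf_eq] at e1a
  have e1b : Nat.card (J₀ ⊓ fx β (F ⊓ D') : Subgroup X) ≤ p ^ (a * K.index) := by
    refine (card_le_of_le (inf_le_left.trans hJo)).trans ?_
    refine (card_orb hKn (fun h => hpL D' (h ▸ dvd_zero p)) hXp β hX4' x₀).trans ?_
    refine Nat.pow_le_pow_right hp.out.pos (Nat.mul_le_mul_left a ?_)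
    have h1 := rel_dvd hKn (le_top : D' ≤ ⊤)
    rw [relIndex_top_right] at h1
    exact Nat.le_of_dvd (Nat.pos_of_ne_zero hK0) h1
  have e1c : Nat.card (fx β (F ⊓ D')) ≤ C₀ * p ^ (a * K.index) := by
    rw [e1a, mul_comm]
    exact Nat.mul_le_mul e1 e1b
  have e2 := card_fx_mul hp.out ρ β (F ⊓ D') (card_map_cop hKn (hpL F) ρ htriv inf_le_left inf_le_right)
    (T := ⊤) (T' := fil U φ q₀) (fun _ _ _ _ => mem_top _) le_top (f'.comp (⊤ : Subgroup V).subtype)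
    (fun h _ v _ => hX3 h v) hXp (fun s => by
      obtain ⟨v, hv⟩ := hsurj' s
      exact ⟨⟨v, mem_top v⟩, hv⟩) (fun v => hker' v)
  rw [top_inf_eq] at e2
  have e3 : Nat.card (fil U φ q₀ ⊓ fx ρ (F ⊓ D') : Subgroup V) ≤ ∏ E ∈ 𝓔, c E ^ E.index :=
    (card_le_of_le hφU).trans hcardU
  rw [e2, mul_comm]
  exact Nat.mul_le_mul e1c e3

end Pool.Agent.J6H71.Mu
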