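import Pool.Agent.J6H71.Mu.Iso

/-!
# Counting the simple factors of a module generated by few orbits
-/

set_option autoImplicit false

namespace Pool.Agent.J6H71.Mu

open Subgroup Pool.Agent.W5h77.MB Pool.Agent.W5h33.DF Pool.Agent.J6H14.DMu

section
variable {𝔾 : Type} [Group 𝔾] {K D' : Subgroup 𝔾}

theorem fin_hom {V S : Type} [CommGroup V] [CommGroup S] [Finite V] [Finite S] : Finite (V →* S) :=
  Finite.of_injective (fun f : V →* S => (f : V → S)) DFunLike.coe_injective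

/-- The number of homomorphisms on `T`. -/
noncomputable def ht {V S : Type} [CommGroup V] [CommGroup S] (D' : Subgroup 𝔾) (ρ : 𝔾 →* MulAut V)
    (b : 𝔾 →* MulAut S) (T : Subgroup V) : ℕ := (hm D' ρ b ⊓ an S T).relIndex (hm D' ρ b)

theorem ht_pos {V S : Type} [CommGroup V] [CommGroup S] [Finite V] [Finite S]
    (ρ : 𝔾 →* MulAut V) (b : 𝔾 →* MulAut S) (T : Subgroup V) : 0 < ht D' ρ b T := by
  have h1 : Finite (V →* S) := fin_hom
  exact Nat.pos_of_ne_zero (index_ne_zero_of_finite (H := (hm D' ρ b ⊓ an S T).subgroupOf _))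

theorem ht_step {p : ℕ} [hp : Fact p.Prime] (hKn : K.Normal) (hKp : ¬ p ∣ K.relIndex ⊤)
    {V S : Type} [CommGroup V] [Finite V] [CommGroup S] [Finite S] (hV : ∀ v : V, v ^ p = 1)
    (ρ : 𝔾 →* MulAut V) (b : 𝔾 →* MulAut S) (hρ : ∀ x ∈ K ⊓ D', ρ x = 1) (hS : Simp p K b)
    {T₁ T₂ : Subgroup V} (h1 : ∀ g, ∀ v ∈ T₁, ρ g v ∈ T₁) (hle : T₂ ≤ T₁) (f : T₁ →* S)
    (hsurj : Function.Surjective f) (hker : ∀ v, f v = 1 ↔ (v : V) ∈ T₂)
    (hf : ∀ g (v : T₁) (hv : ρ g v ∈ T₁), f ⟨ρ g v, hv⟩ = b g (f v)) :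
    Nat.card (En b) * ht D' ρ b T₂ ≤ ht D' ρ b T₁ := by
  classical
  have hfin : Finite (V →* S) := fin_hom
  have hKD : ¬ p ∣ K.relIndex D' := fun h => hKp (h.trans (rel_dvd hKn le_top))
  have hex : ∀ e : En b, ∃ F : V →* S, (∀ v : T₁, F v = e.1 (f v)) ∧ F ∈ hm D' ρ b := by
    intro e
    exact equi_ext hKn hKD hV hS.2.1 ρ b hρ (fun x hx => hS.2.2.1 x hx.1)
      (T := T₁) (fun g _ => h1 g) (e.1.comp f) (fun g _ v hv => by
        show e.1 (f _) = b g (e.1 (f v))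
        rw [hf g v hv, e.2])
  choose F hF1 hF2 using hex
  have hF3 : ∀ e, F e ∈ hm D' ρ b ⊓ an S T₂ := by
    intro e
    refine ⟨hF2 e, fun v hv => ?_⟩
    rw [hF1 e ⟨v, hle hv⟩, (hker ⟨v, hle hv⟩).2 hv, map_one]
  have h2 : hm D' ρ b ⊓ an S T₁ ≤ hm D' ρ b ⊓ an S T₂ := inf_le_inf_left _ (an_anti hle)
  have h3 : Nat.card (En b) ≤ (hm D' ρ b ⊓ an S T₁).relIndex (hm D' ρ b ⊓ an S T₂) := by
    show _ ≤ Nat.card (↥(hm D' ρ b ⊓ an S T₂) ⧸ (hm D' ρ b ⊓ an S T₁).subgroupOf _)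
    refine Nat.card_le_card_of_injective (fun e => QuotientGroup.mk ⟨F e, hF3 e⟩) ?_
    intro e e' hee
    have h4 := QuotientGroup.eq.1 hee
    have h5 : ∀ v ∈ T₁, ((F e)⁻¹ * F e') v = 1 := fun v hv => h4.2 v hv
    apply Subtype.ext
    ext s
    obtain ⟨v, rfl⟩ := hsurj s
    have h6 := h5 v v.2
    rw [MonoidHom.mul_apply, MonoidHom.inv_apply, inv_mul_eq_one, hF1, hF1] at h6
    exact h6
  have h4 := relIndex_mul_relIndex _ _ _ h2 (inf_le_left : hm D' ρ b ⊓ an S T₂ ≤ hm D' ρ b)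
  unfold ht
  rw [← h4]
  exact Nat.mul_le_mul_right _ h3

/-- All simple factors are isomorphic to `S`. -/
def Only {V S : Type} [CommGroup V] [CommGroup S] (ρ : 𝔾 →* MulAut V)
    (b : 𝔾 →* MulAut S) : Prop :=
  ∀ T₁ T₂ : Subgroup V, (∀ g, ∀ v ∈ T₁, ρ g v ∈ T₁) → (∀ g, ∀ v ∈ T₂, ρ g v ∈ T₂) → T₂ < T₁ →
    (∀ M : Subgroup V, (∀ g, ∀ v ∈ M, ρ g v ∈ M) → T₂ ≤ M → M ≤ T₁ → M = T₂ ∨ M = T₁) →
    ∃ f : T₁ →* S, Function.Surjective f ∧ (∀ v, f v = 1 ↔ (v : V) ∈ T₂) ∧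
      ∀ g (v : T₁) (hv : ρ g v ∈ T₁), f ⟨ρ g v, hv⟩ = b g (f v)

theorem rat_only {p m' : ℕ} [hp : Fact p.Prime] (hKn : K.Normal) (hD'n : D'.Normal)
    (hD'i : D'.index = p ^ m') (hKp : ¬ p ∣ K.relIndex ⊤)
    {V S : Type} [CommGroup V] [Finite V] [CommGroup S] [Finite S] (hV : ∀ v : V, v ^ p = 1)
    (ρ : 𝔾 →* MulAut V) (b : 𝔾 →* MulAut S) (hρ : ∀ x ∈ K ⊓ D', ρ x = 1) (hS : Simp p K b)
    (honly : Only ρ b) {r s : ℕ}
    (P : Fin r → Subgroup 𝔾) (hP : Good p K P) (N : Fin s → Subgroup 𝔾) (hN : Good p K N)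
    (T : Subgroup V) (hT : ∀ g, ∀ v ∈ T, ρ g v ∈ T) :
    ∃ m : ℕ, rat ρ D' P N T = (cn b P / cn b N) ^ m ∧ Nat.card (En b) ^ m ≤ ht D' ρ b T := by
  classical
  induction hn : Nat.card T using Nat.strong_induction_on generalizing T with
  | _ n ih =>
    by_cases heq : T = ⊥
    · refine ⟨0, ?_, ?_⟩
      · rw [heq, pow_zero]
        unfold rat
        rw [cnt_bot, cnt_bot, div_one]
      · rw [pow_zero]
        exact ht_pos ρ b T
    let 𝒮 : Set (Subgroup V) := {M | (∀ g, ∀ v ∈ M, ρ g v ∈ M) ∧ M < T}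
    have hfin : 𝒮.Finite := Set.toFinite _
    have hbot : (⊥ : Subgroup V) ∈ 𝒮 := by
      refine ⟨?_, bot_lt_iff_ne_bot.2 heq⟩
      intro g v hv
      rw [mem_bot] at hv ⊢
      rw [hv, map_one]
    obtain ⟨M, -, hM⟩ := hfin.exists_le_maximal hbot
    obtain ⟨⟨hM1, hM2⟩, hM3⟩ := hM
    obtain ⟨f, hsurj, hker, hf⟩ := honly T M hT hM1 hM2 (fun M' h1 h2 h3 => by
        by_cases h4 : M' = T
        · exact Or.inr h4
        · exact Or.inl (le_antisymm (hM3 ⟨h1, lt_of_le_of_ne h3 h4⟩ h2) h2))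
    obtain ⟨m, hm1, hm2⟩ := ih (Nat.card M) (by
      rw [← hn]
      exact Set.Finite.card_lt_card (Set.toFinite _) (SetLike.coe_ssubset_coe.2 hM2)) M hM1 rfl
    have h2 := rat_mul hp.out hKn ρ hρ b hS.2.1 hT hM2.le f hsurj hker hf P hP N hN
    rw [cn_sub hp.out hKn hD'n hD'i hS.2.2.1 P hP, cn_sub hp.out hKn hD'n hD'i hS.2.2.1 N hN] at h2
    refine ⟨m + 1, ?_, ?_⟩
    · rw [h2, hm1, pow_succ]
    · have h3 := ht_step (D' := D') hKn hKp hV ρ b hρ hS hT hM2.le f hsurj hker hf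
      calc Nat.card (En b) ^ (m + 1) = Nat.card (En b) * Nat.card (En b) ^ m := by rw [pow_succ']
        _ ≤ Nat.card (En b) * ht D' ρ b M := Nat.mul_le_mul_left _ hm2
        _ ≤ _ := h3

/-- The subgroup generated by the orbits of the `x i`. -/
def orb {V : Type} [CommGroup V] (D' : Subgroup 𝔾) (ρ : 𝔾 →* MulAut V) {a : ℕ} (x : Fin a → V) :
    Subgroup V := closure {y | ∃ d ∈ D', ∃ i, y = ρ d (x i)}

theorem ht_le {V S : Type} [CommGroup V] [Finite V] [CommGroup S] [Finite S]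
    (ρ : 𝔾 →* MulAut V) (b : 𝔾 →* MulAut S) {a : ℕ} (x : Fin a → V) (Z : Fin a → Subgroup 𝔾)
    (hx : ∀ i, x i ∈ fx ρ (Z i ⊓ D')) {J : Subgroup V} (hJ : J ≤ orb D' ρ x) :
    ht D' ρ b J ≤ ∏ i, Nat.card (fx b (Z i ⊓ D')) := by
  classical
  have hfin : Finite (V →* S) := fin_hom
  let Φ : hm D' ρ b →* (∀ i, fx b (Z i ⊓ D')) :=
    { toFun := fun f i => ⟨f.1 (x i), fun z hz => by
        rw [← f.2 z hz.2, hx i z hz]⟩
      map_one' := rfl
      map_mul' := fun f f' => rfl }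
  have hker : Φ.ker ≤ (hm D' ρ b ⊓ an S J).subgroupOf (hm D' ρ b) := by
    intro f hf
    refine ⟨f.2, ?_⟩
    have h1 : ∀ i, f.1 (x i) = 1 := fun i => congrArg Subtype.val (congrFun hf i)
    have h2 : orb D' ρ x ≤ f.1.ker := by
      unfold orb
      rw [closure_le]
      rintro _ ⟨d, hd, i, rfl⟩
      show f.1 (ρ d (x i)) = 1
      rw [f.2 d hd, h1, map_one]
    exact fun v hv => h2 (hJ hv)
  have h1 : ht D' ρ b J ≤ Φ.ker.index := by
    show ((hm D' ρ b ⊓ an S J).subgroupOf (hm D' ρ b)).index ≤ _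
    refine Nat.le_of_dvd (Nat.pos_of_ne_zero ?_) (index_dvd_of_le hker)
    exact index_ne_zero_of_finite
  refine h1.trans ?_
  rw [index_ker]
  refine (Nat.card_le_card_of_injective _ Subtype.val_injective).trans ?_
  rw [Nat.card_pi]

/-- The module generated by the orbits contains `S` at most `t` times. -/
theorem rat_orb {p m' : ℕ} [hp : Fact p.Prime] (hKn : K.Normal) (hD'n : D'.Normal)
    (hD'i : D'.index = p ^ m') (hKp : ¬ p ∣ K.relIndex ⊤)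
    {V S : Type} [CommGroup V] [Finite V] [CommGroup S] [Finite S] (hV : ∀ v : V, v ^ p = 1)
    (ρ : 𝔾 →* MulAut V) (b : 𝔾 →* MulAut S) (hρ : ∀ x ∈ K ⊓ D', ρ x = 1) (hS : Simp p K b)
    (honly : Only ρ b) {r s : ℕ}
    (P : Fin r → Subgroup 𝔾) (hP : Good p K P) (N : Fin s → Subgroup 𝔾) (hN : Good p K N)
    (hPN : cn b N ≤ cn b P)
    {a : ℕ} (x : Fin a → V) (Z : Fin a → Subgroup 𝔾)
    (hx : ∀ i, x i ∈ fx ρ (Z i ⊓ D')) {t : ℕ}
    (ht' : ∏ i, Nat.card (fx b (Z i)) < Nat.card (En b) ^ (t + 1)) {J : Subgroup V}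
    (hJs : ∀ g, ∀ v ∈ J, ρ g v ∈ J) (hJ : J ≤ orb D' ρ x) :
    rat ρ D' P N J ≤ (cn b P / cn b N) ^ t := by
  classical
  obtain ⟨m, hm1, hm2⟩ := rat_only hKn hD'n hD'i hKp hV ρ b hρ hS honly P hP N hN J hJs
  have h1 := ht_le (D' := D') ρ b x Z hx hJ
  have h2 : ∏ i, Nat.card (fx b (Z i ⊓ D')) = ∏ i, Nat.card (fx b (Z i)) := by
    refine Finset.prod_congr rfl fun i _ => ?_
    rw [fx_sub hp.out hKn hD'n hD'i hKp hS.2.2.1 (le_top : Z i ≤ ⊤)]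
  rw [h2] at h1
  have h3 : Nat.card (En b) ^ m < Nat.card (En b) ^ (t + 1) := (hm2.trans h1).trans_lt ht'
  have h4 : m < t + 1 := by
    by_contra hcon
    push Not at hcon
    have hfin : Finite (S →* S) := fin_hom
    have hfe : Finite (En b) := Subtype.finite
    have hne : Nonempty (En b) := ⟨⟨1, fun g s => by
      rw [MonoidHom.one_apply, MonoidHom.one_apply, map_one]⟩⟩
    exact absurd h3 (not_lt.2 (Nat.pow_le_pow_right Nat.card_pos hcon))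
  rw [hm1]
  exact pow_le_pow_right₀ ((one_le_div (cn_pos b N)).2 hPN) (by omega)

/-- The order of the subgroup generated by the orbits. -/
theorem card_orb {p : ℕ} [hp : Fact p.Prime] (hKn : K.Normal) (hK0 : K.relIndex D' ≠ 0)
    {V : Type} [CommGroup V] [Finite V] (hV : ∀ v : V, v ^ p = 1)
    (ρ : 𝔾 →* MulAut V) (hρ : ∀ x ∈ K ⊓ D', ρ x = 1) {a : ℕ} (x : Fin a → V) :
    Nat.card (orb D' ρ x) ≤ p ^ (a * K.relIndex D') := by
  classical
  have hn : (K.subgroupOf D').Normal := hKn.subgroupOf D'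
  have hfi : (K.subgroupOf D').FiniteIndex := ⟨hK0⟩
  have : Fintype (D' ⧸ K.subgroupOf D') := Fintype.ofFinite _
  let w : Fin a × (D' ⧸ K.subgroupOf D') → V := fun q => ρ ((q.2.out : D') : 𝔾) (x q.1)
  have h1 : orb D' ρ x ≤ Finset.univ.sup (fun q => zpowers (w q)) := by
    unfold orb
    rw [closure_le]
    rintro _ ⟨d, hd, i, rfl⟩
    have h2 : ((⟨d, hd⟩ : D')⁻¹ * ((((⟨d, hd⟩ : D') : D' ⧸ K.subgroupOf D').out : D')) : D') ∈
        K.subgroupOf D' := by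
      rw [← QuotientGroup.eq, QuotientGroup.out_eq']
    have h3 : ρ d (x i) = w (i, ((⟨d, hd⟩ : D') : D' ⧸ K.subgroupOf D')) := by
      have h4 : ((((⟨d, hd⟩ : D') : D' ⧸ K.subgroupOf D').out : D') : 𝔾) =
          d * (d⁻¹ * ((((⟨d, hd⟩ : D') : D' ⧸ K.subgroupOf D').out : D') : 𝔾)) := by group
      have h5 : d⁻¹ * ((((⟨d, hd⟩ : D') : D' ⧸ K.subgroupOf D').out : D') : 𝔾) ∈ K ⊓ D' :=
        ⟨h2, D'.mul_mem (D'.inv_mem hd) ((((⟨d, hd⟩ : D') : D' ⧸ K.subgroupOf D').out : D')).2⟩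
      show _ = ρ _ (x i)
      rw [h4, map_mul, hρ _ h5, mul_one]
    rw [h3]
    exact (Finset.le_sup (f := fun q => zpowers (w q)) (Finset.mem_univ _)) (mem_zpowers _)
  refine (card_le_of_le h1).trans ?_
  refine (card_sup_prod (fun q => zpowers (w q)) (fun _ => p) Finset.univ fun q _ => ?_).trans ?_
  · rw [Nat.card_zpowers]
    exact Nat.le_of_dvd hp.out.pos (orderOf_dvd_of_pow_eq_one (hV _))
  · rw [Finset.prod_const, Finset.card_univ, Fintype.card_prod, Fintype.card_fin]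
    have h2 : Fintype.card (D' ⧸ K.subgroupOf D') = K.relIndex D' := by
      rw [← Nat.card_eq_fintype_card]
      rfl
    rw [h2]

end

end Pool.Agent.J6H71.Mu
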