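import Pool.Agent.J6H71.Mu.Mas

/-!
# The isotypical quotient, and the number of simple factors
-/

set_option autoImplicit false

namespace Pool.Agent.J6H71.Mu

open Subgroup Pool.Agent.W5h77.MB Pool.Agent.W5h33.DF Pool.Agent.J6H14.DMu

section
variable {𝔾 : Type} [Group 𝔾] {K D' : Subgroup 𝔾}

/-- The equivariant homomorphisms. -/
def hm {V S : Type} [CommGroup V] [CommGroup S] (D' : Subgroup 𝔾) (ρ : 𝔾 →* MulAut V)
    (b : 𝔾 →* MulAut S) : Subgroup (V →* S) where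
  carrier := {f | ∀ g ∈ D', ∀ v, f (ρ g v) = b g (f v)}
  mul_mem' := by
    intro f f' hf hf' g hg v
    rw [MonoidHom.mul_apply, MonoidHom.mul_apply, hf g hg, hf' g hg, map_mul]
  one_mem' := by
    intro g _ v
    rw [MonoidHom.one_apply, MonoidHom.one_apply, map_one]
  inv_mem' := by
    intro f hf g hg v
    rw [MonoidHom.inv_apply, MonoidHom.inv_apply, hf g hg, map_inv]

theorem mem_hm {V S : Type} [CommGroup V] [CommGroup S] {ρ : 𝔾 →* MulAut V} {b : 𝔾 →* MulAut S}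
    {f : V →* S} : f ∈ hm D' ρ b ↔ ∀ g ∈ D', ∀ v, f (ρ g v) = b g (f v) := Iff.rfl

/-- The homomorphisms which are trivial on `T`. -/
def an {V : Type} (S : Type) [CommGroup V] [CommGroup S] (T : Subgroup V) : Subgroup (V →* S) where
  carrier := {f | ∀ v ∈ T, f v = 1}
  mul_mem' := by
    intro f f' hf hf' v hv
    rw [MonoidHom.mul_apply, hf v hv, hf' v hv, mul_one]
  one_mem' := fun _ _ => rfl
  inv_mem' := by
    intro f hf v hv
    rw [MonoidHom.inv_apply, hf v hv, inv_one]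

theorem mem_an {V S : Type} [CommGroup V] [CommGroup S] {T : Subgroup V} {f : V →* S} :
    f ∈ an S T ↔ ∀ v ∈ T, f v = 1 := Iff.rfl

theorem an_anti {V S : Type} [CommGroup V] [CommGroup S] {T T' : Subgroup V} (h : T ≤ T') :
    an S T' ≤ an S T := fun _ hf v hv => hf v (h hv)

/-- The endomorphisms of a module. -/
def En {S : Type} [CommGroup S] (b : 𝔾 →* MulAut S) : Type :=
  {e : S →* S // ∀ g s, e (b g s) = b g (e s)}

/-- The common kernel of the equivariant homomorphisms to `S`. -/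
def rad {V S : Type} [CommGroup V] [CommGroup S] (D' : Subgroup 𝔾) (ρ : 𝔾 →* MulAut V)
    (b : 𝔾 →* MulAut S) : Subgroup V where
  carrier := {v | ∀ f ∈ hm D' ρ b, f v = 1}
  mul_mem' := by
    intro x y hx hy f hf
    rw [map_mul, hx f hf, hy f hf, mul_one]
  one_mem' := fun f _ => map_one f
  inv_mem' := by
    intro x hx f hf
    rw [map_inv, hx f hf, inv_one]

theorem mem_rad {V S : Type} [CommGroup V] [CommGroup S] {ρ : 𝔾 →* MulAut V} {b : 𝔾 →* MulAut S}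
    {v : V} : v ∈ rad D' ρ b ↔ ∀ f ∈ hm D' ρ b, f v = 1 := Iff.rfl

theorem rad_stable (hD'n : D'.Normal) {V S : Type} [CommGroup V] [CommGroup S]
    (ρ : 𝔾 →* MulAut V) (b : 𝔾 →* MulAut S) : ∀ g, ∀ v ∈ rad D' ρ b, ρ g v ∈ rad D' ρ b := by
  intro g v hv f hf
  let f' : V →* S := ((b g)⁻¹ : MulAut S).toMonoidHom.comp (f.comp (ρ g).toMonoidHom)
  have hf' : f' ∈ hm D' ρ b := by
    intro d hd w
    show (b g)⁻¹ (f (ρ g (ρ d w))) = b d ((b g)⁻¹ (f (ρ g w)))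
    have h2 : (g * d * g⁻¹ : 𝔾) ∈ D' := hD'n.conj_mem d hd g
    have h3 : ρ g (ρ d w) = ρ (g * d * g⁻¹) (ρ g w) := by
      have e1 : ρ g (ρ d w) = ρ (g * d) w := by rw [map_mul, MulAut.mul_apply]
      have e2 : ρ (g * d * g⁻¹) (ρ g w) = ρ (g * d * g⁻¹ * g) w := by
        rw [map_mul ρ (g * d * g⁻¹) g, MulAut.mul_apply]
      rw [e1, e2, inv_mul_cancel_right]
    rw [h3, hf _ h2, map_mul b, map_mul b, map_inv, MulAut.mul_apply, MulAut.mul_apply,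
      MulAut.inv_apply_self]
  have h1 : (b g)⁻¹ (f (ρ g v)) = 1 := hv f' hf'
  rwa [EmbeddingLike.map_eq_one_iff] at h1

/-- A factor of `V` above the radical is isomorphic to `S`. -/
theorem factor_iso {p m' : ℕ} [hp : Fact p.Prime] (hKn : K.Normal) (hD'n : D'.Normal)
    (hD'i : D'.index = p ^ m') (hKp : ¬ p ∣ K.relIndex ⊤)
    {V S : Type} [CommGroup V] [Finite V] [CommGroup S] (hV : ∀ v : V, v ^ p = 1)
    (ρ : 𝔾 →* MulAut V) (b : 𝔾 →* MulAut S) (hρ : ∀ x ∈ K ⊓ D', ρ x = 1) (hS : Simp p K b)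
    {T₁ T₂ : Subgroup V} (h1 : ∀ g, ∀ v ∈ T₁, ρ g v ∈ T₁) (h2 : ∀ g, ∀ v ∈ T₂, ρ g v ∈ T₂)
    (hr : rad D' ρ b ≤ T₂) (hlt : T₂ < T₁)
    (hmax : ∀ M : Subgroup V, (∀ g, ∀ v ∈ M, ρ g v ∈ M) → T₂ ≤ M → M ≤ T₁ → M = T₂ ∨ M = T₁) :
    ∃ f : T₁ →* S, Function.Surjective f ∧ (∀ v, f v = 1 ↔ (v : V) ∈ T₂) ∧
      ∀ g (v : T₁) (hv : ρ g v ∈ T₁), f ⟨ρ g v, hv⟩ = b g (f v) := by
  classical
  have hKD : ¬ p ∣ K.relIndex D' := fun h => hKp (h.trans (rel_dvd hKn le_top))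
  obtain ⟨v₀, hv₀, hv₀'⟩ := SetLike.exists_of_lt hlt
  -- a projection to `T₂`
  obtain ⟨Q, iQ, β, g, hg1, hg2, hg3⟩ := exists_quo ρ (T := T₂) (T' := ⊥) h2 (by
    intro g v hv
    rw [mem_bot] at hv ⊢
    rw [hv, map_one])
  have hQp : ∀ s : Q, s ^ p = 1 := by
    intro s
    obtain ⟨v, rfl⟩ := hg1 s
    rw [← map_pow]
    have h5 : v ^ p = 1 := Subtype.ext (hV v)
    rw [h5, map_one]
  have hβ : ∀ x ∈ K ⊓ D', β x = 1 := by
    intro x hx
    ext s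
    obtain ⟨v, rfl⟩ := hg1 s
    have h5 : ρ x (v : V) = v := by rw [hρ x hx, MulAut.one_apply]
    rw [← hg3 x v (by rw [h5]; exact v.2), MulAut.one_apply]
    congr 1
    exact Subtype.ext h5
  obtain ⟨G, hG1, hG2⟩ := equi_ext hKn hKD hV hQp ρ β hρ hβ (T := T₂) (fun g _ => h2 g) g
    (fun d _ v hv => hg3 d v hv)
  have hginj : Function.Injective g := by
    rw [injective_iff_map_eq_one]
    intro v hv
    have h3 := (hg2 v).1 hv
    rw [mem_bot] at h3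
    exact Subtype.ext h3
  let e : T₂ ≃* Q := MulEquiv.ofBijective g ⟨hginj, hg1⟩
  let π : V →* V := T₂.subtype.comp (e.symm.toMonoidHom.comp G)
  have he : ∀ q : Q, g (e.symm q) = q := fun q => e.apply_symm_apply q
  have hπT : ∀ v, π v ∈ T₂ := fun v => (e.symm (G v)).2
  have hπ1 : ∀ v ∈ T₂, π v = v := by
    intro v hv
    show ((e.symm (G v) : T₂) : V) = v
    have h3 : G v = g ⟨v, hv⟩ := hG1 ⟨v, hv⟩
    rw [h3]
    have h4 : e.symm (g ⟨v, hv⟩) = ⟨v, hv⟩ := e.symm_apply_apply ⟨v, hv⟩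
    rw [h4]
  have hπe : ∀ d ∈ D', ∀ v, π (ρ d v) = ρ d (π v) := by
    intro d hd v
    show ((e.symm (G (ρ d v)) : T₂) : V) = ρ d ((e.symm (G v) : T₂) : V)
    have h3 : e.symm (G (ρ d v)) = ⟨ρ d (e.symm (G v) : T₂), h2 d _ (e.symm (G v)).2⟩ := by
      apply hginj
      rw [he, hg3 d (e.symm (G v)), he, hG2 d hd]
    rw [h3]
  -- a homomorphism to `S`
  have hw : v₀ * (π v₀)⁻¹ ∉ rad D' ρ b := by
    intro h
    apply hv₀'
    have h3 := T₂.mul_mem (hr h) (hπT v₀)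
    rwa [inv_mul_cancel_right] at h3
  rw [mem_rad] at hw
  push Not at hw
  obtain ⟨f, hf, hfw⟩ := hw
  let f' : T₁ →* S :=
    { toFun := fun v => f (v * (π v)⁻¹)
      map_one' := by
        show f ((1 : V) * (π 1)⁻¹) = 1
        rw [map_one, inv_one, one_mul, map_one]
      map_mul' := by
        intro x y
        show f ((x : V) * y * (π ((x : V) * y))⁻¹) = f ((x : V) * (π x)⁻¹) * f ((y : V) * (π y)⁻¹)
        rw [map_mul π, mul_inv, mul_mul_mul_comm, map_mul] }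
  have hf'2 : ∀ v : T₁, (v : V) ∈ T₂ → f' v = 1 := by
    intro v hv
    show f ((v : V) * (π v)⁻¹) = 1
    rw [hπ1 v hv, mul_inv_cancel, map_one]
  have hf'D : ∀ d ∈ D', ∀ (v : T₁) (hv : ρ d v ∈ T₁), f' ⟨ρ d v, hv⟩ = b d (f' v) := by
    intro d hd v hv
    show f (ρ d v * (π (ρ d v))⁻¹) = b d (f (v * (π v)⁻¹))
    rw [hπe d hd, ← hf d hd, map_mul (ρ d), map_inv (ρ d)]
  -- the action of `K` on the factor
  obtain ⟨S₁, iS₁, b₁, f₁, hfS₁, hsimp₁, hsurj₁, hker₁, hf₁⟩ := exists_simple hp.out hKn hD'n hD'i hV ρ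
    hρ h1 h2 hlt hmax
  have hf'K : ∀ x ∈ K, ∀ (v : T₁) (hv : ρ x v ∈ T₁), f' ⟨ρ x v, hv⟩ = f' v := by
    intro x hx v hv
    have h3 : (⟨ρ x v, hv⟩ : T₁) * v⁻¹ ∈ f₁.ker := by
      rw [MonoidHom.mem_ker, map_mul, hf₁, hsimp₁.2.2.1 x hx, MulAut.one_apply, map_inv,
        mul_inv_cancel]
    have h4 := hf'2 _ ((hker₁ _).1 h3)
    rw [map_mul, map_inv, mul_inv_eq_one] at h4
    exact h4
  have hf'G : ∀ g (v : T₁) (hv : ρ g v ∈ T₁), f' ⟨ρ g v, hv⟩ = b g (f' v) := by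
    intro g v hv
    obtain ⟨e, he1, he2⟩ := exists_pow hp.out hKn hD'n hD'i hKp (mem_top g)
    have h3 : g ^ e = g * (g⁻¹ * g ^ e) := by group
    have h4 : ρ (g⁻¹ * g ^ e) v ∈ T₁ := h1 _ v v.2
    have h5 : ρ (g ^ e) v ∈ T₁ := h1 _ v v.2
    have h6 : b (g ^ e) = b g := by rw [h3, map_mul, hS.2.2.1 _ he2, mul_one]
    rw [← h6, ← hf'D _ he1 v h5]
    -- `ρ (g ^ e) v` and `ρ g v` are congruent
    have h7 : (⟨ρ (g ^ e) v, h5⟩ : T₁) * (⟨ρ g v, hv⟩ : T₁)⁻¹ ∈ f₁.ker := by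
      have h8 : f₁ ⟨ρ (g ^ e) v, h5⟩ = f₁ ⟨ρ g v, hv⟩ := by
        rw [hf₁, hf₁, h3, map_mul, hsimp₁.2.2.1 _ he2, mul_one]
      rw [MonoidHom.mem_ker, map_mul, h8, map_inv, mul_inv_cancel]
    have h9 := hf'2 _ ((hker₁ _).1 h7)
    rw [map_mul, map_inv, mul_inv_eq_one] at h9
    exact h9.symm
  refine ⟨f', ?_, ?_, hf'G⟩
  · rcases hS.2.2.2 f'.range (by
      rintro g _ ⟨v, rfl⟩
      exact ⟨⟨ρ g v, h1 g v v.2⟩, hf'G g v _⟩) with h | h
    · exfalso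
      apply hfw
      have h3 : f' ⟨v₀, hv₀⟩ ∈ f'.range := ⟨_, rfl⟩
      rw [h, mem_bot] at h3
      exact h3
    · exact MonoidHom.range_eq_top.1 h
  · have h3 := hmax (f'.ker.map T₁.subtype) (by
      rintro g _ ⟨v, hv, rfl⟩
      refine ⟨⟨ρ g v, h1 g v v.2⟩, ?_, rfl⟩
      show f' _ = 1
      rw [hf'G g v, show f' v = 1 from hv, map_one]) (fun v hv =>
      ⟨⟨v, hlt.le hv⟩, hf'2 ⟨v, hlt.le hv⟩ hv, rfl⟩) (by
      rintro _ ⟨v, -, rfl⟩
      exact v.2)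
    have h4 : f'.ker.map T₁.subtype = T₂ := by
      rcases h3 with h | h
      · exact h
      · exfalso
        have h5 := hv₀
        rw [← h] at h5
        obtain ⟨w, hw, hwv⟩ := h5
        have h6 : w = ⟨v₀, hv₀⟩ := Subtype.ext hwv
        rw [h6] at hw
        exact hfw hw
    intro v
    rw [← h4]
    constructor
    · exact fun h => ⟨v, h, rfl⟩
    · rintro ⟨w, hw, hwv⟩
      have h6 : w = v := Subtype.ext hwv
      rw [← h6]
      exact hw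

/-- There is no factor isomorphic to `S` inside the radical. -/
theorem rad_no {p : ℕ} [hp : Fact p.Prime] (hKn : K.Normal)
    (hKp : ¬ p ∣ K.relIndex ⊤)
    {V S : Type} [CommGroup V] [CommGroup S] (hV : ∀ v : V, v ^ p = 1)
    (ρ : 𝔾 →* MulAut V) (b : 𝔾 →* MulAut S) (hρ : ∀ x ∈ K ⊓ D', ρ x = 1) (hS : Simp p K b)
    {T₁ : Subgroup V} (h1 : ∀ g, ∀ v ∈ T₁, ρ g v ∈ T₁) (f : T₁ →* S)
    (hf : ∀ g (v : T₁) (hv : ρ g v ∈ T₁), f ⟨ρ g v, hv⟩ = b g (f v)) :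
    ∀ v : T₁, (v : V) ∈ rad D' ρ b → f v = 1 := by
  have hKD : ¬ p ∣ K.relIndex D' := fun h => hKp (h.trans (rel_dvd hKn le_top))
  obtain ⟨F, hF1, hF2⟩ := equi_ext hKn hKD hV hS.2.1 ρ b hρ (fun x hx => hS.2.2.1 x hx.1)
    (T := T₁) (fun g _ => h1 g) f (fun g _ => hf g)
  intro v hv
  rw [← hF1]
  exact hv F hF2

end

end Pool.Agent.J6H71.Mu
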