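import Pool.Agent.J6H71.Mu.Fld
import Pool.Agent.J6H71.Mu.Dfs

/-!
# Simple modules and cyclic extensions
-/

set_option autoImplicit false

namespace Pool.Agent.J6H71.Mu

open IntermediateField Module Pool.Agent.Q60.MU Pool.Agent.W5h77.MB Pool.Agent.W5h33.DF
  Pool.Agent.J6H14.DMu Pool.Agent.J6H71.MuS NumberField
open scoped Pointwise commutatorElement

section
variable {p : ℕ} [hp : Fact p.Prime] {s : Bool} {k K : Fl} [FiniteDimensional ℚ K]

omit [FiniteDimensional ℚ K] in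
theorem comm_sb (hab : IsAbelianOver k K) (g h : k.fixingSubgroup) : ⁅g, h⁆ ∈ sb k K := by
  rw [mem_sb, IntermediateField.mem_fixingSubgroup_iff]
  intro x hx
  have h1 : (h : Gal(Qb/ℚ))⁻¹ x ∈ K := hab.2.1 _ (inv_mem h.2) x hx
  have h2 : (g : Gal(Qb/ℚ))⁻¹ ((h : Gal(Qb/ℚ))⁻¹ x) ∈ K := hab.2.1 _ (inv_mem g.2) _ h1
  have h3 : (g : Gal(Qb/ℚ)) ((h : Gal(Qb/ℚ)) ((g : Gal(Qb/ℚ))⁻¹ ((h : Gal(Qb/ℚ))⁻¹ x))) =
      (h : Gal(Qb/ℚ)) ((g : Gal(Qb/ℚ)) ((g : Gal(Qb/ℚ))⁻¹ ((h : Gal(Qb/ℚ))⁻¹ x))) :=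
    hab.2.2 _ g.2 _ h.2 _ h2
  show (g : Gal(Qb/ℚ)) ((h : Gal(Qb/ℚ)) ((g : Gal(Qb/ℚ))⁻¹ ((h : Gal(Qb/ℚ))⁻¹ x))) = x
  rw [h3]
  have h8 : ∀ (a : Gal(Qb/ℚ)) (y : Qb), a (a⁻¹ y) = y := by
    intro a y
    rw [← AlgEquiv.mul_apply, mul_inv_cancel, AlgEquiv.one_apply]
  rw [h8, h8]

/-- The field of a simple module. -/
theorem exists_kernel (h6 : AbelianSimpleT) (hab : IsAbelianOver k K) {S : Type} [CommGroup S]
    [Finite S] (b : k.fixingSubgroup →* MulAut S) (hS : Simp p (sb k K) b) :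
    ∃ C, CyclicIn p k K C ∧ sb k C = b.ker ∧ Nat.card S ≤ Nat.card (En b) ∧
      p ^ ordMod p k C ≤ Nat.card S ∧ (∀ H : Subgroup k.fixingSubgroup, H ≤ sb k C → fx b H = ⊤) ∧
      ∀ H : Subgroup k.fixingSubgroup, ¬ H ≤ sb k C → fx b H = ⊥ := by
  obtain ⟨h1, h2, ⟨σ, hσ⟩, h4, h5⟩ := h6 k.fixingSubgroup p (sb k K) (sb_normal hab.2.1)
    (sb_index_ne hab.1) (comm_sb hab) S b hS
  have hKb : sb k K ≤ b.ker := fun g hg => hS.2.2.1 g hg
  obtain ⟨C, hkC, hCK, hC⟩ := exists_field hab.1 hKb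
  have hfC : FiniteDimensional ℚ C := fd_of_le hCK
  have hidx : b.ker.index = rdeg k C := by rw [← hC, index_sb hkC]
  refine ⟨C, ⟨hkC, hCK, ?_, ?_, σ, σ.2, ?_⟩, hC, h1, ?_, ?_, ?_⟩
  · intro τ hτ x hx
    have hn : (sb k C).Normal := by
      rw [hC]
      exact b.normal_ker
    have h6 : im τ x ∈ fixedField C.fixingSubgroup := by
      rw [mem_fixedField_iff]
      intro g hg
      have hgk : g ∈ k.fixingSubgroup := fixingSubgroup_le hkC hg
      have h7 := hn.conj_mem (⟨g, hgk⟩ : k.fixingSubgroup) hg (⟨τ, hτ⟩⁻¹ : k.fixingSubgroup)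
      have h8 : (τ⁻¹ * g * (τ⁻¹)⁻¹) x = x := (IntermediateField.mem_fixingSubgroup_iff _ _).1 h7 x hx
      rw [inv_inv] at h8
      have h9 : τ ((τ⁻¹ * g * τ) x) = g (τ x) := by
        rw [← AlgEquiv.mul_apply, ← AlgEquiv.mul_apply]
        congr 1
        group
      rw [h8] at h9
      exact h9.symm
    rwa [InfiniteGalois.fixedField_fixingSubgroup] at h6
  · rw [← hidx]
    exact h4
  · intro τ hτ
    obtain ⟨i, hi⟩ := hσ ⟨τ, hτ⟩
    refine ⟨i, fun x hx => ?_⟩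
    rw [← hC] at hi
    have hn : (sb k C).Normal := by
      rw [hC]
      exact b.normal_ker
    have h7 := hn.conj_mem _ hi ((σ ^ i)⁻¹)
    have h8 : (σ ^ i)⁻¹ * (⟨τ, hτ⟩ * (σ ^ i)⁻¹) * ((σ ^ i)⁻¹)⁻¹ = (σ ^ i)⁻¹ * ⟨τ, hτ⟩ := by group
    rw [h8] at h7
    have h9 : (((σ : Gal(Qb/ℚ)) ^ i)⁻¹ * τ) x = x := by
      have := (IntermediateField.mem_fixingSubgroup_iff _ _).1 h7 x hx
      exact_mod_cast this
    show τ x = ((σ : Gal(Qb/ℚ)) ^ i) x
    conv_rhs => rw [← h9]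
    rw [← AlgEquiv.mul_apply, mul_inv_cancel_left]
  · unfold ordMod
    rw [← hidx]
    exact h5
  · intro H hH
    rw [eq_top_iff]
    intro v _ g hg
    have h7 : g ∈ b.ker := hC ▸ hH hg
    rw [show b g = 1 from h7, MulAut.one_apply]
  · intro H hH
    refine (h2 H).resolve_left fun htop => hH ?_
    intro g hg
    rw [hC]
    show b g = 1
    ext v
    have hv : v ∈ fx b H := by
      rw [htop]
      trivial
    rw [MulAut.one_apply]
    exact hv g hg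

omit [FiniteDimensional ℚ K] in
/-- The number of fixed vectors. -/
theorem prod_fix {C : Fl} {S : Type} [CommGroup S] [Finite S]
    (b : k.fixingSubgroup →* MulAut S)
    (h1 : ∀ H : Subgroup k.fixingSubgroup, H ≤ sb k C → fx b H = ⊤)
    (h2 : ∀ H : Subgroup k.fixingSubgroup, ¬ H ≤ sb k C → fx b H = ⊥) {r : ℕ} (P : Fin r → Fl)
    (hP : ∀ i, k ≤ P i) : ∏ i, Nat.card (fx b (sb k (P i))) = Nat.card S ^ cnt C P := by
  classical
  have h3 : ∀ i, Nat.card (fx b (sb k (P i))) = if C ≤ P i then Nat.card S else 1 := by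
    intro i
    split_ifs with h
    · rw [h1 _ (sb_mono h), Subgroup.card_top]
    · rw [h2 _ (fun h' => h ((sb_le_iff (hP i)).1 h')), Subgroup.card_bot]
  rw [Finset.prod_congr rfl fun i _ => h3 i, Finset.prod_ite, Finset.prod_const,
    Finset.prod_const_one, mul_one]
  congr 1
  unfold cnt
  rw [Nat.card_eq_fintype_card, Fintype.card_subtype]

omit [FiniteDimensional ℚ K] in
theorem ineq_up {A B q x y e f : ℕ} (hq : p ^ f ≤ q) (hxy : y ≤ x)
    (h : A < B * p ^ (f * (x - y) * e)) : A * (q ^ y) ^ e < B * (q ^ x) ^ e := by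
  have hq0 : 0 < q := (pow_pos hp.out.pos f).trans_le hq
  have h1 : (q ^ x) ^ e = (q ^ (x - y)) ^ e * (q ^ y) ^ e := by
    rw [← mul_pow, ← pow_add]
    congr 2
    omega
  have h2 : p ^ (f * (x - y) * e) ≤ (q ^ (x - y)) ^ e := by
    rw [pow_mul, pow_mul]
    exact Nat.pow_le_pow_left (Nat.pow_le_pow_left hq _) _
  rw [h1, ← mul_assoc]
  exact Nat.mul_lt_mul_of_pos_right (h.trans_le (Nat.mul_le_mul_left _ h2))
    (pow_pos (pow_pos hq0 _) _)

omit [FiniteDimensional ℚ K] in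
theorem not_dvd_rel (hab : IsAbelianOver k K) [FiniteDimensional ℚ K] (hpK : ¬ p ∣ rdeg k K)
    {L : Subgroup k.fixingSubgroup} : ¬ p ∣ (sb k K).relIndex L := by
  have hn : (sb k K).Normal := sb_normal hab.2.1
  intro h
  apply hpK
  rw [← index_sb hab.1, ← Subgroup.relIndex_top_right]
  exact h.trans (rel_dvd hn le_top)

variable [hfk : FiniteDimensional ℚ k]

/-- The conditions on the fields `P i`, `N j`. -/
theorem adm (h6 : AbelianSimpleT) (hab : IsAbelianOver k K) {r u : ℕ} {P : Fin r → Fl}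
    {N : Fin u → Fl} (h : Admissible p k K P N) (T : Type) [CommGroup T] [Finite T]
    (a : k.fixingSubgroup →* MulAut T) (hT : Simp p (sb k K) a) :
    ∏ j, Nat.card (fx a (sb k (N j))) ≤ ∏ i, Nat.card (fx a (sb k (P i))) := by
  obtain ⟨C, hC, -, -, -, h1, h2⟩ := exists_kernel h6 hab a hT
  rw [prod_fix a h1 h2 P fun i => (h.1 i).1, prod_fix a h1 h2 N fun j => (h.2.1 j).1]
  exact Nat.pow_le_pow_right Nat.card_pos (h.2.2 C hC)

/-- The criterion at one layer. -/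
theorem crt_of (h6 : AbelianSimpleT) (hab : IsAbelianOver k K) (hpK : ¬ p ∣ rdeg k K) {m t : ℕ}
    {R C : Fl} (hR : Layer p m R) {S : Type} [CommGroup S] [Finite S]
    (b : k.fixingSubgroup →* MulAut S) (hC : CyclicIn p k K C)
    (hS : p ^ ordMod p k C ≤ Nat.card S)
    (h1 : ∀ H : Subgroup k.fixingSubgroup, H ≤ sb k C → fx b H = ⊤)
    (h2 : ∀ H : Subgroup k.fixingSubgroup, ¬ H ≤ sb k C → fx b H = ⊥)
    (h : OneLayer p s k K C R t) : Crt p (lc p s k) (sb k K) (sb k R) b t := by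
  have hfR := layer_fd hp.out hR.1
  obtain ⟨r, u, P, N, A, B, hadm, hP, hN, hlt⟩ := h
  have hPf : ∀ i, FiniteDimensional ℚ (P i) := fun i => fd_of_le (hadm.1 i).2.1
  have hNf : ∀ j, FiniteDimensional ℚ (N j) := fun j => fd_of_le (hadm.2.1 j).2.1
  refine ⟨r, u, fun i => sb k (P i), fun j => sb k (N j), A, B, ?_, ?_, adm h6 hab hadm, ?_⟩
  · intro i
    have := hPf i
    refine ⟨sb_mono (hadm.1 i).2.1, not_dvd_rel hab hpK, ?_⟩
    rw [sb_inf]
    exact (rk_iff ((hadm.1 i).1.trans le_sup_left) _).2 (hP i)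
  · intro j
    have := hNf j
    refine ⟨sb_mono (hadm.2.1 j).2.1, not_dvd_rel hab hpK, fun C' hC' => ?_⟩
    rw [sb_inf] at hC'
    exact hN j C' ((rk_iff ((hadm.2.1 j).1.trans le_sup_left) _).1 hC')
  · rw [prod_fix b h1 h2 P fun i => (hadm.1 i).1, prod_fix b h1 h2 N fun j => (hadm.2.1 j).1,
      rel_layer' hab.1 hab.2.1 hpK hR]
    exact ineq_up hS (hadm.2.2 C hC) hlt

/-- The criterion at two layers. -/
theorem cr2_of (h6 : AbelianSimpleT) (hab : IsAbelianOver k K) (hpK : ¬ p ∣ rdeg k K) {m m₁ : ℕ}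
    {R R₁ C : Fl} (hR : Layer p m R) (hR₁ : Layer p m₁ R₁) {S : Type} [CommGroup S] [Finite S]
    (b : k.fixingSubgroup →* MulAut S) (hC : CyclicIn p k K C)
    (hS : p ^ ordMod p k C ≤ Nat.card S)
    (h1 : ∀ H : Subgroup k.fixingSubgroup, H ≤ sb k C → fx b H = ⊤)
    (h2 : ∀ H : Subgroup k.fixingSubgroup, ¬ H ≤ sb k C → fx b H = ⊥)
    (h : TwoLayers p s k K C R₁ R) : Cr2 p (lc p s k) (sb k K) (sb k R₁) (sb k R) b := by
  have hfR := layer_fd hp.out hR.1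
  have hfR₁ := layer_fd hp.out hR₁.1
  obtain ⟨r, u, P, N, A, A', B, B', hadm, hP, hN, hlt⟩ := h
  have hPf : ∀ i, FiniteDimensional ℚ (P i) := fun i => fd_of_le (hadm.1 i).2.1
  have hNf : ∀ j, FiniteDimensional ℚ (N j) := fun j => fd_of_le (hadm.2.1 j).2.1
  refine ⟨r, u, fun i => sb k (P i), fun j => sb k (N j), A, A', B, B', ?_, ?_,
    adm h6 hab hadm, ?_⟩
  · intro i
    have := hPf i
    refine ⟨sb_mono (hadm.1 i).2.1, not_dvd_rel hab hpK, ?_, fun C' hC' => ?_⟩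
    · rw [sb_inf]
      exact (rk_iff ((hadm.1 i).1.trans le_sup_left) _).2 (hP i).1
    · rw [sb_inf] at hC'
      exact (hP i).2 C' ((rk_iff ((hadm.1 i).1.trans le_sup_left) _).1 hC')
  · intro j
    have := hNf j
    refine ⟨sb_mono (hadm.2.1 j).2.1, not_dvd_rel hab hpK, fun C' hC' => ?_, ?_⟩
    · rw [sb_inf] at hC'
      exact (hN j).1 C' ((rk_iff ((hadm.2.1 j).1.trans le_sup_left) _).1 hC')
    · rw [sb_inf]
      exact (rk_iff ((hadm.2.1 j).1.trans le_sup_left) _).2 (hN j).2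
  · rw [prod_fix b h1 h2 P fun i => (hadm.1 i).1, prod_fix b h1 h2 N fun j => (hadm.2.1 j).1,
      rel_layer' hab.1 hab.2.1 hpK hR, rel_layer' hab.1 hab.2.1 hpK hR₁]
    exact ineq_up hS (hadm.2.2 C hC) hlt

end

end Pool.Agent.J6H71.Mu
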