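import Pool.Agent.J6H71.Mu.Low

/-!
# The criterion for a simple module, with ramification
-/

set_option autoImplicit false

namespace Pool.Agent.J6H71.Mu

open Subgroup Pool.Agent.Q60.MU Pool.Agent.W5h77.MB Pool.Agent.W5h33.DF Pool.Agent.J6H14.DMu
open scoped commutatorElement

variable {𝔾 : Type} [Group 𝔾]

/-- the criterion for the module `b` at the layer `D`, with `t` ramified copies -/
def Crt [TopologicalSpace 𝔾] (p : ℕ) {Ω : Type} (I : Ω → Subgroup 𝔾) (K D : Subgroup 𝔾) {S : Type}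
    [CommGroup S] (b : 𝔾 →* MulAut S) (t : ℕ) : Prop :=
  ∃ (r s : ℕ) (P : Fin r → Subgroup 𝔾) (N : Fin s → Subgroup 𝔾) (C : Fin r → ℕ) (c : Fin s → ℕ),
    (∀ i, K ≤ P i ∧ ¬ p ∣ K.relIndex (P i) ∧ RankLe p I (P i ⊓ D) (C i)) ∧
    (∀ j, K ≤ N j ∧ ¬ p ∣ K.relIndex (N j) ∧ ∀ C', RankLe p I (N j ⊓ D) C' → c j ≤ C') ∧
    (∀ (T : Type) [CommGroup T] [Finite T] (a : 𝔾 →* MulAut T), Simp p K a →
      ∏ j, Nat.card (fx a (N j)) ≤ ∏ i, Nat.card (fx a (P i))) ∧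
    (∏ i, C i) * (∏ j, Nat.card (fx b (N j))) ^ (D.relIndex K - t) <
      (∏ j, c j) * (∏ i, Nat.card (fx b (P i))) ^ (D.relIndex K - t)

/-- the number of ramified copies is at most `t` -/
def Mlt {Ω : Type} [MulAction 𝔾 Ω] (I : Ω → Subgroup 𝔾) (D' : Subgroup 𝔾) {S : Type}
    [CommGroup S] (b : 𝔾 →* MulAut S) (t : ℕ) : Prop :=
  ∃ (a : ℕ) (𝒜 : Fin a → Ω), (∀ A, I A ≤ D' ∨ fx b (MulAction.stabilizer 𝔾 A) = ⊥ ∨
      ∃ i, ∃ g ∈ D', g • A = 𝒜 i) ∧
    ∏ i, Nat.card (fx b (MulAction.stabilizer 𝔾 (𝒜 i))) < Nat.card (En b) ^ (t + 1)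

theorem fil_mono {V : Type} [CommGroup V] {U U' : Subgroup V} (h : U ≤ U') (φ : V →* V) (j : ℕ) :
    fil U φ j ≤ fil U' φ j := by
  induction j with
  | zero => exact le_rfl
  | succ j ih => exact sup_le_sup h (map_mono ih)

theorem fil_sup {V : Type} [CommGroup V] {U W : Subgroup V} {φ : V →* V}
    (hW : ∀ w ∈ W, φ w ∈ W) (j : ℕ) : fil (U ⊔ W) φ j ≤ W ⊔ fil U φ j := by
  induction j with
  | zero => exact le_sup_right
  | succ j ih =>
    rw [fil_succ, fil_succ]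
    refine sup_le (sup_le (le_sup_of_le_right le_sup_left) le_sup_left) ?_
    refine (map_mono ih).trans ?_
    rw [Subgroup.map_sup]
    refine sup_le ?_ (le_sup_of_le_right le_sup_right)
    refine le_sup_of_le_left ?_
    rintro _ ⟨w, hw, rfl⟩
    exact hW w hw

/-- No fixed vectors modulo a submodule which contains the radical. -/
theorem no_fix {p m' : ℕ} [hp : Fact p.Prime] {K D' : Subgroup 𝔾} (hKn : K.Normal)
    (hD'n : D'.Normal) (hD'i : D'.index = p ^ m') (hKp : ¬ p ∣ K.relIndex ⊤)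
    {V S : Type} [CommGroup V] [Finite V] [CommGroup S] (hV : ∀ v : V, v ^ p = 1)
    (ρ : 𝔾 →* MulAut V) (b : 𝔾 →* MulAut S) (hρ : ∀ x ∈ K ⊓ D', ρ x = 1) (hS : Simp p K b)
    {Z : Subgroup 𝔾} (hZ : fx b Z = ⊥) {T : Subgroup V} (hT : ∀ g, ∀ v ∈ T, ρ g v ∈ T)
    (hr : rad D' ρ b ≤ T) : ∀ v, (∀ z ∈ Z ⊓ D', ρ z v * v⁻¹ ∈ T) → v ∈ T := by
  intro v hv
  refine nofix hp.out ((Z ⊓ D').map ρ) (card_map_cop (D' := D') hKn hKp ρ hρ le_top inf_le_right) T
    ?_ (hV v) ?_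
  · intro x hx
    by_contra hxT
    obtain ⟨T₁, T₂, h1, h2, h3, h4, h5, h6, h7⟩ := exists_factor ρ hT hxT
    obtain ⟨f, hsurj, hker, hf⟩ := factor_iso hKn hD'n hD'i hKp hV ρ b hρ hS h1 h2 (hr.trans h3) h4 h7
    have h9 : f ⟨x, h5⟩ ∈ fx b (Z ⊓ D') := by
      intro z hz
      have h10 : ρ z x = x := hx _ ⟨z, hz, rfl⟩
      rw [← hf z ⟨x, h5⟩ (by rw [h10]; exact h5)]
      congr 1
      exact Subtype.ext h10
    rw [fx_sub hp.out hKn hD'n hD'i hKp hS.2.2.1 (le_top : Z ≤ ⊤), hZ, mem_bot, hker] at h9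
    exact h6 h9
  · rintro _ ⟨z, hz, rfl⟩
    exact hv z hz

/-- The quotient by a submodule which contains the radical has only factors isomorphic to `S`. -/
theorem only_quo {p m' : ℕ} [hp : Fact p.Prime] {K D' : Subgroup 𝔾} (hKn : K.Normal)
    (hD'n : D'.Normal) (hD'i : D'.index = p ^ m') (hKp : ¬ p ∣ K.relIndex ⊤)
    {V S X : Type} [CommGroup V] [Finite V] [CommGroup S] [CommGroup X] (hV : ∀ v : V, v ^ p = 1)
    (ρ : 𝔾 →* MulAut V) (b : 𝔾 →* MulAut S) (hρ : ∀ x ∈ K ⊓ D', ρ x = 1) (hS : Simp p K b)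
    (β : 𝔾 →* MulAut X) (f : V →* X) (hsurj : Function.Surjective f)
    (hfe : ∀ g v, f (ρ g v) = β g (f v)) (hr : rad D' ρ b ≤ f.ker) : Only β b := by
  intro T₁ T₂ h1 h2 hlt hmax
  have hc : ∀ T : Subgroup X, (∀ g, ∀ v ∈ T, β g v ∈ T) → ∀ g, ∀ v ∈ T.comap f, ρ g v ∈ T.comap f := by
    intro T hT g v hv
    show f (ρ g v) ∈ T
    rw [hfe]
    exact hT g _ hv
  have hker : ∀ T : Subgroup X, f.ker ≤ T.comap f := fun T v hv => by
    show f v ∈ T
    rw [show f v = 1 from hv]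
    exact T.one_mem
  obtain ⟨f', hf1, hf2, hf3⟩ := factor_iso hKn hD'n hD'i hKp hV ρ b hρ hS (hc T₁ h1) (hc T₂ h2)
    (hr.trans (hker T₂)) ((Subgroup.comap_lt_comap_of_surjective hsurj).2 hlt) (by
      intro M hM hle1 hle2
      have h5 := hmax (M.map f) (by
        rintro g _ ⟨v, hv, rfl⟩
        rw [← hfe]
        exact ⟨_, hM g v hv, rfl⟩) (by
        rw [← Subgroup.map_comap_eq_self_of_surjective hsurj T₂]
        exact map_mono hle1) (by
        rw [← Subgroup.map_comap_eq_self_of_surjective hsurj T₁]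
        exact map_mono hle2)
      have h6 : (M.map f).comap f = M := by
        rw [Subgroup.comap_map_eq]
        exact sup_eq_left.2 ((hker T₂).trans hle1)
      rcases h5 with h5 | h5
      · left
        rw [← h6, h5]
      · right
        rw [← h6, h5])
  -- descend
  let r : (T₁.comap f) →* T₁ :=
    { toFun := fun v => ⟨f v, v.2⟩
      map_one' := Subtype.ext (map_one f)
      map_mul' := fun x y => Subtype.ext (map_mul f (x : V) y) }
  have hr' : Function.Surjective r := by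
    rintro ⟨x, hx⟩
    obtain ⟨v, rfl⟩ := hsurj x
    exact ⟨⟨v, hx⟩, rfl⟩
  have hrk : r.ker ≤ f'.ker := by
    intro v hv
    have h5 : f (v : V) = 1 := congrArg Subtype.val (show r v = 1 from hv)
    show f' v = 1
    rw [hf2]
    show f (v : V) ∈ T₂
    rw [h5]
    exact T₂.one_mem
  obtain ⟨g, hg⟩ : ∃ g : T₁ →* S, ∀ v : T₁.comap f, g (r v) = f' v :=
    ⟨r.liftOfSurjective hr' ⟨f', hrk⟩, fun x =>
      MonoidHom.liftOfRightInverse_comp_apply r _ _ ⟨f', hrk⟩ x⟩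
  refine ⟨g, ?_, ?_, ?_⟩
  · intro s
    obtain ⟨v, rfl⟩ := hf1 s
    exact ⟨r v, hg v⟩
  · intro x
    obtain ⟨v, rfl⟩ := hr' x
    rw [hg, hf2]
    rfl
  · intro d x hx
    obtain ⟨v, rfl⟩ := hr' x
    have h5 : (⟨β d (r v), hx⟩ : T₁) = r ⟨ρ d v, hc T₁ h1 d v v.2⟩ := Subtype.ext (hfe d v).symm
    rw [h5, hg, hg, hf3]

end Pool.Agent.J6H71.Mu
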