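import Pool.Agent.J6H71.Mu.Kil

/-!
# A simple module for which the criterion holds does not occur in the deep part
-/

set_option autoImplicit false

namespace Pool.Agent.J6H71.Mu

open Subgroup Pool.Agent.Q60.MU Pool.Agent.W5h77.MB Pool.Agent.W5h33.DF Pool.Agent.J6H14.DMu
open scoped commutatorElement

variable {𝔾 : Type} [Group 𝔾]

theorem kills' [TopologicalSpace 𝔾] [ContinuousMul 𝔾] {p : ℕ} [hp : Fact p.Prime]
    {Ω : Type} [MulAction 𝔾 Ω] {I : Ω → Subgroup 𝔾}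
    (hI : ∀ (g : 𝔾) (w : Ω), ∀ x ∈ I w, g * x * g⁻¹ ∈ I (g • w))
    {K D D' : Subgroup 𝔾} (hKn : K.Normal) (hDn : D.Normal) (hD'n : D'.Normal)
    (hDD : D' ≤ D) (hK0 : K.index ≠ 0)
    (hKp : ¬ p ∣ K.relIndex ⊤) {m m' : ℕ} (hDi : D.index = p ^ m)
    (hD'i : D'.index = p ^ m') (hσ : ∃ σ : 𝔾, ∀ τ, ∃ i : ℤ, τ * (σ ^ i)⁻¹ ∈ D') {γ : 𝔾} (hγK : γ ∈ K)
    (hγ : ∀ τ ∈ K, ∃ i : ℤ, τ * (γ ^ i)⁻¹ ∈ D')
    -- the module
    {Q : Subgroup 𝔾} (hQ : Q ≤ K ⊓ D') (hQo : IsOpen (Q : Set 𝔾)) (hQf : Q.relIndex (K ⊓ D') ≠ 0)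
    (hgQ : gens p I (K ⊓ D') ⊆ Q) {V : Type} [CommGroup V] [Finite V] (hV : ∀ v : V, v ^ p = 1)
    (ρ : 𝔾 →* MulAut V) (θ : ↥(K ⊓ D') →* V) (hθ : Function.Surjective θ)
    (hθ1 : ∀ x, θ x = 1 ↔ (x : 𝔾) ∈ Q)
    (hθρ : ∀ (g : 𝔾) (x : ↥(K ⊓ D')) (h : g * x * g⁻¹ ∈ K ⊓ D'), ρ g (θ x) = θ ⟨g * x * g⁻¹, h⟩)
    (htriv : ∀ x ∈ K ⊓ D', ρ x = 1) {U : Subgroup V} (hU : ∀ g, ∀ v ∈ U, ρ g v ∈ U)
    (hT1 : ∀ T : Subgroup V, (∀ g, ∀ v ∈ T, ρ g v ∈ T) → U ≤ T → ∀ v,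
      (∀ z ∈ D', ρ z v * v⁻¹ ∈ T) → v ∈ T)
    -- the simple module
    {S : Type} [CommGroup S] [Finite S] (b : 𝔾 →* MulAut S) (hS : Simp p K b) {t : ℕ}
    (hmlt : Mlt I D' b t)
    (hcrit : Crt p I K D b t) {n₀ : ℕ} (hn₀ : D.relIndex K ≤ n₀ + 1) {T₁ T₂ : Subgroup V}
    (h1 : ∀ g, ∀ v ∈ T₁, ρ g v ∈ T₁)
    (h2 : ∀ g, ∀ v ∈ T₂, ρ g v ∈ T₂) (hle : fil U (phi ρ γ) (n₀ + 1) ≤ T₂) (hlt : T₂ ≤ T₁)
    (hle' : T₁ ≤ fil U (phi ρ γ) n₀) (f : T₁ →* S) (hf : Function.Surjective f)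
    (hf1 : ∀ v, f v = 1 ↔ (v : V) ∈ T₂)
    (hf2 : ∀ g (v : T₁) (hv : ρ g v ∈ T₁), f ⟨ρ g v, hv⟩ = b g (f v)) : False := by
  classical
  have hcm := comm_mem_of hσ
  have hD0 : D.index ≠ 0 := by
    rw [hDi]
    exact (pow_pos hp.out.pos m).ne'
  have hD'0 : D'.index ≠ 0 := by
    rw [hD'i]
    exact (pow_pos hp.out.pos m').ne'
  set R₀ := rad D' ρ b with hR₀
  have hR₀s : ∀ g, ∀ v ∈ R₀, ρ g v ∈ R₀ := rad_stable hD'n ρ b
  set φ := phi ρ γ with hφdef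
  have hRφ : ∀ u ∈ R₀, φ u ∈ R₀ := fun u hu => R₀.mul_mem (hR₀s γ u hu) (R₀.inv_mem hu)
  have hUT₂' : U ≤ T₂ := (le_fil U φ (n₀ + 1)).trans hle
  -- the larger submodule
  have hU' : ∀ g, ∀ v ∈ U ⊔ R₀, ρ g v ∈ U ⊔ R₀ := by
    intro g v hv
    rw [mem_sup] at hv
    obtain ⟨u, hu, w, hw, rfl⟩ := hv
    rw [map_mul]
    exact (U ⊔ R₀).mul_mem (mem_sup_left (hU g u hu)) (mem_sup_right (hR₀s g w hw))
  -- the factor for the larger submodule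
  have hkey : ∀ v : T₁, (v : V) ∈ U ⊔ R₀ → f v = 1 := by
    intro v hv
    rw [mem_sup] at hv
    obtain ⟨u, hu, w, hw, huw⟩ := hv
    have hu1 : u ∈ T₁ := hlt (hUT₂' hu)
    have hw1 : w ∈ T₁ := by
      have h3 : w = u⁻¹ * v := by rw [← huw, inv_mul_cancel_left]
      rw [h3]
      exact T₁.mul_mem (T₁.inv_mem hu1) v.2
    have h3 : v = ⟨u, hu1⟩ * ⟨w, hw1⟩ := Subtype.ext huw.symm
    rw [h3, map_mul, (hf1 ⟨u, hu1⟩).2 (hUT₂' hu), one_mul]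
    exact rad_no hKn hKp hV ρ b htriv hS h1 f hf2 ⟨w, hw1⟩ hw
  obtain ⟨A₁, A₂, f₂, a1, a2, a3, a4, a5, a6, a7, a8⟩ : ∃ (A₁ A₂ : Subgroup V) (f : A₁ →* S),
      (∀ g, ∀ v ∈ A₁, ρ g v ∈ A₁) ∧ (∀ g, ∀ v ∈ A₂, ρ g v ∈ A₂) ∧
      fil (U ⊔ R₀) φ (n₀ + 1) ≤ A₂ ∧ A₂ ≤ A₁ ∧ A₁ ≤ fil (U ⊔ R₀) φ n₀ ∧
      Function.Surjective f ∧ (∀ v, f v = 1 ↔ (v : V) ∈ A₂) ∧
      ∀ g (v : A₁) (hv : ρ g v ∈ A₁), f ⟨ρ g v, hv⟩ = b g (f v) := by
    have hex : ∀ v : ↥(T₁ ⊔ R₀), ∃ a : T₁, (v : V) * (a : V)⁻¹ ∈ R₀ := by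
      rintro ⟨v, hv⟩
      rw [mem_sup] at hv
      obtain ⟨a, ha, w, hw, rfl⟩ := hv
      refine ⟨⟨a, ha⟩, ?_⟩
      show a * w * a⁻¹ ∈ R₀
      rwa [mul_comm a w, mul_inv_cancel_right]
    choose pr hpr using hex
    have hind : ∀ (v : ↥(T₁ ⊔ R₀)) (a : T₁), (v : V) * (a : V)⁻¹ ∈ R₀ → f (pr v) = f a := by
      intro v a ha
      have h3 : ((pr v * a⁻¹ : T₁) : V) ∈ U ⊔ R₀ := by
        refine mem_sup_right ?_
        have h4 := R₀.mul_mem (R₀.inv_mem (hpr v)) ha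
        have h5 : ((v : V) * (pr v : V)⁻¹)⁻¹ * ((v : V) * (a : V)⁻¹) = (pr v : V) * (a : V)⁻¹ := by
          group
        rw [h5] at h4
        exact h4
      have h4 := hkey _ h3
      rw [map_mul, map_inv, mul_inv_eq_one] at h4
      exact h4
    let f₂ : ↥(T₁ ⊔ R₀) →* S :=
      { toFun := fun v => f (pr v)
        map_one' := by
          show f (pr 1) = 1
          rw [hind 1 1 (by
            show (1 : V) * 1⁻¹ ∈ R₀
            rw [inv_one, mul_one]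
            exact R₀.one_mem), map_one]
        map_mul' := by
          intro x y
          show f (pr (x * y)) = f (pr x) * f (pr y)
          rw [hind (x * y) (pr x * pr y) (by
            have h4 := R₀.mul_mem (hpr x) (hpr y)
            rw [mul_mul_mul_comm, ← mul_inv] at h4
            exact h4), map_mul] }
    refine ⟨T₁ ⊔ R₀, T₂ ⊔ R₀, f₂, ?_, ?_, ?_, sup_le_sup_right hlt _, ?_, ?_, ?_, ?_⟩
    · intro g v hv
      rw [mem_sup] at hv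
      obtain ⟨u, hu, w, hw, rfl⟩ := hv
      rw [map_mul]
      exact (T₁ ⊔ R₀).mul_mem (mem_sup_left (h1 g u hu)) (mem_sup_right (hR₀s g w hw))
    · intro g v hv
      rw [mem_sup] at hv
      obtain ⟨u, hu, w, hw, rfl⟩ := hv
      rw [map_mul]
      exact (T₂ ⊔ R₀).mul_mem (mem_sup_left (h2 g u hu)) (mem_sup_right (hR₀s g w hw))
    · refine (fil_sup hRφ (n₀ + 1)).trans ?_
      rw [sup_comm]
      exact sup_le_sup_right hle _
    · refine sup_le (hle'.trans (fil_mono le_sup_left φ n₀)) ?_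
      exact le_sup_right.trans (le_fil (U ⊔ R₀) φ n₀)
    · intro s
      obtain ⟨v, rfl⟩ := hf s
      refine ⟨⟨v, mem_sup_left v.2⟩, ?_⟩
      exact hind _ v (by
        show (v : V) * (v : V)⁻¹ ∈ R₀
        rw [mul_inv_cancel]
        exact R₀.one_mem)
    · intro v
      show f (pr v) = 1 ↔ _
      rw [hf1]
      constructor
      · intro h
        have h3 : (v : V) = (pr v : V) * ((v : V) * (pr v : V)⁻¹) := by
          rw [mul_comm (v : V), mul_inv_cancel_left]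
        rw [h3]
        exact (T₂ ⊔ R₀).mul_mem (mem_sup_left h) (mem_sup_right (hpr v))
      · intro h
        rw [mem_sup] at h
        obtain ⟨u, hu, w, hw, huw⟩ := h
        rw [← hf1, hind v ⟨u, hlt hu⟩ (by
          show (v : V) * u⁻¹ ∈ R₀
          rw [← huw, mul_comm u w, mul_inv_cancel_right]
          exact hw), hf1]
        exact hu
    · intro g v hv
      show f (pr ⟨ρ g v, hv⟩) = b g (f (pr v))
      rw [← hf2 g (pr v) (h1 g _ (pr v).2)]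
      apply hind
      show ρ g v * (ρ g (pr v))⁻¹ ∈ R₀
      rw [← map_inv, ← map_mul]
      exact hR₀s g _ (hpr v)
  -- from now on only the larger submodule is used
  have hT1' : ∀ T : Subgroup V, (∀ g, ∀ v ∈ T, ρ g v ∈ T) → U ⊔ R₀ ≤ T → ∀ v,
      (∀ z ∈ D', ρ z v * v⁻¹ ∈ T) → v ∈ T := fun T h3 h4 => hT1 T h3 (le_sup_left.trans h4)
  obtain ⟨W₀, hW₀⟩ : ∃ W₀, W₀ = U ⊔ R₀ := ⟨_, rfl⟩
  have hRW₀ : R₀ ≤ W₀ := by
    rw [hW₀]
    exact le_sup_right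
  rw [← hW₀] at hU' a3 a5 hT1'
  clear hkey hT1 hle hle' hUT₂' hU h1 h2 hlt hf hf1 hf2 f
  have hSimp := hS
  obtain ⟨hSn, hSp, hbK, hSs⟩ := hS
  obtain ⟨e₀, -, he₀⟩ : ∃ a ≤ m, D.relIndex K = p ^ a :=
    (Nat.dvd_prime_pow hp.out).1 (hDi ▸ relIndex_dvd_index_of_normal D K)
  set q := D.relIndex K with hq
  have hφc : ∀ (h : 𝔾) (v : V), ρ h (φ v) = φ (ρ h v) := phi_comm hKn hcm htriv hγK
  have hφci : ∀ (j : ℕ) (h : 𝔾) (v : V), ρ h (φ^[j] v) = φ^[j] (ρ h v) := by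
    intro j
    induction j with
    | zero => intro h v; rfl
    | succ j ih =>
      intro h v
      rw [Function.iterate_succ_apply, Function.iterate_succ_apply, ih, hφc]
  have hUφ : ∀ u ∈ W₀, φ u ∈ W₀ := fun u hu => W₀.mul_mem (hU' γ u hu) (W₀.inv_mem hu)
  have hfs : ∀ (j : ℕ) (g : 𝔾), ∀ v ∈ fil W₀ φ j, ρ g v ∈ fil W₀ φ j := fun j g =>
    fil_stable (hU' g) (hφc g) j
  have hUA₂ : W₀ ≤ A₂ := (le_fil W₀ φ (n₀ + 1)).trans a3
  -- the chain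
  have hchain : ∀ j < q, ∃ (T₁ T₂ : Subgroup V) (f : T₁ →* S), (∀ g, ∀ v ∈ T₁, ρ g v ∈ T₁) ∧
      (∀ g, ∀ v ∈ T₂, ρ g v ∈ T₂) ∧ fil W₀ φ (j + 1) ≤ T₂ ∧ T₂ ≤ T₁ ∧ T₁ ≤ fil W₀ φ j ∧
      Function.Surjective f ∧ (∀ v, f v = 1 ↔ (v : V) ∈ T₂) ∧
      ∀ g (v : T₁) (hv : ρ g v ∈ T₁), f ⟨ρ g v, hv⟩ = b g (f v) := by
    intro j hj
    obtain ⟨n, hn⟩ : ∃ n, n₀ = j + n := ⟨n₀ - j, by omega⟩
    have hqn : n₀ + 1 = j + 1 + n := by omega
    let B₁ : Subgroup V := fil W₀ φ j ⊓ A₁.comap (iter φ n)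
    let B₂ : Subgroup V := fil W₀ φ j ⊓ A₂.comap (iter φ n)
    let r : B₁ →* A₁ := ((iter φ n).comp B₁.subtype).codRestrict A₁ (fun v => v.2.2)
    have hr : ∀ v : B₁, ((r v : A₁) : V) = φ^[n] v := fun _ => rfl
    refine ⟨B₁, B₂, f₂.comp r, ?_, ?_, ?_, ?_, inf_le_left, ?_, ?_, ?_⟩
    · rintro g v ⟨hv1, hv2⟩
      refine ⟨hfs j g v hv1, ?_⟩
      show φ^[n] (ρ g v) ∈ A₁
      rw [← hφci]
      exact a1 g _ hv2
    · rintro g v ⟨hv1, hv2⟩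
      refine ⟨hfs j g v hv1, ?_⟩
      show φ^[n] (ρ g v) ∈ A₂
      rw [← hφci]
      exact a2 g _ hv2
    · intro v hv
      refine ⟨fil_anti W₀ φ j hv, ?_⟩
      show φ^[n] v ∈ A₂
      apply a3
      rw [hqn]
      exact fil_shift (j + 1) n hv
    · exact inf_le_inf_left _ (comap_mono a4)
    · intro s
      obtain ⟨⟨x, hx⟩, rfl⟩ := a6 s
      have hx2 := a5 hx
      rw [hn] at hx2
      obtain ⟨u, hu, y, hy, hxy⟩ := fil_elem' hUφ j n x hx2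
      have hu1 : u ∈ A₁ := a4 (hUA₂ hu)
      have hy1 : φ^[n] y ∈ A₁ := by
        have h3 : φ^[n] y = u⁻¹ * x := by rw [hxy, inv_mul_cancel_left]
        rw [h3]
        exact A₁.mul_mem (A₁.inv_mem hu1) hx
      refine ⟨⟨y, hy, hy1⟩, ?_⟩
      show f₂ ⟨φ^[n] y, hy1⟩ = f₂ ⟨x, hx⟩
      have h3 : (⟨x, hx⟩ : A₁) = ⟨u, hu1⟩ * ⟨φ^[n] y, hy1⟩ := Subtype.ext hxy
      rw [h3, map_mul, (a7 ⟨u, hu1⟩).2 (hUA₂ hu), one_mul]
    · intro v
      show f₂ (r v) = 1 ↔ _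
      rw [a7]
      exact ⟨fun h => ⟨v.2.1, h⟩, fun h => h.2⟩
    · intro g v hv
      show f₂ (r ⟨ρ g v, hv⟩) = b g (f₂ (r v))
      have h3 : ρ g ((r v : A₁) : V) ∈ A₁ := a1 g _ (r v).2
      rw [← a8 g (r v) h3]
      congr 1
      apply Subtype.ext
      show φ^[n] (ρ g v) = ρ g (φ^[n] v)
      rw [hφci]
  -- the lower layer
  set 𝒦 : Subgroup 𝔾 := K ⊓ D with h𝒦def
  have h𝒦n : 𝒦.Normal := normal_inf_normal K D
  have hKK : K ⊓ D' ≤ 𝒦 := inf_le_inf_left K hDD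
  obtain ⟨a, 𝒜, h𝒜, hcard𝒜⟩ := hmlt
  have hRT : R₀ ≤ fil W₀ φ q := hRW₀.trans (le_fil W₀ φ q)
  obtain ⟨X, iX, β, fX, F, x₀, J, hX1, hX2, hX3, hX4, hF1, hF2, hF3, hx₀, hJs, hJo, hFJ⟩ :=
    lower' hI hKn hDn hD'n hDD hσ hKp hgQ hV ρ θ hθ1 hθρ (hfs q)
      (act_mem hDn hDD hγK hγ hV ρ htriv he₀ (fun v => by
        rw [← he₀]
        exact iter_mem W₀ φ q v)) (hT1' _ (hfs q) (le_fil W₀ φ q)) 𝒜
      (fun A => by
        rcases h𝒜 A with h | h | h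
        · exact Or.inl h
        · exact Or.inr (Or.inl (no_fix hKn hD'n hD'i hKp hV ρ b htriv hSimp h (hfs q) hRT))
        · exact Or.inr (Or.inr h))
  have hXp : ∀ x : X, x ^ p = 1 := by
    intro s
    obtain ⟨v, rfl⟩ := hX1 s
    rw [← map_pow, hV, map_one]
  have hXfin : Finite X := Finite.of_surjective fX hX1
  -- the unramified quotient
  obtain ⟨X', iX', β', pX₁, hp1, hp2, hp3⟩ := exists_quo β (T := ⊤) (T' := J)
    (fun _ _ _ => mem_top _) hJs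
  let pX : X →* X' := pX₁.comp topEquiv.symm.toMonoidHom
  have hpker : ∀ v, pX v = 1 ↔ v ∈ J := fun v => hp2 ⟨v, mem_top v⟩
  have hpe : ∀ d v, pX (β d v) = β' d (pX v) := fun d v => hp3 d ⟨v, mem_top v⟩ (mem_top _)
  have hpsurj : Function.Surjective pX := by
    intro s
    obtain ⟨⟨v, hv⟩, hfv⟩ := hp1 s
    exact ⟨v, hfv⟩
  have hX'p : ∀ x : X', x ^ p = 1 := by
    intro s
    obtain ⟨v, rfl⟩ := hpsurj s
    rw [← map_pow, hXp, map_one]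
  have hX'fin : Finite X' := Finite.of_surjective pX hpsurj
  have hX'4 : ∀ x ∈ 𝒦, β' x = 1 := by
    intro x hx
    ext s
    obtain ⟨v, rfl⟩ := hpsurj s
    rw [← hpe, hX4 x hx, MulAut.one_apply, MulAut.one_apply]
  -- the lower bounds
  obtain ⟨r, s, P, N, C, c, hP, hNc, hPN, hlt'⟩ := hcrit
  have hM : ∀ j, ∃ M : Subgroup 𝔾, M ≤ N j ⊓ D ∧ IsOpen (M : Set 𝔾) ∧ M.relIndex (N j ⊓ D) ≠ 0 ∧
      gens p I (N j ⊓ D) ⊆ M ∧ c j ≤ M.relIndex (N j ⊓ D) := by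
    intro j
    by_contra hcon2
    rcases Nat.eq_zero_or_pos (c j) with h0 | h0
    · refine hcon2 ⟨N j ⊓ D, le_rfl, Subgroup.isOpen_mono ?_ hQo, ?_, gens_subset, ?_⟩
      · exact hQ.trans (inf_le_inf (hNc j).1 hDD)
      · rw [relIndex_self]
        exact one_ne_zero
      · rw [h0]
        exact Nat.zero_le _
    · have h1 : RankLe p I (N j ⊓ D) (c j - 1) := by
        intro M h1 h2 h3 h4
        by_contra h5
        exact hcon2 ⟨M, h1, h2, h3, h4, by omega⟩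
      have h2 := (hNc j).2.2 _ h1
      omega
  choose M hM1 hM2 hM3 hM4 hM5 using hM
  have hgM : ∀ j, gens p I 𝒦 ⊆ M j := fun j =>
    (gens_mono (inf_le_inf_right D (hNc j).1)).trans (hM4 j)
  have hF5 : F 1 = 1 := by
    have h1 := hF1 1 (one_mem _) 1 (one_mem _)
    rw [mul_one] at h1
    exact mul_eq_left.1 h1.symm
  let Φ : 𝒦 →* X' :=
    { toFun := fun x => pX (F x)
      map_one' := by
        show pX (F 1) = 1
        rw [hF5, map_one]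
      map_mul' := fun x y => by
        show pX (F (x * y)) = pX (F x) * pX (F y)
        rw [hF1 x x.2 y y.2, map_mul] }
  let W : Subgroup 𝔾 :=
    { carrier := {x | x ∈ 𝒦 ∧ pX (F x) = 1 ∧ ∀ j, x ∈ M j}
      mul_mem' := by
        rintro x y ⟨hx1, hx2, hx3⟩ ⟨hy1, hy2, hy3⟩
        refine ⟨mul_mem hx1 hy1, ?_, fun j => mul_mem (hx3 j) (hy3 j)⟩
        rw [hF1 x hx1 y hy1, map_mul, hx2, hy2, mul_one]
      one_mem' := ⟨one_mem _, by rw [hF5, map_one], fun j => one_mem _⟩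
      inv_mem' := by
        rintro x ⟨hx1, hx2, hx3⟩
        refine ⟨inv_mem hx1, ?_, fun j => inv_mem (hx3 j)⟩
        have h1 := hF1 x⁻¹ (inv_mem hx1) x hx1
        rw [inv_mul_cancel, hF5] at h1
        have h2 := congrArg pX h1
        rw [map_mul, hx2, mul_one, map_one] at h2
        exact h2.symm }
  have hQW : Q ⊓ ⨅ j, M j ≤ W := by
    rintro x ⟨hxQ, hxM⟩
    refine ⟨hKK (hQ hxQ), ?_, fun j => ?_⟩
    · rw [hF2 x (hQ hxQ), (hθ1 ⟨x, hQ hxQ⟩).2 hxQ, map_one, map_one]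
    · exact (mem_iInf.1 hxM) j
  have hW0 : W.index ≠ 0 := by
    have h1 : (Q ⊓ ⨅ j, M j).index ≠ 0 := by
      refine index_inf_ne_zero ?_ (index_iInf_ne_zero fun j => ?_)
      · rw [← relIndex_mul_index hQ]
        exact mul_ne_zero hQf (index_inf_ne_zero hK0 hD'0)
      · rw [← relIndex_mul_index (hM1 j)]
        refine mul_ne_zero (hM3 j) (index_inf_ne_zero ?_ hD0)
        intro h
        have h2 := index_dvd_of_le (hNc j).1
        rw [h] at h2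
        exact hK0 (Nat.eq_zero_of_zero_dvd h2)
    intro h
    have h2 := index_dvd_of_le hQW
    rw [h] at h2
    exact h1 (Nat.eq_zero_of_zero_dvd h2)
  have hWo : IsOpen (W : Set 𝔾) := by
    refine Subgroup.isOpen_mono hQW ?_
    rw [coe_inf, coe_iInf]
    exact hQo.inter (isOpen_iInter_of_finite fun j => hM2 j)
  have hWK : W ≤ 𝒦 := fun x hx => hx.1
  have hWf : W.relIndex 𝒦 ≠ 0 := by
    intro h
    have h1 := relIndex_mul_index hWK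
    rw [h, zero_mul] at h1
    exact hW0 h1.symm
  have hWg : gens p I 𝒦 ⊆ W := by
    intro x hx
    refine ⟨gens_subset hx, ?_, fun j => hgM j hx⟩
    rcases hx with (⟨a, ha, rfl⟩ | ⟨a, ha, a', ha', rfl⟩) | ⟨hx, A, hA⟩
    · have h1 := map_pow Φ ⟨a, ha⟩ p
      rw [hX'p] at h1
      exact h1
    · have h1 := map_commutatorElement Φ ⟨a, ha⟩ ⟨a', ha'⟩
      rw [commutatorElement_eq_one_iff_mul_comm.2 (mul_comm (Φ ⟨a, ha⟩) (Φ ⟨a', ha'⟩))] at h1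
      exact h1
    · rw [hpker]
      exact hFJ A x hx hA
  obtain ⟨R, hRW, hRo, hRf, hgR, hRn⟩ := exists_core hI (K := 𝒦) (D := ⊤)
    (fun d _ x hx => h𝒦n.conj_mem x hx d)
    (by
      rw [relIndex_top_right]
      exact index_inf_ne_zero hK0 hD0) hWK hWo hWf hWg
  have hRK := hRW.trans hWK
  have hRnorm : R.Normal := ⟨fun x hx g => hRn g trivial x hx⟩
  obtain ⟨Y, iY, σ, ψ, hYfin, hY, hψ, hψ1, hψσ, hσtriv, -, hup, hlow⟩ :=
    exists_module (I := I) hKn hDn hRnorm hRK hRo hRf hgR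
  -- the homomorphism on the lower layer
  have hker : ψ.ker ≤ Φ.ker := by
    intro x hx
    have h1 : (x : 𝔾) ∈ R := (hψ1 x).1 hx
    exact (hRW h1).2.1
  obtain ⟨g, hg⟩ : ∃ g : Y →* X', ∀ x : 𝒦, g (ψ x) = pX (F x) :=
    ⟨ψ.liftOfSurjective hψ ⟨Φ, hker⟩, fun x =>
      MonoidHom.liftOfRightInverse_comp_apply ψ _ _ ⟨Φ, hker⟩ x⟩
  have hge : ∀ d u, g (σ d u) = β' d (g u) := by
    intro d u
    obtain ⟨x, rfl⟩ := hψ u
    rw [hψσ d x (h𝒦n.conj_mem x x.2 d), hg, hg, ← hpe]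
    exact congrArg pX (hF3 d x x.2)
  have hgs : Function.Surjective g := by
    intro x'
    obtain ⟨x, rfl⟩ := hpsurj x'
    obtain ⟨v, rfl⟩ := hX1 x
    obtain ⟨y, rfl⟩ := hθ v
    exact ⟨ψ ⟨y, hKK y.2⟩, (hg _).trans (congrArg pX (hF2 y y.2))⟩
  -- the comparison
  have hPg : Good p K P := fun i => (hP i).2.1
  have hNg : Good p K N := fun j => (hNc j).2.1
  have hPN' : ∀ (S : Type) [CommGroup S] [Finite S] (b : 𝔾 →* MulAut S), Simp p K b →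
      cn b N ≤ cn b P := by
    intro S _ _ b hb
    have h1 := hPN S b hb
    unfold cn
    exact_mod_cast h1
  have e1 := rat_mul (D' := D') hp.out hKn ρ htriv β hXp (T := ⊤) (T' := fil W₀ φ q)
    (fun _ _ _ => mem_top _) le_top (fX.comp (⊤ : Subgroup V).subtype)
    (fun s => by
      obtain ⟨v, hv⟩ := hX1 s
      exact ⟨⟨v, mem_top v⟩, hv⟩) (fun v => hX2 v) (fun g v _ => hX3 g v) P hPg N hNg
  have e2 := rat_chain hp.out hKn hD'n hD'i hV ρ htriv P hPg N hNg hPN' b hbK hSp (fil W₀ φ) hfs q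
    hchain
  have hX4' : ∀ x ∈ K ⊓ D', β x = 1 := fun x hx => hX4 x (hKK hx)
  have e1' := rat_mul (D' := D') hp.out hKn β hX4' β' hX'p (T := ⊤) (T' := J)
    (fun _ _ _ => mem_top _) le_top (pX.comp (⊤ : Subgroup X).subtype)
    (fun s => by
      obtain ⟨v, hv⟩ := hpsurj s
      exact ⟨⟨v, mem_top v⟩, hv⟩) (fun v => hpker v) (fun g v _ => hpe g v) P hPg N hNg
  have honly : Only β b := only_quo hKn hD'n hD'i hKp hV ρ b htriv hSimp β fX hX1 hX3 (by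
    intro v hv
    exact (hX2 v).2 (hRT hv))
  have e1'' : rat β D' P N J ≤ (cn b P / cn b N) ^ t :=
    rat_orb hKn hD'n hD'i hKp hXp β b hX4' hSimp honly P hPg N hNg (hPN' S b hSimp) x₀
      (fun i => MulAction.stabilizer 𝔾 (𝒜 i)) (fun i z hz => hx₀ i z hz.1) hcard𝒜 hJs hJo
  have e3 := rat_mul (D' := D) hp.out hKn σ hσtriv β' hX'p (T := ⊤) (T' := g.ker)
    (fun _ _ _ => mem_top _) le_top (g.comp (⊤ : Subgroup Y).subtype)
    (fun s => by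
      obtain ⟨v, hv⟩ := hgs s
      exact ⟨⟨v, mem_top v⟩, hv⟩) (fun v => Iff.rfl) (fun d v _ => hge d v) P hPg N hNg
  have e4 := rat_mono hp.out hKn hDn hDi hY σ hσtriv P hPg N hNg hPN' g.ker ⊥
    (fun d v hv => by
      rw [MonoidHom.mem_ker] at hv ⊢
      rw [hge, hv, map_one])
    (fun d v hv => by
      rw [mem_bot] at hv ⊢
      rw [hv, map_one]) bot_le
  have e4' := rat_mono hp.out hKn hDn hDi hY σ hσtriv P hPg N hNg hPN' ⊤ ⊥
    (fun d v _ => mem_top _)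
    (fun d v hv => by
      rw [mem_bot] at hv ⊢
      rw [hv, map_one]) bot_le
  have e5 : rat σ D P N (⊥ : Subgroup Y) = 1 := by
    unfold rat
    rw [cnt_bot, cnt_bot, div_one]
  have e6 : ∀ {r : ℕ} (P : Fin r → Subgroup 𝔾), Good p K P →
      cn β' (fun i => P i ⊓ D') = cn β' (fun i => P i ⊓ D) := by
    intro r P hP
    refine Finset.prod_congr rfl fun i _ => ?_
    rw [fx_layer hp.out hKn hD'n hD'i hDD hX'4 (hP i)]
  rw [e6 P hPg, e6 N hNg] at e1'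
  rw [e5] at e4 e4'
  have hfil0 : fil W₀ φ 0 = ⊤ := rfl
  have e6' : rat β D' P N ⊤ = cn β (fun i => P i ⊓ D') / cn β (fun j => N j ⊓ D') := by
    unfold rat
    rw [cnt_top, cnt_top]
  rw [hfil0, e1, ← e6', e1'] at e2
  have hrq := rat_pos (D' := D') ρ P N (fil W₀ φ q)
  have e7 : (cn b P / cn b N) ^ q ≤
      rat β D' P N J * (cn β' (fun i => P i ⊓ D) / cn β' (fun j => N j ⊓ D)) :=
    le_of_mul_le_mul_left e2 hrq
  have hβ : 0 < cn β' (fun i => P i ⊓ D) / cn β' (fun j => N j ⊓ D) :=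
    div_pos (cn_pos _ _) (cn_pos _ _)
  have hr1 : 1 ≤ cn b P / cn b N := (one_le_div (cn_pos b N)).2 (hPN' S b hSimp)
  have hr0 : 0 < cn b P / cn b N := lt_of_lt_of_le one_pos hr1
  have e8 : (cn b P / cn b N) ^ (q - t) ≤ rat σ D P N (⊤ : Subgroup Y) := by
    rcases Nat.lt_or_ge q t with hqt | hqt
    · rw [Nat.sub_eq_zero_of_le hqt.le, pow_zero]
      exact e4'
    · have e7' : (cn b P / cn b N) ^ (q - t) ≤ cn β' (fun i => P i ⊓ D) / cn β' (fun j => N j ⊓ D) := by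
        have h1 : (cn b P / cn b N) ^ t * (cn b P / cn b N) ^ (q - t) ≤
            (cn b P / cn b N) ^ t * (cn β' (fun i => P i ⊓ D) / cn β' (fun j => N j ⊓ D)) := by
          rw [← pow_add, Nat.add_sub_cancel' hqt]
          exact e7.trans (mul_le_mul_of_nonneg_right e1'' hβ.le)
        exact le_of_mul_le_mul_left h1 (pow_pos hr0 t)
      rw [e3]
      calc (cn b P / cn b N) ^ (q - t) ≤ cn β' (fun i => P i ⊓ D) / cn β' (fun j => N j ⊓ D) := e7'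
        _ = 1 * (cn β' (fun i => P i ⊓ D) / cn β' (fun j => N j ⊓ D)) := (one_mul _).symm
        _ ≤ _ := mul_le_mul_of_nonneg_right e4 hβ.le
  have e9 : cnt σ D P (⊤ : Subgroup Y) ≤ ∏ i, (C i : ℝ) := by
    rw [cnt_top]
    refine Finset.prod_le_prod (fun i _ => Nat.cast_nonneg _) fun i _ => ?_
    exact_mod_cast hup (P i) (hP i).1 (hP i).2.1 (C i) (hP i).2.2
  have e10 : ∏ j, (c j : ℝ) ≤ cnt σ D N (⊤ : Subgroup Y) := by
    rw [cnt_top]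
    refine Finset.prod_le_prod (fun i _ => Nat.cast_nonneg _) fun j _ => ?_
    exact_mod_cast (hM5 j).trans (hlow (N j) (hNc j).1 (hNc j).2.1 (M j) (hM1 j) (hM3 j) (hM4 j)
      fun x hx => (hRW hx).2.2 j)
  have hbP := cn_pos b P
  have hbN := cn_pos b N
  have e11 : (∏ j, (c j : ℝ)) * cn b P ^ (q - t) ≤ (∏ i, (C i : ℝ)) * cn b N ^ (q - t) := by
    have h3 : cn b P ^ (q - t) = (cn b P / cn b N) ^ (q - t) * cn b N ^ (q - t) := by
      rw [div_pow, div_mul_cancel₀ _ (pow_pos hbN (q - t)).ne']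
    have h4 : cnt σ D P (⊤ : Subgroup Y) =
        rat σ D P N (⊤ : Subgroup Y) * cnt σ D N (⊤ : Subgroup Y) := by
      unfold rat
      rw [div_mul_cancel₀ _ (cnt_pos σ N (⊤ : Subgroup Y)).ne']
    calc (∏ j, (c j : ℝ)) * cn b P ^ (q - t) =
          (∏ j, (c j : ℝ)) * (cn b P / cn b N) ^ (q - t) * cn b N ^ (q - t) := by
          rw [h3, mul_assoc]
      _ ≤ cnt σ D N (⊤ : Subgroup Y) * rat σ D P N (⊤ : Subgroup Y) * cn b N ^ (q - t) := by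
          have h5 : 0 ≤ (cn b P / cn b N) ^ (q - t) := (pow_pos (div_pos hbP hbN) (q - t)).le
          have h6 : 0 ≤ cnt σ D N (⊤ : Subgroup Y) := (cnt_pos σ N (⊤ : Subgroup Y)).le
          exact mul_le_mul_of_nonneg_right (mul_le_mul e10 e8 h5 h6) (pow_pos hbN (q - t)).le
      _ = cnt σ D P (⊤ : Subgroup Y) * cn b N ^ (q - t) := by rw [h4, mul_comm (cnt σ D N ⊤)]
      _ ≤ _ := mul_le_mul_of_nonneg_right e9 (pow_pos hbN (q - t)).le
  have e12 : (∏ i, (C i : ℝ)) * cn b N ^ (q - t) < (∏ j, (c j : ℝ)) * cn b P ^ (q - t) := by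
    unfold cn
    exact_mod_cast hlt'
  exact absurd e12 (not_lt.2 e11)

end Pool.Agent.J6H71.Mu
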