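import Pool.Agent.J6H71.Mu.Enl

/-!
# The passage to the lower layer
-/

set_option autoImplicit false

namespace Pool.Agent.J6H71.Mu

open Subgroup Pool.Agent.Q60.MU Pool.Agent.W5h77.MB Pool.Agent.W5h33.DF Pool.Agent.J6H14.DMu
open scoped commutatorElement

variable {𝔾 : Type} [Group 𝔾]

/-- The quotient by `T` extends to the lower layer. -/
theorem lower0 {p : ℕ} [hp : Fact p.Prime] {Ω : Type} [MulAction 𝔾 Ω] {I : Ω → Subgroup 𝔾}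
    {K D D' : Subgroup 𝔾} (hKn : K.Normal) (hD'n : D'.Normal)
    (hDD : D' ≤ D) (hcm : ∀ a b : 𝔾, ⁅a, b⁆ ∈ D') (hKp : ¬ p ∣ K.relIndex ⊤)
    {Q : Subgroup 𝔾} (hgQ : gens p I (K ⊓ D') ⊆ Q) {V : Type} [CommGroup V]
    (hV : ∀ v : V, v ^ p = 1)
    (ρ : 𝔾 →* MulAut V) (θ : ↥(K ⊓ D') →* V)
    (hθ1 : ∀ x, θ x = 1 ↔ (x : 𝔾) ∈ Q)
    (hθρ : ∀ (g : 𝔾) (x : ↥(K ⊓ D')) (h : g * x * g⁻¹ ∈ K ⊓ D'), ρ g (θ x) = θ ⟨g * x * g⁻¹, h⟩)
    {T : Subgroup V} (hT : ∀ g, ∀ v ∈ T, ρ g v ∈ T) (hTK : ∀ x ∈ K ⊓ D, ∀ v, ρ x v * v⁻¹ ∈ T)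
    (hT1 : ∀ v, (∀ z ∈ D', ρ z v * v⁻¹ ∈ T) → v ∈ T) :
    ∃ (X : Type) (_ : CommGroup X) (b : 𝔾 →* MulAut X) (f : V →* X) (F : 𝔾 → X),
      Function.Surjective f ∧ (∀ v, f v = 1 ↔ v ∈ T) ∧ (∀ g v, f (ρ g v) = b g (f v)) ∧
      (∀ x ∈ K ⊓ D, b x = 1) ∧ (∀ x ∈ K ⊓ D, ∀ y ∈ K ⊓ D, F (x * y) = F x * F y) ∧
      (∀ x (hx : x ∈ K ⊓ D'), F x = f (θ ⟨x, hx⟩)) ∧
      (∀ g : 𝔾, ∀ x ∈ K ⊓ D, F (g * x * g⁻¹) = b g (F x)) ∧
      (∀ s ∈ fx b ⊤, s = 1) ∧ (∀ A, ∀ x ∈ K ⊓ D', x ∈ I A → F x = 1) := by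
  classical
  have h𝒦'n : (K ⊓ D').Normal := normal_inf_normal K D'
  obtain ⟨X, iX, b, f₁, hsurj, hker, hf⟩ := exists_quo ρ (T := ⊤) (T' := T)
    (fun _ _ _ => mem_top _) hT
  let f : V →* X := f₁.comp topEquiv.symm.toMonoidHom
  have hker' : ∀ v, f v = 1 ↔ v ∈ T := fun v => hker ⟨v, mem_top v⟩
  have hfe' : ∀ d v, f (ρ d v) = b d (f v) := fun d v => hf d ⟨v, mem_top v⟩ (mem_top _)
  have hsurj' : Function.Surjective f := by
    intro s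
    obtain ⟨⟨v, hv⟩, hfv⟩ := hsurj s
    exact ⟨v, hfv⟩
  have hSp : ∀ s : X, s ^ p = 1 := by
    intro s
    obtain ⟨v, rfl⟩ := hsurj' s
    rw [← map_pow, hV, map_one]
  have hmem : ∀ z v, b z (f v) = f v ↔ ρ z v * v⁻¹ ∈ T := by
    intro z v
    rw [← hker', map_mul, map_inv, hfe', mul_inv_eq_one]
  have hbK : ∀ x ∈ K ⊓ D, b x = 1 := by
    intro x hx
    ext s
    obtain ⟨v, rfl⟩ := hsurj' s
    rw [MulAut.one_apply, hmem]
    exact hTK x hx v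
  have hfix : ∀ s ∈ fx b (⊤ ⊓ D'), s = 1 := by
    intro s hs
    obtain ⟨v, rfl⟩ := hsurj' s
    rw [hker']
    exact hT1 v fun z hz => (hmem z v).1 (hs z ⟨mem_top z, hz⟩)
  let f₀ : 𝔾 → X := fun x => if hx : x ∈ K ⊓ D' then f (θ ⟨x, hx⟩) else 1
  have hf₀ : ∀ x (hx : x ∈ K ⊓ D'), f₀ x = f (θ ⟨x, hx⟩) := fun x hx => dif_pos hx
  have hcj : ∀ d x : 𝔾, x ∈ K ⊓ D' → d * x * d⁻¹ ∈ K ⊓ D' := fun d x hx => h𝒦'n.conj_mem x hx d
  have hTn : (⊤ : Subgroup 𝔾).Normal := inferInstance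
  obtain ⟨F, hF1, hF2, hF3⟩ := exists_extend (D := D) hp.out hKn hTn hD'n hDD hcm hKp hSp b hbK hfix f₀
    (by
      intro x hx y hy
      rw [hf₀ x hx, hf₀ y hy, hf₀ (x * y) (mul_mem hx hy), ← map_mul, ← map_mul]
      rfl)
    (by
      intro d x hx
      rw [hf₀ _ (hcj d x hx), hf₀ x hx, ← hθρ d ⟨x, hx⟩, hfe' d])
  refine ⟨X, iX, b, f, F, hsurj', hker', hfe', hbK, hF1,
    fun x hx => (hF2 x hx).trans (hf₀ x hx), hF3, fun s hs => hfix s fun z _ => hs z (mem_top z), ?_⟩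
  intro A x hx hxA
  rw [hF2 x hx, hf₀ x hx, (hθ1 ⟨x, hx⟩).2 (hgQ (Or.inr ⟨hx, A, hxA⟩)), map_one]

open Polynomial in
/-- The norm is a power of `γ - 1` in characteristic `p`. -/
theorem poly_norm (p : ℕ) [hp : Fact p.Prime] (a : ℕ) :
    (∑ i ∈ Finset.range (p ^ a), (X : (ZMod p)[X]) ^ i) = (X - 1) ^ (p ^ a - 1) := by
  have h1 : (X - 1 : (ZMod p)[X]) * ∑ i ∈ Finset.range (p ^ a), (X : (ZMod p)[X]) ^ i =
      (X - 1) * (X - 1) ^ (p ^ a - 1) := by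
    rw [mul_geom_sum, ← pow_succ', Nat.sub_add_cancel (Nat.one_le_pow _ _ hp.out.pos),
      sub_pow_char_pow, one_pow]
  have h2 : (X - 1 : (ZMod p)[X]) ≠ 0 := by
    have h3 := X_sub_C_ne_zero (1 : ZMod p)
    rwa [C_1] at h3
  exact mul_left_cancel₀ h2 h1

theorem norm_phi {p : ℕ} [hp : Fact p.Prime] {V : Type} [CommGroup V] (hV : ∀ v : V, v ^ p = 1)
    (g : MulAut V) (φ : V →* V) (hφ : ∀ v, φ v = g v * v⁻¹) (a : ℕ) (v : V) :
    ∏ i ∈ Finset.range (p ^ a), (g ^ i) v = φ^[p ^ a - 1] v := by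
  classical
  let Φ : AddMonoid.End (Additive V) := MonoidHom.toAdditive φ
  let G : AddMonoid.End (Additive V) := MonoidHom.toAdditive g.toMonoidHom
  have h1 : Φ = G - 1 := by
    ext x
    show Additive.ofMul (φ x.toMul) = Additive.ofMul (g x.toMul) - x
    rw [hφ, ofMul_mul, ofMul_inv, ← sub_eq_add_neg]
    rfl
  have hp0 : ((p : ℕ) : AddMonoid.End (Additive V)) = 0 := by
    ext x
    rw [AddMonoid.End.natCast_apply]
    exact hV x.toMul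
  have h2 : ∑ i ∈ Finset.range (p ^ a), G ^ i = Φ ^ (p ^ a - 1) := by
    rcases subsingleton_or_nontrivial (AddMonoid.End (Additive V)) with h | h
    · exact Subsingleton.elim _ _
    · have hc : CharP (AddMonoid.End (Additive V)) p := (CharP.charP_iff_prime_eq_zero hp.out).2 hp0
      let _ : Algebra (ZMod p) (AddMonoid.End (Additive V)) := ZMod.algebra _ p
      have h5 := congrArg (Polynomial.aeval G) (poly_norm p a)
      rw [map_sum, map_pow, map_sub, Polynomial.aeval_X, map_one, ← h1] at h5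
      rw [← h5]
      refine Finset.sum_congr rfl fun i _ => ?_
      rw [map_pow, Polynomial.aeval_X]
  have h3 : ∀ (n : ℕ) (x : Additive V), (Φ ^ n) x = Additive.ofMul (φ^[n] x.toMul) := by
    intro n
    induction n with
    | zero => intro x; rfl
    | succ n ih =>
      intro x
      rw [pow_succ]
      show (Φ ^ n) (Φ x) = _
      rw [ih, Function.iterate_succ_apply]
      rfl
  have h4 : ∀ (n : ℕ) (x : Additive V), (G ^ n) x = Additive.ofMul ((g ^ n) x.toMul) := by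
    intro n
    induction n with
    | zero => intro x; rfl
    | succ n ih =>
      intro x
      rw [pow_succ]
      show (G ^ n) (G x) = _
      rw [ih, pow_succ, MulAut.mul_apply]
      rfl
  have h5 := DFunLike.congr_fun h2 (Additive.ofMul v)
  rw [h3] at h5
  have h6 : (∑ i ∈ Finset.range (p ^ a), G ^ i) (Additive.ofMul v) =
      Additive.ofMul (∏ i ∈ Finset.range (p ^ a), (g ^ i) v) := by
    have h7 : ∀ n : ℕ, (∑ i ∈ Finset.range n, G ^ i) (Additive.ofMul v) =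
        Additive.ofMul (∏ i ∈ Finset.range n, (g ^ i) v) := by
      intro n
      induction n with
      | zero => rfl
      | succ n ih =>
        rw [Finset.sum_range_succ, Finset.prod_range_succ, ofMul_mul, ← ih]
        have h8 : (G ^ n) (Additive.ofMul v) = Additive.ofMul ((g ^ n) v) := h4 n _
        rw [← h8]
        rfl
    exact h7 _
  rw [h6] at h5
  exact Additive.ofMul.injective h5

/-- The value at a power of a generator: `F` lives on the lower layer `D`, the function `F₁` on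
the layer `D₁` below it. -/
theorem power_value {p : ℕ} [hp : Fact p.Prime] {K D₁ D D' : Subgroup 𝔾} (hKn : K.Normal)
    (hD'n : D'.Normal) (hDD : D' ≤ D) (hcm : ∀ a b : 𝔾, ⁅a, b⁆ ∈ D')
    {X : Type} [CommGroup X] (hX : ∀ x : X, x ^ p = 1) (b : 𝔾 →* MulAut X)
    (hbK : ∀ x ∈ K ⊓ D', b x = 1) (hfix : ∀ s ∈ fx b ⊤, s = 1) {F : 𝔾 → X}
    (hF1 : ∀ x ∈ K ⊓ D, ∀ y ∈ K ⊓ D, F (x * y) = F x * F y)
    (hF3 : ∀ g : 𝔾, ∀ x ∈ K ⊓ D, F (g * x * g⁻¹) = b g (F x))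
    {γ₁ : 𝔾} (hγ₁K : γ₁ ∈ K) {a : ℕ}
    (hpow : ∀ x ∈ K ⊓ D₁, x * γ₁⁻¹ ∈ D' → x ^ p ^ a ∈ D)
    -- the function at the layer `D₁`
    {F₁ : 𝔾 → X}
    (hF₁ : ∀ v ∈ K ⊓ D', ∀ x ∈ K ⊓ D₁, F₁ (v * x) = (phi b γ₁)^[p ^ a - 1] (F v) * F₁ x)
    (hF₁e : ∀ g : 𝔾, ∀ x ∈ K ⊓ D₁, F₁ (g * x * g⁻¹) = b g (F₁ x)) :
    ∀ x ∈ K ⊓ D₁, x * γ₁⁻¹ ∈ D' → F (x ^ p ^ a) = F₁ x := by
  have hKK : K ⊓ D' ≤ K ⊓ D := inf_le_inf_left K hDD
  have h𝒦'n : (K ⊓ D').Normal := normal_inf_normal K D'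
  -- the power of a product
  have hprod : ∀ v ∈ K ⊓ D', ∀ x : 𝔾, ∀ n : ℕ, (v * x) ^ n * (x ^ n)⁻¹ ∈ K ⊓ D' ∧
      F ((v * x) ^ n * (x ^ n)⁻¹) = ∏ i ∈ Finset.range n, b (x ^ i) (F v) := by
    intro v hv x n
    have hF5 : F 1 = 1 := by
      have h1 := hF1 1 (one_mem _) 1 (one_mem _)
      rw [mul_one] at h1
      exact mul_eq_left.1 h1.symm
    induction n with
    | zero =>
      rw [pow_zero, pow_zero, inv_one, mul_one, Finset.range_zero, Finset.prod_empty]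
      exact ⟨one_mem _, hF5⟩
    | succ n ih =>
      have h1 : (v * x) ^ (n + 1) * (x ^ (n + 1))⁻¹ =
          ((v * x) ^ n * (x ^ n)⁻¹) * (x ^ n * v * (x ^ n)⁻¹) := by
        rw [pow_succ, pow_succ]
        group
      have h2 : x ^ n * v * (x ^ n)⁻¹ ∈ K ⊓ D' := h𝒦'n.conj_mem v hv _
      rw [h1]
      refine ⟨mul_mem ih.1 h2, ?_⟩
      rw [hF1 _ (hKK ih.1) _ (hKK h2), ih.2, hF3 _ v (hKK hv), Finset.prod_range_succ]
  intro x hx hxγ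
  have hxγK : x * γ₁⁻¹ ∈ K ⊓ D' := ⟨K.mul_mem hx.1 (K.inv_mem hγ₁K), hxγ⟩
  have hxb : b x = b γ₁ := by
    have h1 : x = (x * γ₁⁻¹) * γ₁ := by rw [inv_mul_cancel_right]
    rw [h1, map_mul, hbK _ hxγK, one_mul]
  have hxN : x ^ p ^ a ∈ K ⊓ D := ⟨K.pow_mem hx.1 _, hpow x hx hxγ⟩
  have hconst : ∀ v ∈ K ⊓ D', F ((v * x) ^ p ^ a) =
      (phi b γ₁)^[p ^ a - 1] (F v) * F (x ^ p ^ a) := by
    intro v hv
    obtain ⟨h1, h2⟩ := hprod v hv x (p ^ a)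
    have h3 : (v * x) ^ p ^ a = ((v * x) ^ p ^ a * (x ^ p ^ a)⁻¹) * x ^ p ^ a := by
      rw [inv_mul_cancel_right]
    have h4 : ∏ i ∈ Finset.range (p ^ a), b (x ^ i) (F v) = (phi b γ₁)^[p ^ a - 1] (F v) := by
      rw [← norm_phi hX (b γ₁) (phi b γ₁) (fun _ => rfl) a (F v)]
      refine Finset.prod_congr rfl fun i _ => ?_
      rw [map_pow, hxb]
    rw [h3, hF1 _ (hKK h1) _ hxN, h2, h4]
  have hfixed : F (x ^ p ^ a) * (F₁ x)⁻¹ ∈ fx b ⊤ := by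
    intro g _
    have hv : ⁅g, x⁆ ∈ K ⊓ D' := by
      refine ⟨?_, hcm g x⟩
      rw [commutatorElement_def]
      exact K.mul_mem (hKn.conj_mem x hx.1 g) (K.inv_mem hx.1)
    have h1 : g * x * g⁻¹ = ⁅g, x⁆ * x := by
      rw [commutatorElement_def]
      group
    have h2 : g * x ^ p ^ a * g⁻¹ = (⁅g, x⁆ * x) ^ p ^ a := by
      rw [← h1, conj_pow]
    rw [map_mul, map_inv, ← hF3 g _ hxN, ← hF₁e g x hx, h1, h2, hconst _ hv, hF₁ _ hv x hx]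
    rw [mul_inv, mul_mul_mul_comm, mul_inv_cancel, one_mul]
  have h1 := hfix _ hfixed
  rwa [mul_inv_eq_one] at h1

end Pool.Agent.J6H71.Mu
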