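import Pool.Agent.J6H71.Mu.Hts

/-!
# The passage to the lower layer, with few ramified orbits
-/

set_option autoImplicit false

namespace Pool.Agent.J6H71.Mu

open Subgroup Pool.Agent.Q60.MU Pool.Agent.W5h77.MB Pool.Agent.W5h33.DF Pool.Agent.J6H14.DMu
open scoped commutatorElement

variable {𝔾 : Type} [Group 𝔾]

/-- The quotient by `T` extends to the lower layer, and it is unramified modulo the module generated
by the orbits of few fixed elements. -/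
theorem lower' {p : ℕ} [hp : Fact p.Prime] {Ω : Type} [MulAction 𝔾 Ω] {I : Ω → Subgroup 𝔾}
    (hI : ∀ (g : 𝔾) (w : Ω), ∀ x ∈ I w, g * x * g⁻¹ ∈ I (g • w))
    {K D D' : Subgroup 𝔾} (hKn : K.Normal) (hDn : D.Normal) (hD'n : D'.Normal)
    (hDD : D' ≤ D) (hσ : ∃ σ : 𝔾, ∀ τ, ∃ i : ℤ, τ * (σ ^ i)⁻¹ ∈ D') (hKp : ¬ p ∣ K.relIndex ⊤)
    {Q : Subgroup 𝔾} (hgQ : gens p I (K ⊓ D') ⊆ Q) {V : Type} [CommGroup V]
    (hV : ∀ v : V, v ^ p = 1)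
    (ρ : 𝔾 →* MulAut V) (θ : ↥(K ⊓ D') →* V)
    (hθ1 : ∀ x, θ x = 1 ↔ (x : 𝔾) ∈ Q)
    (hθρ : ∀ (g : 𝔾) (x : ↥(K ⊓ D')) (h : g * x * g⁻¹ ∈ K ⊓ D'), ρ g (θ x) = θ ⟨g * x * g⁻¹, h⟩)
    {T : Subgroup V} (hT : ∀ g, ∀ v ∈ T, ρ g v ∈ T) (hTK : ∀ x ∈ K ⊓ D, ∀ v, ρ x v * v⁻¹ ∈ T)
    (hT1 : ∀ v, (∀ z ∈ D', ρ z v * v⁻¹ ∈ T) → v ∈ T)
    {a : ℕ} (𝒜 : Fin a → Ω)
    (h𝒜 : ∀ A, I A ≤ D' ∨ (∀ v, (∀ z ∈ MulAction.stabilizer 𝔾 A ⊓ D', ρ z v * v⁻¹ ∈ T) → v ∈ T) ∨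
      ∃ i, ∃ g ∈ D', g • A = 𝒜 i) :
    ∃ (X : Type) (_ : CommGroup X) (b : 𝔾 →* MulAut X) (f : V →* X) (F : 𝔾 → X)
      (x : Fin a → X) (J : Subgroup X),
      Function.Surjective f ∧ (∀ v, f v = 1 ↔ v ∈ T) ∧ (∀ g v, f (ρ g v) = b g (f v)) ∧
      (∀ x ∈ K ⊓ D, b x = 1) ∧ (∀ x ∈ K ⊓ D, ∀ y ∈ K ⊓ D, F (x * y) = F x * F y) ∧
      (∀ x (hx : x ∈ K ⊓ D'), F x = f (θ ⟨x, hx⟩)) ∧
      (∀ g : 𝔾, ∀ x ∈ K ⊓ D, F (g * x * g⁻¹) = b g (F x)) ∧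
      (∀ i, x i ∈ fx b (MulAction.stabilizer 𝔾 (𝒜 i))) ∧ (∀ g, ∀ v ∈ J, b g v ∈ J) ∧
      J ≤ orb D' b x ∧ (∀ A, ∀ x ∈ K ⊓ D, x ∈ I A → F x ∈ J) := by
  classical
  have hcm := comm_mem_of hσ
  have h𝒦'n : (K ⊓ D').Normal := normal_inf_normal K D'
  have h𝒦n : (K ⊓ D).Normal := normal_inf_normal K D
  obtain ⟨X, iX, b, f₁, hsurj, hker, hf⟩ := exists_quo ρ (T := ⊤) (T' := T)
    (fun _ _ _ => mem_top _) hT
  let f : V →* X := f₁.comp topEquiv.symm.toMonoidHom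
  have hker' : ∀ v, f v = 1 ↔ v ∈ T := fun v => hker ⟨v, mem_top v⟩
  have hfe' : ∀ d v, f (ρ d v) = b d (f v) := fun d v => hf d ⟨v, mem_top v⟩ (mem_top _)
  have hsurj' : Function.Surjective f := by
    intro s
    obtain ⟨⟨v, hv⟩, hfv⟩ := hsurj s
    exact ⟨v, hfv⟩
  have hSp : ∀ s : X, s ^ p = 1 := by
    intro s
    obtain ⟨v, rfl⟩ := hsurj' s
    rw [← map_pow, hV, map_one]
  have hmem : ∀ z v, b z (f v) = f v ↔ ρ z v * v⁻¹ ∈ T := by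
    intro z v
    rw [← hker', map_mul, map_inv, hfe', mul_inv_eq_one]
  have hbK : ∀ x ∈ K ⊓ D, b x = 1 := by
    intro x hx
    ext s
    obtain ⟨v, rfl⟩ := hsurj' s
    rw [MulAut.one_apply, hmem]
    exact hTK x hx v
  have hfix : ∀ s ∈ fx b (⊤ ⊓ D'), s = 1 := by
    intro s hs
    obtain ⟨v, rfl⟩ := hsurj' s
    rw [hker']
    exact hT1 v fun z hz => (hmem z v).1 (hs z ⟨mem_top z, hz⟩)
  let f₀ : 𝔾 → X := fun x => if hx : x ∈ K ⊓ D' then f (θ ⟨x, hx⟩) else 1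
  have hf₀ : ∀ x (hx : x ∈ K ⊓ D'), f₀ x = f (θ ⟨x, hx⟩) := fun x hx => dif_pos hx
  have hcj : ∀ d x : 𝔾, x ∈ K ⊓ D' → d * x * d⁻¹ ∈ K ⊓ D' := fun d x hx => h𝒦'n.conj_mem x hx d
  have hTn : (⊤ : Subgroup 𝔾).Normal := inferInstance
  obtain ⟨F, hF1, hF2, hF3⟩ := exists_extend (D := D) hp.out hKn hTn hD'n hDD hcm hKp hSp b hbK hfix f₀
    (by
      intro x hx y hy
      rw [hf₀ x hx, hf₀ y hy, hf₀ (x * y) (mul_mem hx hy), ← map_mul, ← map_mul]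
      rfl)
    (by
      intro d x hx
      rw [hf₀ _ (hcj d x hx), hf₀ x hx, ← hθρ d ⟨x, hx⟩, hfe' d])
  have hunr : ∀ A, ∀ x ∈ K ⊓ D', x ∈ I A → F x = 1 := by
    intro A x hx hxA
    rw [hF2 x hx, hf₀ x hx, (hθ1 ⟨x, hx⟩).2 (hgQ (Or.inr ⟨hx, A, hxA⟩)), map_one]
  have hKK : K ⊓ D' ≤ K ⊓ D := inf_le_inf_left K hDD
  -- the images of the local groups are fixed by the stabilizers
  have hFfix : ∀ A, ∀ z ∈ MulAction.stabilizer 𝔾 A, ∀ x ∈ K ⊓ D, x ∈ I A → b z (F x) = F x := by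
    intro A z hz x hx hxA
    rw [← hF3 z x hx]
    have h1 : z * x * z⁻¹ ∈ I A := by
      have h2 := hI z A x hxA
      rwa [MulAction.mem_stabilizer_iff.1 hz] at h2
    have h2 : ⁅z, x⁆ ∈ I A := by
      rw [commutatorElement_def]
      exact (I A).mul_mem h1 ((I A).inv_mem hxA)
    have h3 : ⁅z, x⁆ ∈ K ⊓ D' := by
      refine ⟨?_, hcm z x⟩
      rw [commutatorElement_def]
      exact K.mul_mem (hKn.conj_mem x hx.1 z) (K.inv_mem hx.1)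
    have h4 : z * x * z⁻¹ = ⁅z, x⁆ * x := by
      rw [commutatorElement_def]
      group
    rw [h4, hF1 _ (hKK h3) x hx, hunr A _ h3 h2, one_mul]
  have hF5 : F 1 = 1 := by
    have h1 := hF1 1 (one_mem _) 1 (one_mem _)
    rw [mul_one] at h1
    exact mul_eq_left.1 h1.symm
  let Φ : ↥(K ⊓ D) →* X :=
    { toFun := fun x => F x
      map_one' := hF5
      map_mul' := fun x y => hF1 x x.2 y y.2 }
  -- the images of the local groups are cyclic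
  have hcyc : ∀ A, ∃ w ∈ I A ⊓ (K ⊓ D), ∀ x ∈ K ⊓ D, x ∈ I A → ∃ i : ℤ, F x = F w ^ i := by
    intro A
    obtain ⟨w, hw, hgen⟩ := exists_gamma (K := I A ⊓ (K ⊓ D)) hσ
    refine ⟨w, hw, fun x hx hxA => ?_⟩
    obtain ⟨i, hi⟩ := hgen x ⟨hxA, hx⟩
    refine ⟨i, ?_⟩
    have h1 : x * (w ^ i)⁻¹ ∈ I A ⊓ (K ⊓ D) :=
      (I A ⊓ (K ⊓ D)).mul_mem ⟨hxA, hx⟩ ((I A ⊓ (K ⊓ D)).inv_mem ((I A ⊓ (K ⊓ D)).zpow_mem hw i))
    have h2 : F (x * (w ^ i)⁻¹) = 1 := hunr A _ ⟨h1.2.1, hi⟩ h1.1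
    have h3 : x = (x * (w ^ i)⁻¹) * w ^ i := by rw [inv_mul_cancel_right]
    have h4 : F (w ^ i) = F w ^ i := map_zpow Φ ⟨w, hw.2⟩ i
    conv_lhs => rw [h3]
    rw [hF1 _ h1.2 _ ((K ⊓ D).zpow_mem hw.2 i), h2, one_mul, h4]
  choose w hw hwgen using hcyc
  let x₀ : Fin a → X := fun i => F (w (𝒜 i))
  let J : Subgroup X := closure {y | ∃ A, ∃ x ∈ K ⊓ D, x ∈ I A ∧ y = F x}
  have hFJ : ∀ A, ∀ x ∈ K ⊓ D, x ∈ I A → F x ∈ J := fun A x hx hxA =>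
    subset_closure ⟨A, x, hx, hxA, rfl⟩
  refine ⟨X, iX, b, f, F, x₀, J, hsurj', hker', hfe', hbK, hF1,
    fun x hx => (hF2 x hx).trans (hf₀ x hx), hF3, ?_, ?_, ?_, hFJ⟩
  · intro i z hz
    exact hFfix (𝒜 i) z hz _ (hw (𝒜 i)).2 (hw (𝒜 i)).1
  · intro g
    have h1 : J ≤ J.comap (b g).toMonoidHom := by
      rw [closure_le]
      rintro _ ⟨A, x, hx, hxA, rfl⟩
      show b g (F x) ∈ J
      rw [← hF3 g x hx]
      exact hFJ (g • A) _ (h𝒦n.conj_mem x hx g) (hI g A x hxA)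
    exact fun v hv => h1 hv
  · rw [closure_le]
    rintro _ ⟨A, x, hx, hxA, rfl⟩
    rcases h𝒜 A with h | h | ⟨i, g, hg, hgA⟩
    · have h1 : F x = 1 := hunr A x ⟨hx.1, h hxA⟩ hxA
      rw [h1]
      exact one_mem _
    · obtain ⟨v, hv⟩ := hsurj' (F x)
      have h1 : v ∈ T := h v fun z hz => by
        rw [← hmem, hv]
        exact hFfix A z hz.1 x hx hxA
      have h2 : F x = 1 := by
        rw [← hv]
        exact (hker' v).2 h1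
      rw [h2]
      exact one_mem _
    · have h1 : g * x * g⁻¹ ∈ I (𝒜 i) := by
        rw [← hgA]
        exact hI g A x hxA
      obtain ⟨j, hj⟩ := hwgen (𝒜 i) _ (h𝒦n.conj_mem x hx g) h1
      rw [hF3 g x hx] at hj
      have h2 : F x = b g⁻¹ (x₀ i) ^ j := by
        rw [← map_zpow, ← hj, ← MulAut.mul_apply, ← map_mul, inv_mul_cancel, map_one,
          MulAut.one_apply]
      rw [h2]
      have h3 : b g⁻¹ (x₀ i) ∈ orb D' b x₀ := subset_closure ⟨g⁻¹, inv_mem hg, i, rfl⟩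
      exact (orb D' b x₀).zpow_mem h3 j

end Pool.Agent.J6H71.Mu
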