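import Pool.Agent.J6H71.Mu.Bnd

/-!
# A common layer for all simple modules
-/

set_option autoImplicit false

namespace Pool.Agent.J6H71.Mu

open Subgroup Pool.Agent.Q60.MU Pool.Agent.W5h77.MB Pool.Agent.W5h33.DF Pool.Agent.J6H14.DMu
open scoped commutatorElement

variable {𝔾 : Type} [Group 𝔾]

/-- The modules have the same numbers of fixed vectors and of endomorphisms. -/
def Same (K : Subgroup 𝔾) {S S' : Type} [CommGroup S] [CommGroup S'] (b : 𝔾 →* MulAut S)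
    (b' : 𝔾 →* MulAut S') : Prop :=
  (∀ L : Subgroup 𝔾, Nat.card (fx b L) = Nat.card (fx b' L)) ∧ Nat.card (En b) = Nat.card (En b')

theorem Crt.congr [TopologicalSpace 𝔾] {p : ℕ} {Ω : Type} {I : Ω → Subgroup 𝔾} {K D : Subgroup 𝔾}
    {S S' : Type} [CommGroup S] [CommGroup S'] {b : 𝔾 →* MulAut S} {b' : 𝔾 →* MulAut S'} {t : ℕ}
    (h : Same K b b') (hc : Crt p I K D b t) : Crt p I K D b' t := by
  obtain ⟨r, s, P, N, C, c, hP, hN, hPN, hlt⟩ := hc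
  refine ⟨r, s, P, N, C, c, hP, hN, hPN, ?_⟩
  rw [← Finset.prod_congr rfl fun i _ => h.1 (P i), ← Finset.prod_congr rfl fun j _ => h.1 (N j)]
  exact hlt

theorem Cr2.congr [TopologicalSpace 𝔾] {p : ℕ} {Ω : Type} {I : Ω → Subgroup 𝔾}
    {K D₁ D : Subgroup 𝔾}
    {S S' : Type} [CommGroup S] [CommGroup S'] {b : 𝔾 →* MulAut S} {b' : 𝔾 →* MulAut S'}
    (h : Same K b b') (hc : Cr2 p I K D₁ D b) : Cr2 p I K D₁ D b' := by
  obtain ⟨r, s, P, N, C, C', c, c', hP, hN, hPN, hlt⟩ := hc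
  refine ⟨r, s, P, N, C, C', c, c', hP, hN, hPN, ?_⟩
  rw [← Finset.prod_congr rfl fun i _ => h.1 (P i), ← Finset.prod_congr rfl fun j _ => h.1 (N j)]
  exact hlt

theorem Mlt.congr {Ω : Type} [MulAction 𝔾 Ω] {I : Ω → Subgroup 𝔾} {K D' : Subgroup 𝔾}
    {S S' : Type} [CommGroup S] [CommGroup S'] [Finite S] [Finite S'] {b : 𝔾 →* MulAut S}
    {b' : 𝔾 →* MulAut S'} {t : ℕ} (h : Same K b b') (hc : Mlt I D' b t) : Mlt I D' b' t := by
  obtain ⟨a, 𝒜, h1, h2⟩ := hc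
  refine ⟨a, 𝒜, fun A => ?_, ?_⟩
  · rcases h1 A with h3 | h3 | h3
    · exact Or.inl h3
    · right; left
      rw [fx_eq_bot, h.1] at h3
      exact fx_eq_bot.2 h3
    · exact Or.inr (Or.inr h3)
  · rw [← Finset.prod_congr rfl fun i _ => h.1 (MulAction.stabilizer 𝔾 (𝒜 i)), ← h.2]
    exact h2

/-- Fixed vectors of arbitrary subgroups. -/
theorem fx_sup {K : Subgroup 𝔾} {S : Type} [CommGroup S] {b : 𝔾 →* MulAut S}
    (hb : ∀ g ∈ K, b g = 1) (L : Subgroup 𝔾) : fx b L = fx b (L ⊔ K) := by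
  apply le_antisymm
  · intro v hv
    have h1 : L ⊔ K ≤ (MulAction.stabilizer (MulAut S) v).comap b := by
      refine sup_le (fun g hg => ?_) fun g hg => ?_
      · exact hv g hg
      · show b g • v = v
        rw [hb g hg]
        exact one_smul _ v
    exact fun g hg => h1 hg
  · exact fun v hv g hg => hv g (mem_sup_left hg)

theorem exists_level' {p : ℕ} (hp : p.Prime)
    {K : Subgroup 𝔾} (hKn : K.Normal) (hK0 : K.index ≠ 0)
    (𝒬 : ∀ (S : Type) [CommGroup S], (𝔾 →* MulAut S) → Prop)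
    (𝒢 : ∀ (S : Type) [CommGroup S], (𝔾 →* MulAut S) → Subgroup 𝔾 → Prop)
    (hcon : ∀ (S S' : Type) [CommGroup S] [CommGroup S'] [Finite S] [Finite S']
      (b : 𝔾 →* MulAut S) (b' : 𝔾 →* MulAut S'), Same K b b' → ∀ D, 𝒢 S b D → 𝒢 S' b' D)
    (𝓓 : Set (Subgroup 𝔾)) (hne : 𝓓.Nonempty) (hinf : ∀ D ∈ 𝓓, ∀ D' ∈ 𝓓, D ⊓ D' ∈ 𝓓)
    (h : ∀ (S : Type) [CommGroup S] [Finite S] (b : 𝔾 →* MulAut S), Simp p K b →
      𝒬 S b → ∃ D ∈ 𝓓, 𝒢 S b D) :
    ∃ D₀ ∈ 𝓓, ∀ (S : Type) [CommGroup S] [Finite S] (b : 𝔾 →* MulAut S), Simp p K b →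
      𝒬 S b → ∃ D ∈ 𝓓, D₀ ≤ D ∧ 𝒢 S b D := by
  classical
  obtain ⟨D₁, hD₁⟩ := hne
  have hfin : Finite {L : Subgroup 𝔾 // K ≤ L} := (finite_ge hKn hK0).to_subtype
  have : Fintype {L : Subgroup 𝔾 // K ≤ L} := Fintype.ofFinite _
  set n := p ^ K.index with hn
  let T := ({L : Subgroup 𝔾 // K ≤ L} → Fin (n + 1)) × Fin (n ^ n + 1)
  let P : T → Subgroup 𝔾 → Prop := fun f D => D ∈ 𝓓 ∧ ∃ (S : Type) (_ : CommGroup S) (_ : Finite S)
    (b : 𝔾 →* MulAut S), (∀ g ∈ K, b g = 1) ∧ (∀ L, (f.1 L : ℕ) = Nat.card (fx b L.1)) ∧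
      (f.2 : ℕ) = Nat.card (En b) ∧ 𝒢 S b D
  let d : T → Subgroup 𝔾 := fun f => if hf : ∃ D, P f D then hf.choose else D₁
  have hd : ∀ f, d f ∈ 𝓓 := by
    intro f
    show (if hf : ∃ D, P f D then hf.choose else D₁) ∈ 𝓓
    split_ifs with hf
    · exact hf.choose_spec.1
    · exact hD₁
  have hd2 : ∀ f, (∃ D, P f D) → P f (d f) := by
    intro f hf
    have h1 : d f = hf.choose := dif_pos hf
    rw [h1]
    exact hf.choose_spec
  have hI : ∀ s : Finset T, ∃ D₀ ∈ 𝓓, ∀ f ∈ s, D₀ ≤ d f := by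
    intro s
    induction s using Finset.induction_on with
    | empty => exact ⟨D₁, hD₁, by simp⟩
    | insert a s _ ih =>
      obtain ⟨D₀, hD₀, h0⟩ := ih
      refine ⟨d a ⊓ D₀, hinf _ (hd a) _ hD₀, fun f hf => ?_⟩
      rcases Finset.mem_insert.1 hf with rfl | hf
      · exact inf_le_left
      · exact inf_le_right.trans (h0 f hf)
  obtain ⟨D₀, hD₀, h0⟩ := hI Finset.univ
  refine ⟨D₀, hD₀, fun S _ _ b hS hE => ?_⟩
  obtain ⟨D, hD, hcr⟩ := h S b hS hE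
  have hcS : Nat.card S ≤ n := card_simp_le hp hK0 hS
  have hle : ∀ L : Subgroup 𝔾, Nat.card (fx b L) < n + 1 := fun L =>
    Nat.lt_succ_of_le ((Nat.card_le_card_of_injective _ Subtype.val_injective).trans hcS)
  have hle2 : Nat.card (En b) < n ^ n + 1 := by
    apply Nat.lt_succ_of_le
    have h1 : Nat.card (En b) ≤ Nat.card (S → S) := Nat.card_le_card_of_injective
      (fun e : En b => (e.1 : S → S)) fun e e' h => Subtype.ext (DFunLike.coe_injective h)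
    rw [Nat.card_fun] at h1
    have hpos : 0 < n := pow_pos hp.pos _
    exact h1.trans ((Nat.pow_le_pow_left hcS _).trans (Nat.pow_le_pow_right hpos hcS))
  let f : T := (fun L => ⟨Nat.card (fx b L.1), hle L.1⟩, ⟨Nat.card (En b), hle2⟩)
  have hbK : ∀ g ∈ K, b g = 1 := hS.2.2.1
  have hf : P f (d f) := hd2 f ⟨D, hD, S, inferInstance, inferInstance, b, hbK, fun _ => rfl, rfl,
    hcr⟩
  obtain ⟨h1, S', iS', hfS', b', hb', h2, h4, h3⟩ := hf
  refine ⟨d f, h1, h0 f (Finset.mem_univ f), ?_⟩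
  refine hcon S' S b' b ⟨fun L => ?_, h4.symm⟩ _ h3
  rw [fx_sup hb' L, fx_sup hbK L]
  exact (h2 ⟨L ⊔ K, le_sup_right⟩).symm

end Pool.Agent.J6H71.Mu
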