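import Pool.Agent.J6H14.DMu.Lev

/-!
# Equivariant homomorphisms to a simple module
-/

set_option autoImplicit false

namespace Pool.Agent.J6H71.Mu

open Subgroup Pool.Agent.W5h77.MB Pool.Agent.W5h33.DF Pool.Agent.J6H14.DMu

theorem add_ext {p : ℕ} [hp : Fact p.Prime] {V S : Type} [AddCommGroup V] [AddCommGroup S]
    [Module (ZMod p) V] [Module (ZMod p) S] (W : AddSubgroup V) (f : W →+ S) :
    ∃ F : V →+ S, ∀ v : W, F v = f v := by
  let f' : AddSubgroup.toZModSubmodule p W →ₗ[ZMod p] S :=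
    AddMonoidHom.toZModLinearMap p (M := AddSubgroup.toZModSubmodule p W) f
  obtain ⟨g, hg⟩ := LinearMap.exists_extend f'
  refine ⟨g.toAddMonoidHom, fun v => ?_⟩
  exact congrArg (fun h => h (⟨(v : V), v.2⟩ : AddSubgroup.toZModSubmodule p W)) hg

/-- Extension of a homomorphism from a subgroup of an elementary abelian group. -/
theorem hom_ext {p : ℕ} [hp : Fact p.Prime] {V S : Type} [CommGroup V] [CommGroup S]
    (hV : ∀ v : V, v ^ p = 1) (hS : ∀ s : S, s ^ p = 1) (T : Subgroup V) (f : T →* S) :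
    ∃ F : V →* S, ∀ v : T, F v = f v := by
  let i1 : Module (ZMod p) (Additive V) := AddCommGroup.zmodModule (n := p) (fun x => by
    show Additive.ofMul (x.toMul ^ p) = 0
    rw [hV]
    rfl)
  let i2 : Module (ZMod p) (Additive S) := AddCommGroup.zmodModule (n := p) (fun x => by
    show Additive.ofMul (x.toMul ^ p) = 0
    rw [hS]
    rfl)
  obtain ⟨g, hg⟩ := add_ext (p := p) (Subgroup.toAddSubgroup T)
    ({ toFun := fun x => Additive.ofMul (f ⟨x.1.toMul, x.2⟩)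
       map_zero' := by
         show Additive.ofMul (f 1) = 0
         rw [map_one]
         rfl
       map_add' := by
         intro x y
         show Additive.ofMul (f (⟨x.1.toMul, x.2⟩ * ⟨y.1.toMul, y.2⟩)) = _
         rw [map_mul]
         rfl } : Subgroup.toAddSubgroup T →+ Additive S)
  refine ⟨MonoidHom.toAdditive.symm g, ?_⟩
  intro v
  exact hg ⟨Additive.ofMul (v : V), v.2⟩

section
variable {𝔾 : Type} [Group 𝔾] {K D' : Subgroup 𝔾}

/-- Extension of an equivariant homomorphism. -/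
theorem equi_ext {p : ℕ} [hp : Fact p.Prime] (hKn : K.Normal) (hKp : ¬ p ∣ K.relIndex D')
    {V S : Type} [CommGroup V] [CommGroup S] (hV : ∀ v : V, v ^ p = 1) (hS : ∀ s : S, s ^ p = 1)
    (ρ : 𝔾 →* MulAut V) (b : 𝔾 →* MulAut S) (hρ : ∀ x ∈ K ⊓ D', ρ x = 1)
    (hb : ∀ x ∈ K ⊓ D', b x = 1) {T : Subgroup V} (hT : ∀ g ∈ D', ∀ v ∈ T, ρ g v ∈ T)
    (f : T →* S) (hf : ∀ g ∈ D', ∀ (v : T) (hv : ρ g v ∈ T), f ⟨ρ g v, hv⟩ = b g (f v)) :
    ∃ F : V →* S, (∀ v : T, F v = f v) ∧ ∀ g ∈ D', ∀ v, F (ρ g v) = b g (F v) := by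
  classical
  obtain ⟨f₀, hf₀⟩ := hom_ext hV hS T f
  have hn : (K.subgroupOf D').Normal := hKn.subgroupOf D'
  have hKi0 : K.relIndex D' ≠ 0 := fun h => hKp (h ▸ dvd_zero p)
  have hfi : (K.subgroupOf D').FiniteIndex := ⟨hKi0⟩
  have : Fintype (D' ⧸ K.subgroupOf D') := Fintype.ofFinite _
  set n := K.relIndex D' with hndef
  have hcard : Fintype.card (D' ⧸ K.subgroupOf D') = n := by
    rw [← Nat.card_eq_fintype_card]
    rfl
  have hcop : Nat.Coprime n p := ((Nat.Prime.coprime_iff_not_dvd hp.out).2 hKp).symm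
  obtain ⟨m, -, hm⟩ := Nat.exists_mul_mod_eq_one_of_coprime hcop hp.out.one_lt
  have hSnm : ∀ s : S, (s ^ n) ^ m = s := by
    intro s
    rw [← pow_mul, ← Nat.div_add_mod (n * m) p, hm, pow_add, pow_mul, hS, one_pow, one_mul, pow_one]
  -- the value only depends on the class
  let t : D' → V → S := fun d v => (b (d : 𝔾))⁻¹ (f₀ (ρ (d : 𝔾) v))
  have ht : ∀ d e : D', (d : D' ⧸ K.subgroupOf D') = e → ∀ v, t d v = t e v := by
    intro d e hde v
    have h1 : d⁻¹ * e ∈ K.subgroupOf D' := QuotientGroup.eq.1 hde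
    have h2 : (e : 𝔾) = d * ((d : 𝔾)⁻¹ * e) := by group
    have h3 : (d : 𝔾)⁻¹ * e ∈ K ⊓ D' := ⟨h1, D'.mul_mem (D'.inv_mem d.2) e.2⟩
    show (b (d : 𝔾))⁻¹ (f₀ (ρ (d : 𝔾) v)) = (b (e : 𝔾))⁻¹ (f₀ (ρ (e : 𝔾) v))
    rw [h2, map_mul b, map_mul ρ, hρ _ h3, hb _ h3, mul_one, mul_one]
  let G : V →* S :=
    { toFun := fun v => ∏ q : D' ⧸ K.subgroupOf D', t q.out v
      map_one' := by
        refine Finset.prod_eq_one fun q _ => ?_
        show (b _)⁻¹ (f₀ (ρ _ 1)) = 1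
        rw [map_one, map_one, map_one]
      map_mul' := by
        intro x y
        rw [← Finset.prod_mul_distrib]
        refine Finset.prod_congr rfl fun q _ => ?_
        show (b _)⁻¹ (f₀ (ρ _ (x * y))) = (b _)⁻¹ (f₀ (ρ _ x)) * (b _)⁻¹ (f₀ (ρ _ y))
        rw [map_mul, map_mul, map_mul] }
  have hGT : ∀ v : T, G v = f v ^ n := by
    intro v
    show ∏ q : D' ⧸ K.subgroupOf D', t q.out v = _
    rw [← hcard, ← Finset.card_univ, ← Finset.prod_const]
    refine Finset.prod_congr rfl fun q _ => ?_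
    have h1 := hT _ q.out.2 v v.2
    show (b ((q.out : D') : 𝔾))⁻¹ (f₀ (ρ ((q.out : D') : 𝔾) v)) = f v
    have h2 : f₀ (ρ ((q.out : D') : 𝔾) v) = b ((q.out : D') : 𝔾) (f v) := by
      rw [← hf _ q.out.2 v h1, ← hf₀]
    rw [h2, MulAut.inv_apply_self]
  have hGe : ∀ g ∈ D', ∀ v, G (ρ g v) = b g (G v) := by
    intro g hg v
    show ∏ q : D' ⧸ K.subgroupOf D', t q.out (ρ g v) = b g (∏ q : D' ⧸ K.subgroupOf D', t q.out v)
    rw [map_prod]
    let γ : D' ⧸ K.subgroupOf D' := ((⟨g, hg⟩ : D') : D' ⧸ K.subgroupOf D')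
    refine Fintype.prod_equiv (Equiv.mulRight γ) _ _ fun q => ?_
    have h1 : ((q.out * (⟨g, hg⟩ : D') : D') : D' ⧸ K.subgroupOf D') =
        ((Equiv.mulRight γ q).out : D') := by
      rw [QuotientGroup.mk_mul, QuotientGroup.out_eq', QuotientGroup.out_eq']
      rfl
    rw [← ht _ _ h1]
    show (b ((q.out : D') : 𝔾))⁻¹ (f₀ (ρ ((q.out : D') : 𝔾) (ρ g v))) =
      b g ((b (((q.out : D') : 𝔾) * g))⁻¹ (f₀ (ρ (((q.out : D') : 𝔾) * g) v)))
    have h2 : (b g) * (b (((q.out : D') : 𝔾) * g))⁻¹ = (b ((q.out : D') : 𝔾))⁻¹ := by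
      rw [map_mul b, mul_inv_rev, mul_inv_cancel_left]
    have h3 : (b g) ((b (((q.out : D') : 𝔾) * g))⁻¹ (f₀ (ρ (((q.out : D') : 𝔾) * g) v))) =
        ((b g) * (b (((q.out : D') : 𝔾) * g))⁻¹) (f₀ (ρ (((q.out : D') : 𝔾) * g) v)) := rfl
    rw [h3, h2, map_mul ρ, MulAut.mul_apply]
  refine ⟨(powMonoidHom m).comp G, ?_, ?_⟩
  · intro v
    show G v ^ m = f v
    rw [hGT, hSnm]
  · intro g hg v
    show G (ρ g v) ^ m = b g (G v ^ m)
    rw [hGe g hg, map_pow]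

end

end Pool.Agent.J6H71.Mu
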